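import Pool.Agent.R773.HN.Stm

/-!
# Project HN, second part: infinite twists. Definitions and statements.
-/

set_option autoImplicit false

open Set Filter Topology Function
open Pool.Agent.Y453.HB

namespace Pool.Agent.R773.HN

/-- the actions `|z_j|²` -/
def act {n : ℕ} (z : E n) : Fin n → ℝ := fun j => z.1 j ^ 2 + z.2 j ^ 2

/-- rotation of the `j`-th coordinate plane by the angle `θ j` (clockwise), for all `j` -/
noncomputable def rotv {n : ℕ} (θ : Fin n → ℝ) (z : E n) : E n :=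
  (fun j => Real.cos (θ j) * z.1 j + Real.sin (θ j) * z.2 j,
   fun j => -Real.sin (θ j) * z.1 j + Real.cos (θ j) * z.2 j)

/-- the angles `2 ∂G/∂a_j` -/
noncomputable def ang {n : ℕ} (G : (Fin n → ℝ) → ℝ) (a : Fin n → ℝ) : Fin n → ℝ :=
  fun j => 2 * fderiv ℝ G a (Pi.single j 1)

/-- the time one map of the flow of the Hamiltonian `G(|z_1|², …, |z_n|²)` -/
noncomputable def tw {n : ℕ} (G : (Fin n → ℝ) → ℝ) (z : E n) : E n := rotv (ang G (act z)) z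

/-- the quarter rotation `z_i ↦ -z_j`, `z_j ↦ z_i` -/
noncomputable def qrot {n : ℕ} (i j : Fin n) (z : E n) : E n :=
  (fun k => if k = i then -z.1 j else if k = j then z.1 i else z.1 k,
   fun k => if k = i then -z.2 j else if k = j then z.2 i else z.2 k)

/-- HN-TW1: smooth twists -/
def S_TW1 : Prop := ∀ (n : ℕ) (G : (Fin n → ℝ) → ℝ),
  ContDiff ℝ ((⊤ : ℕ∞) : WithTop ℕ∞) G → ∀ r : ℝ, 0 < r → r < 1 →
  (∀ a : Fin n → ℝ, r ^ 2 ≤ ∑ j, a j → G a = 0) →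
  ∃ u : E n ≃ₜ E n, IsHam u ∧ Supp (D 0 r) u ∧ ∀ z, u z = tw G z

/-- HN-TW2: infinite twists -/
def S_TW2 : Prop := ∀ (n : ℕ) (G : (Fin n → ℝ) → ℝ),
  ContDiffOn ℝ ((⊤ : ℕ∞) : WithTop ℕ∞) G {0}ᶜ → ∀ r : ℝ, 0 < r → r < 1 →
  (∀ a : Fin n → ℝ, r ^ 2 ≤ ∑ j, a j → G a = 0) →
  ∃ u : E n ≃ₜ E n, u ∈ HamBar n ∧ Supp (D 0 r) u ∧ ∀ z, u z = tw G z

/-- HN-QR: cut off quarter rotations -/
def S_QR : Prop := ∀ (n : ℕ) (i j : Fin n), i ≠ j → ∀ r r' : ℝ, 0 < r → r < r' → r' < 1 →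
  ∃ κ : E n ≃ₜ E n, IsHam κ ∧ Supp (D 0 r') κ ∧ ∀ z ∈ D (0 : E n) r, κ z = qrot i j z

end Pool.Agent.R773.HN
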