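import Pool.Agent.R773.HN.Defs
import Pool.Agent.R773.HN.Stm2

/-!
# Twists of the ball with possibly unbounded profiles: definitions

`act`, `rotv`, `ang`, `tw`: `Pool/Agent/R773/HN/Stm2.lean`; `HamHomeo`:
`Pool/Agent/R773/HN/Defs.lean`.
-/

set_option autoImplicit false

open Set

namespace Pool.Agent.R773.HN

/-- the profiles: the functions `G` of the actions `a_j = |z_j|²` which are smooth away from the
origin and zero where `Σ a_j ≥ r²`. There is no condition at the origin, near which `G` may be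
unbounded. -/
def Prof (n : ℕ) (r : ℝ) : Set ((Fin n → ℝ) → ℝ) :=
  {G | ContDiffOn ℝ ((⊤ : ℕ∞) : WithTop ℕ∞) G {0}ᶜ ∧
    ∀ a : Fin n → ℝ, r ^ 2 ≤ ∑ j, a j → G a = 0}

/-- the average over the permutations of the coordinates -/
noncomputable def avg {n : ℕ} (G : (Fin n → ℝ) → ℝ) : (Fin n → ℝ) → ℝ :=
  fun a => (n.factorial : ℝ)⁻¹ * ∑ σ : Equiv.Perm (Fin n), G (a ∘ σ)

/-- `T` is the twist `tw G` with profile `G`: it rotates each coordinate plane `z_j` by the angle
`2 ∂G/∂a_j (|z_1|², …, |z_n|²)`, and away from the origin it is the time one map of the flow of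
the Hamiltonian `G(|z_1|², …, |z_n|²)` -/
def IsTwist {n : ℕ} (G : (Fin n → ℝ) → ℝ) (T : HamHomeo n) : Prop :=
  ∀ z : Pool.Agent.Y453.HB.E n, T.1.map z = tw G z

end Pool.Agent.R773.HN
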