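import Pool.Agent.R773.HN.Stm
import Pool.Agent.Y453.HB.Tri

/-!
# Project HN, piece TRANS: a translation cut off in a ball
-/

set_option autoImplicit false

open Set Filter Topology Function
open Pool.Agent.Y453.HB

namespace Pool.Agent.R773.HN.TR

theorem nm_add {n : ℕ} (x y : E n) : nm (x + y) ≤ nm x + nm y := sqrtQ_add x y

theorem nm_smul {n : ℕ} (c : ℝ) (x : E n) : nm (c • x) = |c| * nm x := by
  unfold nm
  rw [Q_smul, Real.sqrt_mul (sq_nonneg c), Real.sqrt_sq_eq_abs]

theorem nm_nonneg {n : ℕ} (x : E n) : 0 ≤ nm x := Real.sqrt_nonneg _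

/-- the linear function with Hamiltonian vector field `v` -/
noncomputable def ell {n : ℕ} (v : E n) : E n →L[ℝ] ℝ :=
  ∑ i, (v.1 i • ((ContinuousLinearMap.proj (R := ℝ) (φ := fun _ : Fin n => ℝ) i).comp
    (ContinuousLinearMap.snd ℝ (Fin n → ℝ) (Fin n → ℝ)))
    - v.2 i • ((ContinuousLinearMap.proj (R := ℝ) (φ := fun _ : Fin n => ℝ) i).comp
    (ContinuousLinearMap.fst ℝ (Fin n → ℝ) (Fin n → ℝ))))

theorem ell_apply {n : ℕ} (v x : E n) : ell v x = ∑ i, (v.1 i * x.2 i - v.2 i * x.1 i) := by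
  simp [ell]

theorem XH_ell {n : ℕ} (v p : E n) : XH (fun x => ell v x) p = v := by
  unfold XH
  have h : fderiv ℝ (fun x => ell v x) p = ell v := (ell v).hasFDerivAt.fderiv
  rw [h]
  refine Prod.ext ?_ ?_
  · funext i
    simp [ell_apply, Pi.single_apply]
  · funext i
    simp [ell_apply, Pi.single_apply]

theorem XH_congr {n : ℕ} {h h' : E n → ℝ} {p : E n} (e : h =ᶠ[𝓝 p] h') : XH h p = XH h' p := by
  unfold XH
  rw [e.fderiv_eq]

theorem XH_contDiff {n : ℕ} {h : E n → ℝ} (hh : ContDiff ℝ ((⊤ : ℕ∞) : WithTop ℕ∞) h) :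
    ContDiff ℝ 1 (XH h) := by
  have h2 : ContDiff ℝ 2 h := contDiff_infty.1 hh 2
  have h1 : ContDiff ℝ 1 (fderiv ℝ h) := h2.fderiv_right (m := 1) (by norm_num)
  refine ContDiff.prodMk ?_ ?_
  · exact contDiff_pi.2 fun i => h1.clm_apply contDiff_const
  · exact contDiff_pi.2 fun i => (h1.clm_apply contDiff_const).neg

theorem XH_off {n : ℕ} {h : E n → ℝ} {K : Set (E n)} (hK : IsCompact K)
    (h0 : ∀ x, x ∉ K → h x = 0) (x : E n) (hx : x ∉ K) : XH h x = 0 := by
  have e : h =ᶠ[𝓝 x] fun _ => 0 := by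
    filter_upwards [hK.isClosed.isOpen_compl.mem_nhds hx] with y hy using h0 y hy
  rw [XH_congr e]
  unfold XH
  refine Prod.ext ?_ ?_
  · funext i
    simp
  · funext i
    simp

theorem XH_lip {n : ℕ} {h : E n → ℝ} (hh : ContDiff ℝ ((⊤ : ℕ∞) : WithTop ℕ∞) h)
    {K : Set (E n)} (hK : IsCompact K) (h0 : ∀ x, x ∉ K → h x = 0) :
    ∃ C, LipschitzWith C (XH h) :=
  (XH_contDiff hh).lipschitzWith_of_hasCompactSupport
    (HasCompactSupport.intro hK (fun x hx => XH_off hK h0 x hx)) one_ne_zero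

theorem Q_le_of_nm_le {n : ℕ} {x : E n} {r : ℝ} (h : nm x ≤ r) : Q x ≤ r ^ 2 := by
  have h1 : Q x = nm x ^ 2 := (Real.sq_sqrt (Q_nonneg x)).symm
  rw [h1]
  exact pow_le_pow_left₀ (nm_nonneg x) h 2

theorem Q_contDiff {n : ℕ} : ContDiff ℝ ((⊤ : ℕ∞) : WithTop ℕ∞) (Q : E n → ℝ) := by
  unfold Q
  fun_prop

/-- HN-TRANS -/
theorem trans_main (hF : S_FLOW) : S_TRANS := by
  intro n c q v ε R hε hcR h1 h2
  obtain ⟨R', hR'1, hR'2, hR'3⟩ : ∃ R' : ℝ, nm (q - c) + ε ≤ R' ∧ nm (q + v - c) + ε ≤ R' ∧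
      R' < R := ⟨max (nm (q - c) + ε) (nm (q + v - c) + ε), le_max_left _ _, le_max_right _ _,
        max_lt h1 h2⟩
  have hR'0 : 0 < R' := lt_of_lt_of_le (by have := nm_nonneg (q - c); linarith) hR'1
  have hAB : R' ^ 2 < R ^ 2 := pow_lt_pow_left₀ hR'3 hR'0.le two_ne_zero
  set M : ℝ := (R' ^ 2 + R ^ 2) / 2 with hM
  have hAM : R' ^ 2 < M := by rw [hM]; linarith
  have hMB : M < R ^ 2 := by rw [hM]; linarith
  -- the cut off function
  let χ : E n → ℝ := fun x => Real.smoothTransition ((R ^ 2 - Q (x - c)) / (R ^ 2 - M))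
  have hχs : ContDiff ℝ ((⊤ : ℕ∞) : WithTop ℕ∞) χ := by
    refine Real.smoothTransition.contDiff.comp ?_
    refine ContDiff.div_const ?_ _
    exact contDiff_const.sub (Q_contDiff.comp (contDiff_id.sub contDiff_const))
  have hχ1 : ∀ x, Q (x - c) < M → χ x = 1 := by
    intro x hx
    apply Real.smoothTransition.one_of_one_le
    rw [le_div_iff₀ (by linarith)]
    linarith
  have hχ0 : ∀ x, R ^ 2 ≤ Q (x - c) → χ x = 0 := by
    intro x hx
    apply Real.smoothTransition.zero_of_nonpos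
    apply div_nonpos_of_nonpos_of_nonneg <;> linarith
  let h : E n → ℝ := fun x => χ x * ell v x
  have hh : ContDiff ℝ ((⊤ : ℕ∞) : WithTop ℕ∞) h := hχs.mul (ell v).contDiff
  have hR0 : 0 < R := hR'0.trans hR'3
  have hK : IsCompact (D c R) := by
    have h3 : IsCompact {x : E n | Q x ≤ R ^ 2} := Q_compact _
    have h4 : D c R = (fun x => x + c) '' {x : E n | Q x ≤ R ^ 2} := by
      ext x
      constructor
      · intro hx
        refine ⟨x - c, Q_le_of_nm_le hx, by simp⟩
      · rintro ⟨y, hy, rfl⟩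
        show nm (y + c - c) ≤ R
        rw [add_sub_cancel_right]
        exact (Real.sqrt_le_sqrt hy).trans (by rw [Real.sqrt_sq hR0.le])
    rw [h4]
    exact h3.image (by fun_prop)
  have hK1 : D c R ⊆ {p : E n | Q p < 1} := by
    intro x hx
    have h3 : nm x ≤ nm (x - c) + nm c := by
      have := nm_add (x - c) c
      rwa [sub_add_cancel] at this
    have h4 : nm x < 1 := by
      have : nm (x - c) ≤ R := hx
      linarith
    have h5 : Q x = nm x ^ 2 := (Real.sq_sqrt (Q_nonneg x)).symm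
    show Q x < 1
    rw [h5]
    exact pow_lt_one₀ (nm_nonneg x) h4 two_ne_zero
  have hoff : ∀ x, x ∉ D c R → h x = 0 := by
    intro x hx
    have h3 : R < nm (x - c) := not_le.1 hx
    have h4 : R ^ 2 ≤ Q (x - c) := by
      have h5 : Q (x - c) = nm (x - c) ^ 2 := (Real.sq_sqrt (Q_nonneg _)).symm
      rw [h5]
      exact pow_le_pow_left₀ hR0.le h3.le 2
    show χ x * ell v x = 0
    rw [hχ0 x h4, zero_mul]
  obtain ⟨u, ψ, hu, hsupp, hψ0, hψ, huψ⟩ := hF n h hh (D c R) hK hK1 hoff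
  refine ⟨u, hu, hsupp, ?_⟩
  intro x hx
  obtain ⟨C, hC⟩ := XH_lip hh hK hoff
  -- the field is constant along the segment
  have hseg : ∀ t ∈ Icc (0 : ℝ) 1, XH h (x + t • v) = v := by
    intro t ht
    have h3 : nm (x + t • v - c) ≤ R' := by
      have e : x + t • v - c = (x - q) + ((1 - t) • (q - c) + t • (q + v - c)) := by
        module
      rw [e]
      have h4 := nm_add (x - q) ((1 - t) • (q - c) + t • (q + v - c))
      have h5 := nm_add ((1 - t) • (q - c)) (t • (q + v - c))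
      rw [nm_smul, nm_smul, abs_of_nonneg (by linarith [ht.2]), abs_of_nonneg ht.1] at h5
      have h6 : nm (x - q) ≤ ε := hx
      have h7 : (1 - t) * nm (q - c) ≤ (1 - t) * (R' - ε) :=
        mul_le_mul_of_nonneg_left (by linarith) (by linarith [ht.2])
      have h8 : t * nm (q + v - c) ≤ t * (R' - ε) :=
        mul_le_mul_of_nonneg_left (by linarith) ht.1
      linarith
    have h9 : Q (x + t • v - c) < M := (Q_le_of_nm_le h3).trans_lt hAM
    have hopen : IsOpen {y : E n | Q (y - c) < M} :=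
      isOpen_lt (Q_cont.comp (continuous_id.sub continuous_const)) continuous_const
    have e : h =ᶠ[𝓝 (x + t • v)] fun y => ell v y := by
      filter_upwards [hopen.mem_nhds h9] with y hy
      show χ y * ell v y = ell v y
      rw [hχ1 y hy, one_mul]
    rw [XH_congr e, XH_ell]
  have huniq : EqOn (fun t => ψ t x) (fun t => x + t • v) (Icc (0 : ℝ) 1) := by
    refine ODE_solution_unique (v := fun _ => XH h) (fun _ => hC) ?_ ?_ ?_ ?_ ?_
    · exact fun t _ => (hψ t x).continuousAt.continuousWithinAt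
    · exact fun t _ => (hψ t x).hasDerivWithinAt
    · exact (Continuous.continuousOn (by fun_prop))
    · intro t ht
      have h3 := hseg t ⟨ht.1, ht.2.le⟩
      show HasDerivWithinAt (fun t : ℝ => x + t • v) (XH h (x + t • v)) (Ici t) t
      rw [h3]
      have h4 : HasDerivAt (fun t : ℝ => x + t • v) ((1 : ℝ) • v) t :=
        ((hasDerivAt_id t).smul_const v).const_add x
      rw [one_smul] at h4
      exact h4.hasDerivWithinAt
    · simp [hψ0]
  have h3 := huniq (show (1 : ℝ) ∈ Icc (0 : ℝ) 1 by simp)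
  simp only [one_smul] at h3
  rw [huψ, h3]

end Pool.Agent.R773.HN.TR

namespace Pool.Agent.R773.HN

/-- HN-TRANS -/
theorem trans (hF : S_FLOW) : S_TRANS := TR.trans_main hF

end Pool.Agent.R773.HN
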