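import Pool.Agent.R773.HN.Stm2
import Pool.Agent.R773.HN.Trans

/-!
# Project HN, piece QR: cut off quarter rotations
-/

set_option autoImplicit false

open Set Filter Topology Function
open Pool.Agent.Y453.HB

namespace Pool.Agent.R773.HN.QRA

/-- the coordinates of the first factor -/
noncomputable def ca {n : ℕ} (i : Fin n) : E n →L[ℝ] ℝ :=
  (ContinuousLinearMap.proj (R := ℝ) (φ := fun _ : Fin n => ℝ) i).comp
    (ContinuousLinearMap.fst ℝ (Fin n → ℝ) (Fin n → ℝ))

/-- the coordinates of the second factor -/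
noncomputable def cb {n : ℕ} (i : Fin n) : E n →L[ℝ] ℝ :=
  (ContinuousLinearMap.proj (R := ℝ) (φ := fun _ : Fin n => ℝ) i).comp
    (ContinuousLinearMap.snd ℝ (Fin n → ℝ) (Fin n → ℝ))

theorem ca_apply {n : ℕ} (i : Fin n) (x : E n) : ca i x = x.1 i := rfl
theorem cb_apply {n : ℕ} (i : Fin n) (x : E n) : cb i x = x.2 i := rfl

/-- the angular momentum -/
noncomputable def J {n : ℕ} (i j : Fin n) (z : E n) : ℝ :=
  Real.pi / 2 * (ca i z * cb j z - ca j z * cb i z)

/-- the rotation by the angle `θ` -/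
noncomputable def rc {n : ℕ} (i j : Fin n) (θ : ℝ) (z : E n) : E n :=
  (fun k => if k = i then Real.cos θ * z.1 i - Real.sin θ * z.1 j else
    if k = j then Real.sin θ * z.1 i + Real.cos θ * z.1 j else z.1 k,
   fun k => if k = i then Real.cos θ * z.2 i - Real.sin θ * z.2 j else
    if k = j then Real.sin θ * z.2 i + Real.cos θ * z.2 j else z.2 k)

theorem J_contDiff {n : ℕ} (i j : Fin n) : ContDiff ℝ ((⊤ : ℕ∞) : WithTop ℕ∞) (J i j) := by
  unfold J
  exact contDiff_const.mul (((ca i).contDiff.mul (cb j).contDiff).sub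
    ((ca j).contDiff.mul (cb i).contDiff))

theorem XH_J {n : ℕ} (i j : Fin n) (p : E n) : XH (J i j) p =
    (fun k => Real.pi / 2 * ((if k = j then p.1 i else 0) - (if k = i then p.1 j else 0)),
     fun k => Real.pi / 2 * ((if k = j then p.2 i else 0) - (if k = i then p.2 j else 0))) := by
  have h1 : HasFDerivAt (J i j) ((Real.pi / 2) • ((ca i p • cb j + cb j p • ca i) -
      (ca j p • cb i + cb i p • ca j))) p := by
    unfold J
    exact (((ca i).hasFDerivAt.mul (cb j).hasFDerivAt).sub
      ((ca j).hasFDerivAt.mul (cb i).hasFDerivAt)).const_mul _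
  unfold XH
  rw [h1.fderiv]
  refine Prod.ext ?_ ?_
  · funext k
    have e1 : ∀ a : Fin n, (if a = k then (1 : ℝ) else 0) = if k = a then 1 else 0 :=
      fun a => if_congr eq_comm rfl rfl
    simp only [smul_apply, _root_.sub_apply, _root_.add_apply, ca_apply, cb_apply, Pi.zero_apply,
      Pi.single_apply, smul_eq_mul, e1]
    split_ifs <;> ring
  · funext k
    have e1 : ∀ a : Fin n, (if a = k then (1 : ℝ) else 0) = if k = a then 1 else 0 :=
      fun a => if_congr eq_comm rfl rfl
    simp only [smul_apply, _root_.sub_apply, _root_.add_apply, ca_apply, cb_apply, Pi.zero_apply,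
      Pi.single_apply, smul_eq_mul, e1]
    split_ifs <;> ring

theorem rc_Q {n : ℕ} (i j : Fin n) (hij : i ≠ j) (θ : ℝ) (z : E n) : Q (rc i j θ z) = Q z := by
  have h : Q (rc i j θ z) - Q z = 0 := by
    unfold Q
    rw [← Finset.sum_sub_distrib, Finset.sum_eq_add i j hij]
    · have hc := Real.sin_sq_add_cos_sq θ
      simp only [rc, if_true, if_neg hij.symm]
      linear_combination (z.1 i ^ 2 + z.1 j ^ 2 + z.2 i ^ 2 + z.2 j ^ 2) * hc
    · intro c _ hc
      simp [rc, hc.1, hc.2]
    · simp
    · simp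
  linarith

theorem rc_deriv {n : ℕ} (i j : Fin n) (hij : i ≠ j) (z : E n) (t : ℝ) :
    HasDerivAt (fun t : ℝ => rc i j (Real.pi / 2 * t) z)
      (XH (J i j) (rc i j (Real.pi / 2 * t) z)) t := by
  have hs : HasDerivAt (fun t : ℝ => Real.sin (Real.pi / 2 * t))
      (Real.cos (Real.pi / 2 * t) * (Real.pi / 2)) t := by
    have h1 : HasDerivAt (fun t : ℝ => Real.pi / 2 * t) (Real.pi / 2) t := by
      simpa using (hasDerivAt_id t).const_mul (Real.pi / 2)
    exact h1.sin
  have hc : HasDerivAt (fun t : ℝ => Real.cos (Real.pi / 2 * t))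
      (-Real.sin (Real.pi / 2 * t) * (Real.pi / 2)) t := by
    have h1 : HasDerivAt (fun t : ℝ => Real.pi / 2 * t) (Real.pi / 2) t := by
      simpa using (hasDerivAt_id t).const_mul (Real.pi / 2)
    exact h1.cos
  rw [XH_J]
  unfold rc
  refine HasDerivAt.prodMk ?_ ?_
  · rw [hasDerivAt_pi]
    intro k
    by_cases hi : k = i
    · subst hi
      have h2 := (hc.mul_const (z.1 k)).sub (hs.mul_const (z.1 j))
      simp only [if_true, if_neg hij, if_neg hij.symm]
      refine HasDerivAt.congr_deriv h2 ?_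
      ring
    · by_cases hj : k = j
      · subst hj
        have h2 := (hs.mul_const (z.1 i)).add (hc.mul_const (z.1 k))
        simp only [if_true, if_neg hi]
        refine HasDerivAt.congr_deriv h2 ?_
        ring
      · simp only [if_neg hi, if_neg hj, sub_zero, mul_zero]
        exact hasDerivAt_const _ _
  · rw [hasDerivAt_pi]
    intro k
    by_cases hi : k = i
    · subst hi
      have h2 := (hc.mul_const (z.2 k)).sub (hs.mul_const (z.2 j))
      simp only [if_true, if_neg hij, if_neg hij.symm]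
      refine HasDerivAt.congr_deriv h2 ?_
      ring
    · by_cases hj : k = j
      · subst hj
        have h2 := (hs.mul_const (z.2 i)).add (hc.mul_const (z.2 k))
        simp only [if_true, if_neg hi]
        refine HasDerivAt.congr_deriv h2 ?_
        ring
      · simp only [if_neg hi, if_neg hj, sub_zero, mul_zero]
        exact hasDerivAt_const _ _

theorem rc_zero {n : ℕ} (i j : Fin n) (z : E n) : rc i j 0 z = z := by
  refine Prod.ext ?_ ?_
  · funext k
    simp only [rc, Real.cos_zero, Real.sin_zero]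
    by_cases hi : k = i
    · subst hi; simp
    · by_cases hj : k = j
      · subst hj; simp [hi]
      · simp [hi, hj]
  · funext k
    simp only [rc, Real.cos_zero, Real.sin_zero]
    by_cases hi : k = i
    · subst hi; simp
    · by_cases hj : k = j
      · subst hj; simp [hi]
      · simp [hi, hj]

theorem rc_one {n : ℕ} (i j : Fin n) (z : E n) : rc i j (Real.pi / 2) z = qrot i j z := by
  unfold rc qrot
  simp

theorem qr_main (hF : S_FLOW) : S_QR := by
  intro n i j hij r r' hr hrr' hr'1
  have hr'0 : 0 < r' := hr.trans hrr'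
  have hAB : r ^ 2 < r' ^ 2 := pow_lt_pow_left₀ hrr' hr.le two_ne_zero
  set M : ℝ := (r ^ 2 + r' ^ 2) / 2 with hM
  have hAM : r ^ 2 < M := by rw [hM]; linarith
  have hMB : M < r' ^ 2 := by rw [hM]; linarith
  let χ : E n → ℝ := fun x => Real.smoothTransition ((r' ^ 2 - Q x) / (r' ^ 2 - M))
  have hχs : ContDiff ℝ ((⊤ : ℕ∞) : WithTop ℕ∞) χ := by
    refine Real.smoothTransition.contDiff.comp ?_
    refine ContDiff.div_const ?_ _
    exact contDiff_const.sub TR.Q_contDiff
  have hχ1 : ∀ x, Q x < M → χ x = 1 := by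
    intro x hx
    apply Real.smoothTransition.one_of_one_le
    rw [le_div_iff₀ (by linarith)]
    linarith
  have hχ0 : ∀ x, r' ^ 2 ≤ Q x → χ x = 0 := by
    intro x hx
    apply Real.smoothTransition.zero_of_nonpos
    apply div_nonpos_of_nonpos_of_nonneg <;> linarith
  let h : E n → ℝ := fun x => χ x * J i j x
  have hh : ContDiff ℝ ((⊤ : ℕ∞) : WithTop ℕ∞) h := hχs.mul (J_contDiff i j)
  have hD : D (0 : E n) r' = {x : E n | Q x ≤ r' ^ 2} := by
    ext x
    constructor
    · intro hx
      have hx' : nm (x - 0) ≤ r' := hx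
      rw [sub_zero] at hx'
      exact TR.Q_le_of_nm_le hx'
    · intro hx
      show nm (x - 0) ≤ r'
      rw [sub_zero]
      exact (Real.sqrt_le_sqrt hx).trans (by rw [Real.sqrt_sq hr'0.le])
  have hK : IsCompact (D (0 : E n) r') := by
    rw [hD]
    exact Q_compact _
  have hK1 : D (0 : E n) r' ⊆ {p : E n | Q p < 1} := by
    intro x hx
    rw [hD] at hx
    have hx' : Q x ≤ r' ^ 2 := hx
    show Q x < 1
    have : r' ^ 2 < 1 := pow_lt_one₀ hr'0.le hr'1 two_ne_zero
    linarith
  have hoff : ∀ x, x ∉ D (0 : E n) r' → h x = 0 := by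
    intro x hx
    rw [hD] at hx
    have h4 : r' ^ 2 < Q x := not_le.1 hx
    show χ x * J i j x = 0
    rw [hχ0 x h4.le, zero_mul]
  obtain ⟨u, ψ, hu, hsupp, hψ0, hψ, huψ⟩ := hF n h hh (D 0 r') hK hK1 hoff
  refine ⟨u, hu, hsupp, ?_⟩
  intro x hx
  obtain ⟨C, hC⟩ := TR.XH_lip hh hK hoff
  have hxr : Q x ≤ r ^ 2 := by
    have hx' : nm (x - 0) ≤ r := hx
    rw [sub_zero] at hx'
    exact TR.Q_le_of_nm_le hx'
  have hseg : ∀ t : ℝ, XH h (rc i j (Real.pi / 2 * t) x) =
      XH (J i j) (rc i j (Real.pi / 2 * t) x) := by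
    intro t
    have h9 : Q (rc i j (Real.pi / 2 * t) x) < M := by
      rw [rc_Q i j hij]
      linarith
    have hopen : IsOpen {y : E n | Q y < M} := isOpen_lt Q_cont continuous_const
    apply TR.XH_congr
    filter_upwards [hopen.mem_nhds h9] with y hy
    show χ y * J i j y = J i j y
    rw [hχ1 y hy, one_mul]
  have huniq : EqOn (fun t => ψ t x) (fun t => rc i j (Real.pi / 2 * t) x) (Icc (0 : ℝ) 1) := by
    refine ODE_solution_unique (v := fun _ => XH h) (fun _ => hC) ?_ ?_ ?_ ?_ ?_
    · exact fun t _ => (hψ t x).continuousAt.continuousWithinAt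
    · exact fun t _ => (hψ t x).hasDerivWithinAt
    · exact fun t _ => (rc_deriv i j hij x t).continuousAt.continuousWithinAt
    · intro t _
      show HasDerivWithinAt (fun t : ℝ => rc i j (Real.pi / 2 * t) x)
        (XH h (rc i j (Real.pi / 2 * t) x)) (Ici t) t
      rw [hseg t]
      exact (rc_deriv i j hij x t).hasDerivWithinAt
    · simp [hψ0, rc_zero]
  have h3 := huniq (show (1 : ℝ) ∈ Icc (0 : ℝ) 1 by simp)
  simp only [mul_one] at h3
  rw [huψ, h3, rc_one]

end Pool.Agent.R773.HN.QRA

namespace Pool.Agent.R773.HN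

/-- HN-QR -/
theorem qr (hF : S_FLOW) : S_QR := QRA.qr_main hF

end Pool.Agent.R773.HN
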