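import Pool.Agent.R773.HN.Stm
import Pool.Agent.Y453.HB.Asm
import Pool.Agent.Y453.HB.Tri
import Pool.Agent.Y309.HB.UC
import Pool.Agent.Y907.HB.Mul
import Pool.Agent.Y510.HB.Inv
import Pool.Agent.Y496.HB.Prod

/-!
# Project HN: supports, commutators, density of normal subgroups
-/

set_option autoImplicit false

open Set Filter Topology Function
open Pool.Agent.Y453.HB
open scoped commutatorElement

namespace Pool.Agent.R773.HN

variable {n : ℕ}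

/-! ### the norm -/

theorem nm_nonneg (x : E n) : 0 ≤ nm x := Real.sqrt_nonneg _

theorem nm_add (x y : E n) : nm (x + y) ≤ nm x + nm y := sqrtQ_add x y

theorem nm_zero : nm (0 : E n) = 0 := by
  have : Q (0 : E n) = 0 := by simp [Q]
  simp [nm, this]

theorem norm_le_nm (x : E n) : ‖x‖ ≤ nm x := norm_le x

theorem nm_smul (c : ℝ) (x : E n) : nm (c • x) = |c| * nm x := by
  unfold nm
  rw [Q_smul, Real.sqrt_mul (sq_nonneg c), Real.sqrt_sq_eq_abs]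

theorem nm_neg (x : E n) : nm (-x) = nm x := by
  rw [show -x = (-1 : ℝ) • x by simp, nm_smul]
  simp

theorem nm_sub_comm (x y : E n) : nm (x - y) = nm (y - x) := by
  rw [← nm_neg, neg_sub]

theorem nm_cont : Continuous (nm : E n → ℝ) := Real.continuous_sqrt.comp Q_cont

theorem nm_tri (x y z : E n) : nm (x - z) ≤ nm (x - y) + nm (y - z) := by
  have := nm_add (x - y) (y - z)
  rwa [sub_add_sub_cancel] at this

theorem D_sub_ball (q : E n) (r : ℝ) : D q r ⊆ Metric.closedBall q r := fun x hx => by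
  rw [Metric.mem_closedBall, dist_eq_norm]
  exact (norm_le_nm _).trans hx

theorem D_closed (q : E n) (r : ℝ) : IsClosed (D q r) :=
  isClosed_le (nm_cont.comp (continuous_id.sub continuous_const)) continuous_const

theorem D_compact (q : E n) (r : ℝ) : IsCompact (D q r) :=
  (isCompact_closedBall q r).of_isClosed_subset (D_closed q r) (D_sub_ball q r)

theorem D_nhds (q : E n) {r : ℝ} (hr : 0 < r) : ∃ ρ > 0, Metric.closedBall q ρ ⊆ D q r := by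
  have h1 : Continuous fun x : E n => nm (x - q) := nm_cont.comp (continuous_id.sub continuous_const)
  have h2 : {x : E n | nm (x - q) < r} ∈ 𝓝 q :=
    (isOpen_lt h1 continuous_const).mem_nhds (by
      show nm (q - q) < r
      rw [sub_self, nm_zero]
      exact hr)
  obtain ⟨ρ, hρ, h3⟩ := Metric.nhds_basis_closedBall.mem_iff.1 h2
  exact ⟨ρ, hρ, fun x hx => by
    have h4 : nm (x - q) < r := h3 hx
    exact h4.le⟩

theorem mem_D_self (q : E n) {r : ℝ} (hr : 0 ≤ r) : q ∈ D q r := by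
  show nm (q - q) ≤ r
  rwa [sub_self, nm_zero]

theorem pull (q : E n) {t b : ℝ} (ht : 0 < t) (hb : 0 < b) (h : nm q < t + b) :
    ∃ c : E n, nm c < t ∧ nm (q - c) < b := by
  by_cases h1 : nm q < t
  · exact ⟨q, h1, by rwa [sub_self, nm_zero]⟩
  · push Not at h1
    have h2 : 0 < nm q := ht.trans_le h1
    obtain ⟨s, hs1, hs2⟩ := exists_between (max_lt (show nm q - b < t by linarith) ht)
    have hs3 : nm q - b < s := (le_max_left _ _).trans_lt hs1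
    have hs4 : 0 < s := (le_max_right _ _).trans_lt hs1
    refine ⟨(s / nm q) • q, ?_, ?_⟩
    · rw [nm_smul, abs_of_pos (by positivity), div_mul_cancel₀ _ h2.ne']
      exact hs2
    · have h3 : q - (s / nm q) • q = (1 - s / nm q) • q := by rw [sub_smul, one_smul]
      have h4 : 0 ≤ 1 - s / nm q := by
        rw [sub_nonneg, div_le_one h2]
        linarith
      rw [h3, nm_smul, abs_of_nonneg h4, sub_mul, div_mul_cancel₀ _ h2.ne']
      linarith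

/-! ### supports -/

theorem Supp.mono {A B : Set (E n)} (h : A ⊆ B) {f : E n ≃ₜ E n} (hf : Supp A f) : Supp B f :=
  fun x hx => hf x fun h' => hx (h h')

theorem Supp.mul {A : Set (E n)} {f g : E n ≃ₜ E n} (hf : Supp A f) (hg : Supp A g) :
    Supp A (f * g) := fun x hx => by rw [mul_apply, hg x hx, hf x hx]

theorem Supp.inv {A : Set (E n)} {f : E n ≃ₜ E n} (hf : Supp A f) : Supp A f⁻¹ := fun x hx => by
  have h1 := inv_apply_self f x
  rwa [hf x hx] at h1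

theorem Supp.one (A : Set (E n)) : Supp A (1 : E n ≃ₜ E n) := fun _ _ => rfl

theorem Supp.comm {A : Set (E n)} {f g : E n ≃ₜ E n} (hf : Supp A f) (hg : Supp A g) :
    Supp A ⁅f, g⁆ := ((hf.mul hg).mul hf.inv).mul hg.inv

theorem Supp.conj {A : Set (E n)} {f : E n ≃ₜ E n} (hf : Supp A f) (g : E n ≃ₜ E n) :
    Supp (g '' A) (g * f * g⁻¹) := fun x hx => by
  rw [mul_apply, mul_apply, hf (g⁻¹ x), apply_inv_self]
  intro h
  exact hx ⟨_, h, apply_inv_self g x⟩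

theorem Supp.commute {A B : Set (E n)} (hAB : Disjoint A B) {f g : E n ≃ₜ E n} (hf : Supp A f)
    (hg : Supp B g) : f * g = g * f :=
  Pool.Agent.Y496.HB.comm hAB hf hg

theorem Supp.maps {A : Set (E n)} {f : E n ≃ₜ E n} (hf : Supp A f) {x : E n} (hx : x ∈ A) :
    f x ∈ A := Pool.Agent.Y496.HB.maps hf hx

/-- `N` is a subgroup of `Γ` normalised by `Γ` -/
def NormIn {G : Type*} [Group G] (Γ N : Subgroup G) : Prop :=
  N ≤ Γ ∧ ∀ g ∈ Γ, ∀ x ∈ N, g * x * g⁻¹ ∈ N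

theorem NormIn.of_conj {G : Type*} [Group G] {Γ N : Subgroup G} (h : NormIn Γ N) {g x : G}
    (hg : g ∈ Γ) (hx : g * x * g⁻¹ ∈ N) : x ∈ N := by
  have := h.2 _ (Γ.inv_mem hg) _ hx
  have e : g⁻¹ * (g * x * g⁻¹) * g⁻¹⁻¹ = x := by group
  rwa [e] at this

/-- Higman's trick -/
theorem comm_mem {Γ N : Subgroup (E n ≃ₜ E n)} (h : NormIn Γ N) {φ f g : E n ≃ₜ E n}
    (hφ : φ ∈ N) (hf : f ∈ Γ) (hg : g ∈ Γ) {A : Set (E n)} (hfA : Supp A f) (hgA : Supp A g)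
    (hd : Disjoint (φ '' A) A) : ⁅f, g⁆ ∈ N := by
  have h1 : Supp (φ '' A) (φ * f⁻¹ * φ⁻¹) := hfA.inv.conj φ
  have h2 : (φ * f⁻¹ * φ⁻¹) * g = g * (φ * f⁻¹ * φ⁻¹) := h1.commute hd hgA
  have h3 : f * (φ * f⁻¹ * φ⁻¹) ∈ N := by
    have := N.mul_mem (h.2 f hf φ hφ) (N.inv_mem hφ)
    have e : f * φ * f⁻¹ * φ⁻¹ = f * (φ * f⁻¹ * φ⁻¹) := by group
    rwa [e] at this
  have h4 := N.mul_mem h3 (h.2 g hg _ (N.inv_mem h3))
  have e : f * (φ * f⁻¹ * φ⁻¹) * (g * (f * (φ * f⁻¹ * φ⁻¹))⁻¹ * g⁻¹) = ⁅f, g⁆ := by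
    have e1 : f * (φ * f⁻¹ * φ⁻¹) * (g * (f * (φ * f⁻¹ * φ⁻¹))⁻¹ * g⁻¹) =
        f * ((φ * f⁻¹ * φ⁻¹) * g) * (φ * f⁻¹ * φ⁻¹)⁻¹ * f⁻¹ * g⁻¹ := by group
    rw [e1, h2, commutatorElement_def]
    group
  rwa [e] at h4

theorem image_D {κ : E n ≃ₜ E n} {q v : E n} {ε : ℝ} (h : ∀ x ∈ D q ε, κ x = x + v) :
    κ '' D q ε ⊆ D (q + v) ε := by
  rintro _ ⟨x, hx, rfl⟩
  rw [h x hx]
  show nm (x + v - (q + v)) ≤ ε
  rw [add_sub_add_right_eq_sub]
  exact hx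

/-- the setting: an intermediate group -/
structure Mid (Γ : Subgroup (E n ≃ₜ E n)) : Prop where
  ham : ∀ u : E n ≃ₜ E n, IsHam u → u ∈ Γ
  le : Γ ≤ HamBar n

theorem cpt_supp {φ : E n ≃ₜ E n} (h : φ ∈ HamBar n) :
    ∃ K : Set (E n), IsCompact K ∧ K ⊆ {p : E n | Q p < 1} ∧ Supp K φ := by
  obtain ⟨K, h1, h2, h3, -⟩ := (mem_iff Pool.Agent.Y907.HB.mul Pool.Agent.Y510.HB.inv
    Pool.Agent.Y309.HB.uc).1 h
  exact ⟨K, h1, h2, h3⟩

theorem approx {φ : E n ≃ₜ E n} (h : φ ∈ HamBar n) {ε : ℝ} (hε : 0 < ε) :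
    ∃ u : E n ≃ₜ E n, IsHam u ∧ ∀ x, ‖u x - φ x‖ < ε := by
  obtain ⟨K, -, -, -, u, -, h1, h2⟩ := (mem_iff Pool.Agent.Y907.HB.mul Pool.Agent.Y510.HB.inv
    Pool.Agent.Y309.HB.uc).1 h
  obtain ⟨k, hk⟩ := (Metric.tendstoUniformly_iff.1 h2 ε hε).exists
  refine ⟨u k, h1 k, fun x => ?_⟩
  rw [← dist_eq_norm, dist_comm]
  exact hk x

theorem nm_lt_one {p : E n} (h : Q p < 1) : nm p < 1 := by
  unfold nm
  rw [Real.sqrt_lt' one_pos]
  simpa using h

/-- a small displaced ball -/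
theorem displaced {φ : E n ≃ₜ E n} {p : E n} (hp : φ p ≠ p) {W : Set (E n)} (hW : W ∈ 𝓝 p)
    (hp1 : nm p < 1) : ∃ r > 0, nm p + r < 1 ∧ D p r ⊆ W ∧ Disjoint (φ '' D p r) (D p r) := by
  obtain ⟨U, V, hU, hV, hUp, hVp, hUV⟩ := t2_separation hp
  have h1 : φ ⁻¹' U ∩ V ∩ W ∈ 𝓝 p :=
    inter_mem (inter_mem (φ.continuous.continuousAt (hU.mem_nhds hUp)) (hV.mem_nhds hVp)) hW
  obtain ⟨ρ, hρ, h2⟩ := Metric.nhds_basis_closedBall.mem_iff.1 h1
  refine ⟨min ρ ((1 - nm p) / 2), lt_min hρ (by linarith), ?_, ?_, ?_⟩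
  · have := min_le_right ρ ((1 - nm p) / 2)
    linarith
  · exact fun x hx => (h2 (Metric.closedBall_subset_closedBall (min_le_left _ _)
      (D_sub_ball _ _ hx))).2
  · rw [Set.disjoint_left]
    rintro _ ⟨x, hx, rfl⟩ hy
    exact Set.disjoint_left.1 hUV
      (h2 (Metric.closedBall_subset_closedBall (min_le_left _ _) (D_sub_ball _ _ hx))).1.1
      (h2 (Metric.closedBall_subset_closedBall (min_le_left _ _) (D_sub_ball _ _ hy))).1.2

theorem exists_moved {φ : E n ≃ₜ E n} (h : φ ≠ 1) : ∃ p, φ p ≠ p := by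
  by_contra hc
  push Not at hc
  exact h (Homeomorph.ext hc)

/-- commutators of elements supported in one small ball are in `N` -/
theorem claimA (hT : S_TRANS) {Γ N : Subgroup (E n ≃ₜ E n)} (hΓ : Mid Γ) (hN : NormIn Γ N)
    (hne : N ≠ ⊥) : ∃ r > 0, r < 1 ∧ ∀ q : E n, nm q + r < 1 → ∀ f ∈ Γ, ∀ g ∈ Γ,
      Supp (D q r) f → Supp (D q r) g → ⁅f, g⁆ ∈ N := by
  obtain ⟨⟨φ, hφ⟩, hφ'⟩ := (Subgroup.ne_bot_iff_exists_ne_one).1 hne
  have hφ1 : φ ≠ 1 := fun h' => hφ' (Subtype.ext h')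
  obtain ⟨p, hp⟩ := exists_moved hφ1
  obtain ⟨K, -, hK1, hK2⟩ := cpt_supp (hΓ.le (hN.1 hφ))
  have hp1 : nm p < 1 := by
    apply nm_lt_one
    by_contra hc
    exact hp (hK2 p fun h => hc (hK1 h))
  obtain ⟨r, hr, hpr, -, hd⟩ := displaced hp Filter.univ_mem hp1
  refine ⟨r, hr, by have := nm_nonneg p; linarith, fun q hq f hf g hg hfs hgs => ?_⟩
  obtain ⟨R, hR1, hR2⟩ := exists_between (max_lt hq hpr)
  obtain ⟨κ, hκ, -, hκx⟩ := hT n 0 q (p - q) r R hr (by rw [nm_zero]; linarith)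
    (by rw [sub_zero]; exact (le_max_left _ _).trans_lt hR1)
    (by rw [sub_zero, add_sub_cancel]; exact (le_max_right _ _).trans_lt hR1)
  have him : κ '' D q r ⊆ D p r := by
    have := image_D hκx
    rwa [add_sub_cancel] at this
  have hκΓ := hΓ.ham κ hκ
  have h1 : ⁅κ * f * κ⁻¹, κ * g * κ⁻¹⁆ ∈ N :=
    comm_mem hN hφ (Γ.mul_mem (Γ.mul_mem hκΓ hf) (Γ.inv_mem hκΓ))
      (Γ.mul_mem (Γ.mul_mem hκΓ hg) (Γ.inv_mem hκΓ)) ((hfs.conj κ).mono him)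
      ((hgs.conj κ).mono him) hd
  refine hN.of_conj hκΓ (x := ⁅f, g⁆) ?_
  have e : κ * ⁅f, g⁆ * κ⁻¹ = ⁅κ * f * κ⁻¹, κ * g * κ⁻¹⁆ := by
    simp only [commutatorElement_def]
    group
  rwa [e]

/-- one step -/
theorem move1 (hT : S_TRANS) {Γ N : Subgroup (E n ≃ₜ E n)} (hΓ : Mid Γ) {r : ℝ} (hr1 : r < 1)
    (hA : ∀ q : E n, nm q + r < 1 → ∀ f ∈ Γ, ∀ g ∈ Γ,
      Supp (D q r) f → Supp (D q r) g → ⁅f, g⁆ ∈ N) {u : E n ≃ₜ E n} (hu : u ∈ Γ) {q v : E n}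
    {ε : ℝ} (hε : 0 < ε) (hus : Supp (D q ε) u) (h1 : ε + nm v < r) (h2 : nm q + ε + nm v < 1) :
    ∃ u' ∈ Γ, Supp (D (q + v) ε) u' ∧ u * u'⁻¹ ∈ N := by
  obtain ⟨c, hc1, hc2⟩ := pull q (t := 1 - r) (b := r - ε - nm v) (by linarith) (by linarith)
    (by linarith)
  obtain ⟨κ, hκ, hκs, hκx⟩ := hT n c q v ε r hε (by linarith)
    (by have := nm_nonneg v; linarith)
    (by
      have h3 : q + v - c = (q - c) + v := by abel
      rw [h3]
      have := nm_add (q - c) v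
      linarith)
  have hκΓ := hΓ.ham κ hκ
  refine ⟨κ * u * κ⁻¹, Γ.mul_mem (Γ.mul_mem hκΓ hu) (Γ.inv_mem hκΓ),
    (hus.conj κ).mono (image_D hκx), ?_⟩
  have e : u * (κ * u * κ⁻¹)⁻¹ = ⁅u, κ⁆ := by
    rw [commutatorElement_def]
    group
  rw [e]
  refine hA c (by linarith) u hu κ hκΓ (hus.mono fun x hx => ?_) hκs
  have h3 := nm_tri x q c
  have h4 : nm (x - q) ≤ ε := hx
  have := nm_nonneg v
  show nm (x - c) ≤ r
  linarith

/-- moving to the centre -/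
theorem move (hT : S_TRANS) {Γ N : Subgroup (E n ≃ₜ E n)} (hΓ : Mid Γ) {r : ℝ} (hr1 : r < 1)
    (hA : ∀ q : E n, nm q + r < 1 → ∀ f ∈ Γ, ∀ g ∈ Γ,
      Supp (D q r) f → Supp (D q r) g → ⁅f, g⁆ ∈ N) {u : E n ≃ₜ E n} (hu : u ∈ Γ) {q : E n}
    {ε : ℝ} (hε : 0 < ε) (hεr : ε < r) (hus : Supp (D q ε) u) (h2 : nm q + ε < 1) :
    ∃ w ∈ Γ, Supp (D 0 ε) w ∧ u * w⁻¹ ∈ N := by
  obtain ⟨m, hm⟩ := exists_nat_gt (nm q / min (r - ε) (1 - ε - nm q))
  have hmin : 0 < min (r - ε) (1 - ε - nm q) := lt_min (by linarith) (by linarith)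
  have hm0 : (0 : ℝ) < m := (div_nonneg (nm_nonneg q) hmin.le).trans_lt hm
  have hv : nm q / m < min (r - ε) (1 - ε - nm q) := by
    rw [div_lt_iff₀ hmin] at hm
    rw [div_lt_iff₀ hm0]
    linarith
  have hv1 := hv.trans_le (min_le_left _ _)
  have hv2 := hv.trans_le (min_le_right _ _)
  have key : ∀ k : ℕ, k ≤ m → ∃ w ∈ Γ, Supp (D ((1 - (k : ℝ) / m) • q) ε) w ∧ u * w⁻¹ ∈ N := by
    intro k
    induction k with
    | zero =>
      intro _
      refine ⟨u, hu, ?_, by rw [mul_inv_cancel]; exact N.one_mem⟩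
      simpa using hus
    | succ k ih =>
      intro hk
      obtain ⟨w, hw, hws, hwN⟩ := ih (by omega)
      have hkm : (k : ℝ) / m ≤ 1 := by
        rw [div_le_one hm0]
        exact_mod_cast (by omega : k ≤ m)
      have hk0 : 0 ≤ (k : ℝ) / m := by positivity
      have hnv : nm (-(1 / (m : ℝ)) • q) = nm q / m := by
        rw [nm_smul, abs_neg, abs_of_pos (by positivity)]
        ring
      have hnq : nm ((1 - (k : ℝ) / m) • q) ≤ nm q := by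
        rw [nm_smul, abs_of_nonneg (by linarith)]
        exact mul_le_of_le_one_left (nm_nonneg q) (by linarith)
      obtain ⟨w', hw', hws', hwN'⟩ := move1 hT hΓ hr1 hA hw (v := -(1 / (m : ℝ)) • q) hε hws
        (by rw [hnv]; linarith) (by rw [hnv]; linarith)
      refine ⟨w', hw', ?_, ?_⟩
      · have e : (1 - (k : ℝ) / m) • q + -(1 / (m : ℝ)) • q =
            (1 - ((k + 1 : ℕ) : ℝ) / m) • q := by
          rw [← add_smul]
          congr 1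
          push_cast
          ring
        rwa [e] at hws'
      · have := N.mul_mem hwN hwN'
        have e : u * w⁻¹ * (w * w'⁻¹) = u * w'⁻¹ := by group
        rwa [e] at this
  obtain ⟨w, hw, hws, hwN⟩ := key m le_rfl
  refine ⟨w, hw, ?_, hwN⟩
  rw [div_self hm0.ne', sub_self, zero_smul] at hws
  exact hws

/-- products -/
theorem list_mod {Γ N : Subgroup (E n ≃ₜ E n)} (hN : NormIn Γ N) {A : Set (E n)}
    (l : List (E n ≃ₜ E n)) (hl : ∀ u ∈ l, ∃ w ∈ Γ, Supp A w ∧ u * w⁻¹ ∈ N) :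
    ∃ w ∈ Γ, Supp A w ∧ w⁻¹ * l.prod ∈ N := by
  induction l with
  | nil => exact ⟨1, Γ.one_mem, Supp.one A, by simp [N.one_mem]⟩
  | cons u l ih =>
    obtain ⟨w, hw, hws, hwN⟩ := hl u (by simp)
    obtain ⟨w', hw', hws', hwN'⟩ := ih fun u hu => hl u (by simp [hu])
    refine ⟨w * w', Γ.mul_mem hw hw', hws.mul hws', ?_⟩
    have h1 := hN.2 _ (Γ.inv_mem (Γ.mul_mem hw hw')) _ hwN
    have h2 := N.mul_mem h1 hwN'
    have e : (w * w')⁻¹ * (u * w⁻¹) * (w * w')⁻¹⁻¹ * (w'⁻¹ * l.prod) =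
        (w * w')⁻¹ * (u :: l).prod := by
      rw [List.prod_cons]
      group
    rwa [e] at h2

/-- nontrivial normal subgroups are dense -/
theorem dens (hT : S_TRANS) (hR : S_TROT) {Γ N : Subgroup (E n ≃ₜ E n)} (hΓ : Mid Γ)
    (hN : NormIn Γ N) (hne : N ≠ ⊥) {φ : E n ≃ₜ E n} (hφ : φ ∈ HamBar n) {δ : ℝ} (hδ : 0 < δ) :
    ∃ s ∈ N, ∀ x, ‖s x - φ x‖ < δ := by
  obtain ⟨r, hr, hr1, hA⟩ := claimA hT hΓ hN hne
  obtain ⟨φ₁, hφ₁, hφ₁x⟩ := approx hφ (show 0 < δ / 4 by linarith)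
  obtain ⟨ε, hε, hε1⟩ := exists_between (show 0 < min r (δ / 8) from lt_min hr (by linarith))
  have hεr : ε < r := hε1.trans_le (min_le_left _ _)
  have hεδ : ε < δ / 8 := hε1.trans_le (min_le_right _ _)
  obtain ⟨l, hl, hlx⟩ := hR n φ₁ hφ₁ ε (δ / 4) hε (by linarith) (by linarith)
  obtain ⟨w, hw, hws, hwN⟩ := list_mod hN (A := D 0 ε) l fun u hu => by
    obtain ⟨h1, q, h2, h3⟩ := hl u hu
    exact move hT hΓ hr1 hA (hΓ.ham u h1) hε hεr h3 h2
  refine ⟨_, hwN, fun x => ?_⟩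
  have h1 : ∀ y : E n, ‖w y - y‖ ≤ 2 * ε := by
    intro y
    by_cases hy : y ∈ D (0 : E n) ε
    · have h2 := (norm_le_nm (w y - 0)).trans (hws.maps hy)
      have h3 := (norm_le_nm (y - 0)).trans hy
      rw [sub_zero] at h2 h3
      exact (norm_sub_le _ _).trans (by linarith)
    · rw [hws y hy, sub_self, norm_zero]
      linarith
  have h2 := h1 ((w⁻¹ * l.prod : E n ≃ₜ E n) x)
  rw [show w ((w⁻¹ * l.prod : E n ≃ₜ E n) x) = l.prod x from by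
    rw [← mul_apply, mul_inv_cancel_left]] at h2
  have h3 := hlx x
  have h4 := hφ₁x x
  set a := (w⁻¹ * l.prod : E n ≃ₜ E n) x
  have e : a - φ x = -(l.prod x - a) + (l.prod x - φ₁ x) + (φ₁ x - φ x) := by abel
  rw [e]
  have h5 := norm_add_le (-(l.prod x - a) + (l.prod x - φ₁ x)) (φ₁ x - φ x)
  have h6 := norm_add_le (-(l.prod x - a)) (l.prod x - φ₁ x)
  rw [norm_neg] at h6
  linarith

end Pool.Agent.R773.HN
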