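import Pool.Agent.R773.HN.Stm2
import Pool.Agent.R773.HN.Grp
import Pool.Agent.Y945.HB.Rot

/-!
# Project HN, second part: smooth toric twists are Hamiltonian
-/

set_option autoImplicit false

open Set Filter Topology Function
open Pool.Agent.Y453.HB
open Pool.Agent.Y945.HB (L1 L2)

namespace Pool.Agent.R773.HN

namespace Tw1

variable {n : ℕ}

lemma act_rotv (θ : Fin n → ℝ) (z : E n) : act (rotv θ z) = act z := by
  funext j
  simp only [act, rotv]
  linear_combination (z.1 j ^ 2 + z.2 j ^ 2) * Real.sin_sq_add_cos_sq (θ j)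

lemma rotv_rotv (θ φ : Fin n → ℝ) (z : E n) : rotv θ (rotv φ z) = rotv (θ + φ) z := by
  refine Prod.ext ?_ ?_
  · funext j
    simp only [rotv, Pi.add_apply, Real.cos_add, Real.sin_add]
    ring
  · funext j
    simp only [rotv, Pi.add_apply, Real.cos_add, Real.sin_add]
    ring

lemma rotv_zero (z : E n) : rotv 0 z = z := by
  refine Prod.ext ?_ ?_ <;> funext j <;> simp [rotv]

lemma sum_act (z : E n) : ∑ j, act z j = Q z := rfl

lemma act_smooth : ContDiff ℝ ((⊤ : ℕ∞) : WithTop ℕ∞) (act : E n → Fin n → ℝ) := by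
  unfold act
  fun_prop

lemma ang_cont {G : (Fin n → ℝ) → ℝ} (hG : ContDiff ℝ ((⊤ : ℕ∞) : WithTop ℕ∞) G) :
    Continuous (ang G) := by
  unfold ang
  refine continuous_pi fun j => ?_
  have h : Continuous (fderiv ℝ G) := hG.continuous_fderiv (by simp)
  exact (h.clm_apply continuous_const).const_mul 2

lemma rotv_cont {α : Type} [TopologicalSpace α] {θ : α → Fin n → ℝ} {z : α → E n}
    (hθ : Continuous θ) (hz : Continuous z) : Continuous fun x => rotv (θ x) (z x) := by
  unfold rotv
  have h1 : ∀ j, Continuous fun x => θ x j := fun j => (continuous_apply j).comp hθ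
  have h2 : ∀ j, Continuous fun x => (z x).1 j := fun j =>
    (continuous_apply j).comp (continuous_fst.comp hz)
  have h3 : ∀ j, Continuous fun x => (z x).2 j := fun j =>
    (continuous_apply j).comp (continuous_snd.comp hz)
  refine Continuous.prodMk (continuous_pi fun j => ?_) (continuous_pi fun j => ?_)
  · exact ((Real.continuous_cos.comp (h1 j)).mul (h2 j)).add
      ((Real.continuous_sin.comp (h1 j)).mul (h3 j))
  · exact ((Real.continuous_sin.comp (h1 j)).neg.mul (h2 j)).add
      ((Real.continuous_cos.comp (h1 j)).mul (h3 j))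

/-- the twist as a homeomorphism -/
noncomputable def TWv (G : (Fin n → ℝ) → ℝ) (hG : Continuous (ang G)) : E n ≃ₜ E n where
  toFun z := tw G z
  invFun z := rotv (-(ang G (act z))) z
  left_inv z := by
    simp only [tw, act_rotv, rotv_rotv, neg_add_cancel, rotv_zero]
  right_inv z := by
    simp only [tw, act_rotv, rotv_rotv, add_neg_cancel, rotv_zero]
  continuous_toFun := rotv_cont (hG.comp act_smooth.continuous) continuous_id
  continuous_invFun := rotv_cont (hG.comp act_smooth.continuous).neg continuous_id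

lemma act_deriv (z : E n) : HasFDerivAt (act : E n → Fin n → ℝ)
    (ContinuousLinearMap.pi fun j => (2 * z.1 j) • L1 j + (2 * z.2 j) • L2 j) z := by
  unfold act
  rw [hasFDerivAt_pi]
  intro j
  have h1 : HasFDerivAt (fun p : E n => p.1 j) (L1 j) z := (L1 j).hasFDerivAt
  have h2 : HasFDerivAt (fun p : E n => p.2 j) (L2 j) z := (L2 j).hasFDerivAt
  have h3 := HasFDerivAt.fun_add (HasFDerivAt.pow h1 2) (HasFDerivAt.pow h2 2)
  refine h3.congr_fderiv ?_
  simp

lemma XH_act {G : (Fin n → ℝ) → ℝ} (hG : Differentiable ℝ G) (z : E n) :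
    XH (fun z => G (act z)) z =
      (fun j => ang G (act z) j * z.2 j, fun j => -(ang G (act z) j * z.1 j)) := by
  have h := (hG (act z)).hasFDerivAt.comp z (act_deriv z)
  have h' : fderiv ℝ (fun z => G (act z)) z = _ := h.fderiv
  have hs : ∀ (i : Fin n) (c : ℝ), fderiv ℝ G (act z) (Pi.single i c) =
      c * fderiv ℝ G (act z) (Pi.single i 1) := by
    intro i c
    have : (Pi.single i c : Fin n → ℝ) = c • Pi.single i 1 := by
      rw [← Pi.single_smul, smul_eq_mul, mul_one]
    rw [this, map_smul, smul_eq_mul]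
  unfold XH
  rw [h']
  refine Prod.ext ?_ ?_
  · funext i
    show fderiv ℝ G (act z) (ContinuousLinearMap.pi (fun j => (2 * z.1 j) • L1 j +
      (2 * z.2 j) • L2 j) ((0 : Fin n → ℝ), (Pi.single i (1 : ℝ) : Fin n → ℝ))) = _
    have e : (ContinuousLinearMap.pi (fun j => (2 * z.1 j) • L1 j +
      (2 * z.2 j) • L2 j) ((0 : Fin n → ℝ), (Pi.single i (1 : ℝ) : Fin n → ℝ)) : Fin n → ℝ) =
        Pi.single i (2 * z.2 i) := by
      funext j
      by_cases hij : j = i
      · subst hij
        simp
      · simp [Pi.single_eq_of_ne hij]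
    rw [e, hs]
    simp only [ang]
    ring
  · funext i
    show -(fderiv ℝ G (act z) (ContinuousLinearMap.pi (fun j => (2 * z.1 j) • L1 j +
      (2 * z.2 j) • L2 j) ((Pi.single i (1 : ℝ) : Fin n → ℝ), (0 : Fin n → ℝ)))) = _
    have e : (ContinuousLinearMap.pi (fun j => (2 * z.1 j) • L1 j +
      (2 * z.2 j) • L2 j) ((Pi.single i (1 : ℝ) : Fin n → ℝ), (0 : Fin n → ℝ)) : Fin n → ℝ) =
        Pi.single i (2 * z.1 i) := by
      funext j
      by_cases hij : j = i
      · subst hij
        simp
      · simp [Pi.single_eq_of_ne hij]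
    rw [e, hs]
    simp only [ang]
    ring

lemma flow_deriv (θ : Fin n → ℝ) (z : E n) (t : ℝ) :
    HasDerivAt (fun s : ℝ => rotv (s • θ) z)
      (fun j => θ j * (rotv (t • θ) z).2 j, fun j => -(θ j * (rotv (t • θ) z).1 j)) t := by
  have h0 : ∀ j, HasDerivAt (fun s : ℝ => (s • θ) j) (θ j) t := by
    intro j
    simpa using (hasDerivAt_id t).mul_const (θ j)
  unfold rotv
  refine HasDerivAt.prodMk ?_ ?_
  · rw [hasDerivAt_pi]
    intro j
    have hc := (h0 j).cos
    have hs := (h0 j).sin
    refine ((hc.mul_const (z.1 j)).fun_add (hs.mul_const (z.2 j))).congr_deriv ?_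
    simp only
    ring
  · rw [hasDerivAt_pi]
    intro j
    have hc := (h0 j).cos
    have hs := (h0 j).sin
    refine ((hs.fun_neg.mul_const (z.1 j)).fun_add (hc.mul_const (z.2 j))).congr_deriv ?_
    simp only
    ring

lemma Q_gt {r : ℝ} (hr : 0 < r) {z : E n} (hz : z ∉ D (0 : E n) r) : r ^ 2 < Q z := by
  have h : ¬ nm (z - 0) ≤ r := hz
  rw [sub_zero, not_le, nm, Real.lt_sqrt hr.le] at h
  exact h

end Tw1

open Tw1

theorem tw1 : S_TW1 := by
  intro n G hG r hr hr1 hsup
  have hd : Differentiable ℝ G := hG.differentiable (by simp)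
  refine ⟨TWv G (ang_cont hG), ?_, ?_, fun z => rfl⟩
  · refine ⟨fun _ z => G (act z), ?_, ⟨D 0 r, D_compact 0 r, ?_, ?_⟩,
      fun t z => rotv (t • ang G (act z)) z, ?_, ?_, ?_⟩
    · exact hG.comp (act_smooth.comp contDiff_snd)
    · intro x hx
      have h1 : nm (x - 0) ≤ r := hx
      rw [sub_zero] at h1
      have h2 : √(Q x) < 1 := h1.trans_lt hr1
      show Q x < 1
      rwa [Real.sqrt_lt' one_pos, one_pow] at h2
    · intro t x hx
      exact hsup _ (by rw [sum_act]; exact (Q_gt hr hx).le)
    · intro x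
      simp only [zero_smul, rotv_zero]
    · intro t x
      rw [XH_act hd]
      simp only [act_rotv]
      exact flow_deriv _ x t
    · intro x
      simp only [one_smul]
      rfl
  · intro x hx
    have h1 := Q_gt hr hx
    have h2 : G =ᶠ[𝓝 (act x)] fun _ => 0 := by
      have h3 : {a : Fin n → ℝ | r ^ 2 < ∑ j, a j} ∈ 𝓝 (act x) := by
        refine IsOpen.mem_nhds (isOpen_lt continuous_const (by fun_prop)) ?_
        show r ^ 2 < ∑ j, act x j
        rw [sum_act]
        exact h1
      filter_upwards [h3] with a ha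
      exact hsup a (le_of_lt ha)
    have h4 : ang G (act x) = 0 := by
      funext j
      simp only [ang]
      rw [h2.fderiv_eq]
      simp
    show rotv (ang G (act x)) x = x
    rw [h4, rotv_zero]

end Pool.Agent.R773.HN
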