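import Pool.Agent.R773.HN.Stm2
import Pool.Agent.Y453.HB.Tri

/-!
# Project HN, HN-TW2: infinite twists
-/

set_option autoImplicit false

open Set Filter Topology Function
open Pool.Agent.Y453.HB

namespace Pool.Agent.R773.HN

namespace Tw2

variable {n : ℕ}

theorem act_rotv (θ : Fin n → ℝ) (z : E n) : act (rotv θ z) = act z := by
  funext j
  simp only [act, rotv]
  linear_combination (z.1 j ^ 2 + z.2 j ^ 2) * Real.sin_sq_add_cos_sq (θ j)

theorem rotv_rotv (θ φ : Fin n → ℝ) (z : E n) : rotv θ (rotv φ z) = rotv (θ + φ) z := by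
  unfold rotv
  refine Prod.ext ?_ ?_
  · funext j
    simp only [Pi.add_apply, Real.cos_add, Real.sin_add]
    ring
  · funext j
    simp only [Pi.add_apply, Real.cos_add, Real.sin_add]
    ring

theorem rotv_zero (z : E n) : rotv 0 z = z := by
  unfold rotv
  refine Prod.ext ?_ ?_
  · funext j
    simp
  · funext j
    simp

theorem rotv_norm (θ : Fin n → ℝ) (z : E n) : ‖rotv θ z‖ ≤ 2 * ‖z‖ := by
  have h1 : ∀ j, |z.1 j| ≤ ‖z‖ := fun j => (norm_le_pi_norm z.1 j).trans (norm_fst_le z)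
  have h2 : ∀ j, |z.2 j| ≤ ‖z‖ := fun j => (norm_le_pi_norm z.2 j).trans (norm_snd_le z)
  have h0 : 0 ≤ ‖z‖ := norm_nonneg z
  have key : ∀ a b : ℝ, |a| ≤ 1 → |b| ≤ 1 → ∀ j, |a * z.1 j + b * z.2 j| ≤ 2 * ‖z‖ := by
    intro a b ha hb j
    have h3 := abs_add_le (a * z.1 j) (b * z.2 j)
    rw [abs_mul, abs_mul] at h3
    have h4 := mul_le_mul ha (h1 j) (abs_nonneg _) zero_le_one
    have h5 := mul_le_mul hb (h2 j) (abs_nonneg _) zero_le_one
    linarith
  refine (norm_prod_le_iff).2 ⟨?_, ?_⟩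
  · refine (pi_norm_le_iff_of_nonneg (by positivity)).2 fun j => ?_
    exact key _ _ (Real.abs_cos_le_one _) (Real.abs_sin_le_one _) j
  · refine (pi_norm_le_iff_of_nonneg (by positivity)).2 fun j => ?_
    exact key _ _ (by rw [abs_neg]; exact Real.abs_sin_le_one _) (Real.abs_cos_le_one _) j

theorem act_ne {z : E n} (hz : z ≠ 0) : act z ≠ 0 := by
  intro h
  apply hz
  have h1 : ∀ j, z.1 j ^ 2 + z.2 j ^ 2 = 0 := fun j => congrFun h j
  refine Prod.ext ?_ ?_
  · funext j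
    have := h1 j
    have h2 : z.1 j ^ 2 = 0 := by nlinarith [sq_nonneg (z.1 j), sq_nonneg (z.2 j)]
    exact pow_eq_zero_iff two_ne_zero |>.1 h2
  · funext j
    have := h1 j
    have h2 : z.2 j ^ 2 = 0 := by nlinarith [sq_nonneg (z.1 j), sq_nonneg (z.2 j)]
    exact pow_eq_zero_iff two_ne_zero |>.1 h2

theorem act_cont : Continuous (act : E n → Fin n → ℝ) := by
  unfold act
  fun_prop

theorem cont (θ : E n → Fin n → ℝ) (h : ∀ z, z ≠ 0 → ContinuousAt θ z) :
    Continuous fun z => rotv (θ z) z := by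
  rw [continuous_iff_continuousAt]
  intro z
  by_cases hz : z = 0
  · subst hz
    have h0 : rotv (θ 0) (0 : E n) = 0 := by
      have := rotv_norm (θ 0) (0 : E n)
      rw [norm_zero, mul_zero] at this
      exact norm_le_zero_iff.1 this
    show Tendsto (fun z : E n => rotv (θ z) z) (𝓝 0) (𝓝 (rotv (θ 0) 0))
    rw [h0]
    refine squeeze_zero_norm (fun z => rotv_norm (θ z) z) ?_
    have : Tendsto (fun z : E n => 2 * ‖z‖) (𝓝 0) (𝓝 (2 * ‖(0 : E n)‖)) :=
      Continuous.tendsto (by fun_prop) 0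
    rwa [norm_zero, mul_zero] at this
  · have h1 : ∀ j, ContinuousAt (fun z => θ z j) z := fun j =>
      (continuous_apply j).continuousAt.comp (h z hz)
    have hc : ∀ j, ContinuousAt (fun z => Real.cos (θ z j)) z := fun j =>
      Real.continuous_cos.continuousAt.comp (h1 j)
    have hs : ∀ j, ContinuousAt (fun z => Real.sin (θ z j)) z := fun j =>
      Real.continuous_sin.continuousAt.comp (h1 j)
    have h3 : ∀ j, ContinuousAt (fun z : E n => z.1 j) z := fun j =>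
      Continuous.continuousAt (by fun_prop)
    have h4 : ∀ j, ContinuousAt (fun z : E n => z.2 j) z := fun j =>
      Continuous.continuousAt (by fun_prop)
    unfold rotv
    refine ContinuousAt.prodMk (continuousAt_pi.2 fun j => ?_) (continuousAt_pi.2 fun j => ?_)
    · exact ((hc j).mul (h3 j)).add ((hs j).mul (h4 j))
    · exact ((hs j).neg.mul (h3 j)).add ((hc j).mul (h4 j))

theorem ang_cont {G : (Fin n → ℝ) → ℝ} (hG : ContDiffOn ℝ ((⊤ : ℕ∞) : WithTop ℕ∞) G {0}ᶜ)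
    {a : Fin n → ℝ} (ha : a ≠ 0) : ContinuousAt (ang G) a := by
  have h1 : ContDiffAt ℝ ((⊤ : ℕ∞) : WithTop ℕ∞) G a :=
    hG.contDiffAt (isOpen_compl_singleton.mem_nhds ha)
  have h2 : ContinuousAt (fderiv ℝ G) a :=
    (h1.fderiv_right (m := 0) (by exact_mod_cast le_top)).continuousAt
  unfold ang
  refine continuousAt_pi.2 fun j => ?_
  exact continuousAt_const.mul (h2.clm_apply continuousAt_const)

/-- the twist as a homeomorphism -/
noncomputable def T {G : (Fin n → ℝ) → ℝ} (hG : ContDiffOn ℝ ((⊤ : ℕ∞) : WithTop ℕ∞) G {0}ᶜ) :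
    E n ≃ₜ E n where
  toFun := tw G
  invFun z := rotv (-ang G (act z)) z
  left_inv z := by
    show rotv (-ang G (act (rotv (ang G (act z)) z))) (rotv (ang G (act z)) z) = z
    rw [act_rotv, rotv_rotv, neg_add_cancel, rotv_zero]
  right_inv z := by
    show rotv (ang G (act (rotv (-ang G (act z)) z))) (rotv (-ang G (act z)) z) = z
    rw [act_rotv, rotv_rotv, add_neg_cancel, rotv_zero]
  continuous_toFun := by
    unfold tw
    exact cont _ fun z hz => (ang_cont hG (act_ne hz)).comp act_cont.continuousAt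
  continuous_invFun :=
    cont _ fun z hz => ((ang_cont hG (act_ne hz)).comp act_cont.continuousAt).neg

theorem ang_congr {F G : (Fin n → ℝ) → ℝ} {a : Fin n → ℝ} (h : F =ᶠ[𝓝 a] G) :
    ang F a = ang G a := by
  unfold ang
  rw [h.fderiv_eq]

theorem sum_act (z : E n) : ∑ j, act z j = Q z := rfl

theorem supp {G : (Fin n → ℝ) → ℝ} {r : ℝ} (hr : 0 < r)
    (h : ∀ a : Fin n → ℝ, r ^ 2 ≤ ∑ j, a j → G a = 0) {z : E n} (hz : z ∉ D (0 : E n) r) :
    tw G z = z := by
  have h1 : r < nm (z - 0) := not_le.1 hz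
  rw [sub_zero] at h1
  have h2 : r ^ 2 < Q z := by
    unfold nm at h1
    exact (Real.lt_sqrt hr.le).1 h1
  have h3 : G =ᶠ[𝓝 (act z)] fun _ => 0 := by
    have h4 : IsOpen {a : Fin n → ℝ | r ^ 2 < ∑ j, a j} :=
      isOpen_lt continuous_const (by fun_prop)
    filter_upwards [h4.mem_nhds (show r ^ 2 < ∑ j, act z j from h2)] with a ha
    exact h a (le_of_lt ha)
  unfold tw
  have h5 : ang G (act z) = 0 := by
    rw [ang_congr h3]
    funext j
    unfold ang
    rw [fderiv_fun_const]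
    simp
  rw [h5, rotv_zero]

/-- cutting off near the origin -/
theorem cut {G : (Fin n → ℝ) → ℝ} (hG : ContDiffOn ℝ ((⊤ : ℕ∞) : WithTop ℕ∞) G {0}ᶜ) {δ : ℝ}
    (hδ : 0 < δ) : ∃ F : (Fin n → ℝ) → ℝ, ContDiff ℝ ((⊤ : ℕ∞) : WithTop ℕ∞) F ∧
      (∀ a, G a = 0 → F a = 0) ∧ ∀ a, δ < ‖a‖ → F =ᶠ[𝓝 a] G := by
  let f : ContDiffBump (0 : Fin n → ℝ) := ⟨δ / 2, δ, half_pos hδ, half_lt_self hδ⟩
  have hf : ContDiff ℝ ((⊤ : ℕ∞) : WithTop ℕ∞) f := f.contDiff
  refine ⟨fun a => (1 - f a) * G a, ?_, fun a ha => ?_, fun a ha => ?_⟩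
  · rw [contDiff_iff_contDiffAt]
    intro a
    by_cases h0 : a = 0
    · have h1 : (fun a => (1 - f a) * G a) =ᶠ[𝓝 a] fun _ => 0 := by
        rw [h0]
        filter_upwards [Metric.closedBall_mem_nhds (0 : Fin n → ℝ) (half_pos hδ)] with b hb
        have h2 : f b = 1 := f.one_of_mem_closedBall hb
        rw [h2, sub_self, zero_mul]
      exact contDiffAt_const.congr_of_eventuallyEq h1
    · exact (contDiffAt_const.sub hf.contDiffAt).mul
        (hG.contDiffAt (isOpen_compl_singleton.mem_nhds h0))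
  · simp only [ha, mul_zero]
  · have h1 : IsOpen {a : Fin n → ℝ | δ < ‖a‖} := isOpen_lt continuous_const continuous_norm
    filter_upwards [h1.mem_nhds ha] with b hb
    have h2 : f b = 0 := f.zero_of_le_dist (by
      rw [dist_zero_right]
      exact le_of_lt hb)
    rw [h2, sub_zero, one_mul]

theorem norm_le_of_act {z : E n} {s : ℝ} (hs : 0 ≤ s) (h : ‖act z‖ ≤ s ^ 2) : ‖z‖ ≤ s := by
  have h1 : ∀ j, z.1 j ^ 2 + z.2 j ^ 2 ≤ s ^ 2 := fun j => by
    have h2 := (le_abs_self _).trans ((norm_le_pi_norm (act z) j).trans h)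
    exact h2
  refine (norm_prod_le_iff).2 ⟨?_, ?_⟩
  · refine (pi_norm_le_iff_of_nonneg hs).2 fun j => ?_
    exact abs_le_of_sq_le_sq (by nlinarith [h1 j, sq_nonneg (z.2 j)]) hs
  · refine (pi_norm_le_iff_of_nonneg hs).2 fun j => ?_
    exact abs_le_of_sq_le_sq (by nlinarith [h1 j, sq_nonneg (z.1 j)]) hs

end Tw2

open Tw2 in
/-- infinite twists -/
theorem tw2 (h : S_TW1) : S_TW2 := by
  intro n G hG r hr hr1 hsupp
  have hF : ∀ k : ℕ, ∃ F : (Fin n → ℝ) → ℝ, ContDiff ℝ ((⊤ : ℕ∞) : WithTop ℕ∞) F ∧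
      (∀ a, G a = 0 → F a = 0) ∧ ∀ a, (1 / ((k : ℝ) + 1)) ^ 2 < ‖a‖ → F =ᶠ[𝓝 a] G :=
    fun k => cut hG (by positivity)
  choose F hF1 hF2 hF3 using hF
  have hu : ∀ k : ℕ, ∃ u : E n ≃ₜ E n, IsHam u ∧ Supp (D 0 r) u ∧ ∀ z, u z = tw (F k) z :=
    fun k => h n (F k) (hF1 k) r hr hr1 fun a ha => hF2 k a (hsupp a ha)
  choose u hu1 hu2 hu3 using hu
  have hS : Supp (D 0 r) (T hG) := fun z hz => supp hr hsupp hz
  have hD : D (0 : E n) r = {x : E n | Q x ≤ r ^ 2} := by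
    ext z
    show nm (z - 0) ≤ r ↔ Q z ≤ r ^ 2
    rw [sub_zero]
    unfold nm
    exact Real.sqrt_le_left hr.le
  refine ⟨T hG, Subgroup.subset_closure ⟨D 0 r, ?_, ?_, hS, u, hu2, hu1, ?_⟩, hS, fun z => rfl⟩
  · rw [hD]
    exact Q_compact _
  · rw [hD]
    intro z hz
    have h1 : Q z ≤ r ^ 2 := hz
    have h2 : r ^ 2 < 1 := by nlinarith
    exact h1.trans_lt h2
  · rw [Metric.tendstoUniformly_iff]
    intro ε hε
    obtain ⟨N, hN⟩ := exists_nat_one_div_lt (show 0 < ε / 4 by linarith)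
    filter_upwards [eventually_ge_atTop N] with k hk z
    have hk' : 1 / ((k : ℝ) + 1) < ε / 4 := by
      refine lt_of_le_of_lt (one_div_le_one_div_of_le (by positivity) ?_) hN
      have : (N : ℝ) ≤ k := by exact_mod_cast hk
      linarith
    have hs0 : 0 ≤ 1 / ((k : ℝ) + 1) := by positivity
    rw [dist_eq_norm, hu3 k z]
    show ‖tw G z - tw (F k) z‖ < ε
    by_cases hz : (1 / ((k : ℝ) + 1)) ^ 2 < ‖act z‖
    · unfold tw
      rw [ang_congr (hF3 k _ hz), sub_self, norm_zero]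
      exact hε
    · have h1 := norm_le_of_act hs0 (not_lt.1 hz)
      have h2 := norm_sub_le (tw G z) (tw (F k) z)
      have h3 : ‖tw G z‖ ≤ 2 * ‖z‖ := rotv_norm _ _
      have h4 : ‖tw (F k) z‖ ≤ 2 * ‖z‖ := rotv_norm _ _
      linarith

end Pool.Agent.R773.HN
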