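import Pool.Agent.R773.HN.Fin
import Pool.Agent.R773.HN.Defs2
import Pool.Agent.R773.HN.Tw2
import Pool.Agent.R773.HN.Tw1
import Pool.Agent.R773.HN.Qr

/-!
# Project HN, second part: twists modulo the smallest normal subgroup
-/

set_option autoImplicit false

open Set Filter Topology Function
open Pool.Agent.Y453.HB
open scoped commutatorElement

namespace Pool.Agent.R773.HN

variable {n : ℕ}

theorem act_rotv (θ : Fin n → ℝ) (z : E n) : act (rotv θ z) = act z := by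
  funext j
  simp only [act, rotv]
  have := Real.sin_sq_add_cos_sq (θ j)
  linear_combination (z.1 j ^ 2 + z.2 j ^ 2) * this

theorem rotv_add (θ θ' : Fin n → ℝ) (z : E n) : rotv θ (rotv θ' z) = rotv (θ + θ') z := by
  refine Prod.ext (funext fun j => ?_) (funext fun j => ?_) <;>
    simp only [rotv, Pi.add_apply, Real.cos_add, Real.sin_add] <;> ring

theorem rotv_zero (θ : Fin n → ℝ) : rotv θ (0 : E n) = 0 := by
  refine Prod.ext (funext fun j => ?_) (funext fun j => ?_) <;> simp [rotv]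

theorem zero_rotv (z : E n) : rotv (0 : Fin n → ℝ) z = z := by
  refine Prod.ext (funext fun j => ?_) (funext fun j => ?_) <;> simp [rotv]

theorem act_ne {z : E n} (h : z ≠ 0) : act z ≠ 0 := by
  intro h0
  apply h
  have h1 : ∀ j, z.1 j = 0 ∧ z.2 j = 0 := fun j => by
    have h2 : z.1 j ^ 2 + z.2 j ^ 2 = 0 := congrFun h0 j
    constructor <;> nlinarith [sq_nonneg (z.1 j), sq_nonneg (z.2 j)]
  exact Prod.ext (funext fun j => (h1 j).1) (funext fun j => (h1 j).2)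

theorem Q_act (z : E n) : Q z = ∑ j, act z j := by
  unfold Q act
  rfl

theorem tw_zero_pt (G : (Fin n → ℝ) → ℝ) : tw G (0 : E n) = 0 := rotv_zero _

theorem act_tw (G : (Fin n → ℝ) → ℝ) (z : E n) : act (tw G z) = act z := act_rotv _ _

theorem tw_add {G G' : (Fin n → ℝ) → ℝ} (h : DifferentiableOn ℝ G {0}ᶜ)
    (h' : DifferentiableOn ℝ G' {0}ᶜ) (z : E n) : tw G (tw G' z) = tw (G + G') z := by
  by_cases hz : z = 0
  · subst hz
    rw [tw_zero_pt, tw_zero_pt, tw_zero_pt]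
  · have h1 : ({0}ᶜ : Set (Fin n → ℝ)) ∈ 𝓝 (act z) :=
      isOpen_compl_singleton.mem_nhds (act_ne hz)
    have e : ang (G + G') (act z) = ang G (act z) + ang G' (act z) := by
      funext j
      simp only [ang, Pi.add_apply]
      rw [fderiv_add (h.differentiableAt h1) (h'.differentiableAt h1)]
      simp [mul_add]
    unfold tw
    rw [act_rotv, rotv_add, e]

theorem tw_zero (z : E n) : tw (0 : (Fin n → ℝ) → ℝ) z = z := by
  have : ang (0 : (Fin n → ℝ) → ℝ) (act z) = 0 := by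
    funext j
    simp [ang]
  unfold tw
  rw [this, zero_rotv]

/-- the action of the permutations on the profiles -/
def Lp (σ : Equiv.Perm (Fin n)) (G : (Fin n → ℝ) → ℝ) : (Fin n → ℝ) → ℝ := fun a => G (a ∘ σ)

theorem Lp_mul (σ τ : Equiv.Perm (Fin n)) (G : (Fin n → ℝ) → ℝ) :
    Lp (σ * τ) G = Lp σ (Lp τ G) := rfl

theorem ang_Lp (σ : Equiv.Perm (Fin n)) (G : (Fin n → ℝ) → ℝ) (a : Fin n → ℝ) (j : Fin n) :
    ang (Lp σ G) a j = ang G (a ∘ σ) (σ.symm j) := by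
  set L : (Fin n → ℝ) ≃L[ℝ] (Fin n → ℝ) :=
    (LinearEquiv.funCongrLeft ℝ ℝ σ).toContinuousLinearEquiv with hL
  have hLa : ∀ b : Fin n → ℝ, L b = b ∘ σ := fun b => rfl
  have e : Lp σ G = G ∘ L := rfl
  unfold ang
  rw [e, ContinuousLinearEquiv.comp_right_fderiv]
  show 2 * fderiv ℝ G (L a) (L (Pi.single j 1)) = _
  rw [hLa, hLa]
  congr 2
  funext k
  show (Pi.single j 1 : Fin n → ℝ) (σ k) = (Pi.single (σ.symm j) 1 : Fin n → ℝ) k
  by_cases hk : σ k = j
  · have : k = σ.symm j := by rw [← hk]; simp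
    rw [hk, this]
    simp
  · have : k ≠ σ.symm j := by
      rintro rfl
      exact hk (by simp)
    rw [Pi.single_eq_of_ne hk, Pi.single_eq_of_ne this]

theorem act_qrot {i j : Fin n} (hij : i ≠ j) (z : E n) :
    act (qrot i j z) = act z ∘ (Equiv.swap i j) := by
  funext k
  simp only [act, qrot, Function.comp]
  rcases eq_or_ne k i with h | h
  · subst h
    simp
  · rcases eq_or_ne k j with h' | h'
    · subst h'
      simp [h]
    · simp [h, h', Equiv.swap_apply_of_ne_of_ne h h']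

theorem qrot_rotv {i j : Fin n} (hij : i ≠ j) (θ : Fin n → ℝ) (z : E n) :
    qrot i j (rotv θ z) = rotv (θ ∘ (Equiv.swap i j)) (qrot i j z) := by
  refine Prod.ext (funext fun k => ?_) (funext fun k => ?_)
  · simp only [rotv, qrot, Function.comp]
    rcases eq_or_ne k i with h | h
    · subst h
      simp
      ring
    · rcases eq_or_ne k j with h' | h'
      · subst h'
        simp [h]
      · simp [h, h', Equiv.swap_apply_of_ne_of_ne h h']
  · simp only [rotv, qrot, Function.comp]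
    rcases eq_or_ne k i with h | h
    · subst h
      simp
      ring
    · rcases eq_or_ne k j with h' | h'
      · subst h'
        simp [h]
      · simp [h, h', Equiv.swap_apply_of_ne_of_ne h h']

theorem qrot_tw {i j : Fin n} (hij : i ≠ j) (G : (Fin n → ℝ) → ℝ) (z : E n) :
    qrot i j (tw G z) = tw (Lp (Equiv.swap i j) G) (qrot i j z) := by
  unfold tw
  rw [qrot_rotv hij, act_qrot hij]
  congr 1
  funext k
  rw [ang_Lp]
  simp only [Function.comp, Equiv.symm_swap]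
  congr 1
  funext l
  simp

theorem qrot_qrot {i j : Fin n} (hij : i ≠ j) (z : E n) : qrot i j (qrot j i z) = z := by
  refine Prod.ext (funext fun k => ?_) (funext fun k => ?_)
  · simp only [qrot]
    rcases eq_or_ne k i with h | h
    · subst h
      simp
    · rcases eq_or_ne k j with h' | h'
      · subst h'
        simp [h, Ne.symm h]
      · simp [h, h']
  · simp only [qrot]
    rcases eq_or_ne k i with h | h
    · subst h
      simp
    · rcases eq_or_ne k j with h' | h'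
      · subst h'
        simp [h, Ne.symm h]
      · simp [h, h']

theorem nm_qrot {i j : Fin n} (hij : i ≠ j) (z : E n) : nm (qrot i j z) = nm z := by
  unfold nm
  congr 1
  rw [Q_act, Q_act, act_qrot hij]
  exact Equiv.sum_comp (Equiv.swap i j) (act z)

theorem conj_tw {i j : Fin n} (hij : i ≠ j) {G : (Fin n → ℝ) → ℝ} {r : ℝ}
    {u v κ : E n ≃ₜ E n} (hu : Supp (D 0 r) u) (hut : ∀ z, u z = tw G z)
    (hv : Supp (D 0 r) v) (hvt : ∀ z, v z = tw (Lp (Equiv.swap i j) G) z)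
    (hκ : ∀ z ∈ D (0 : E n) r, κ z = qrot i j z) : κ * u * κ⁻¹ = v := by
  ext1 z
  obtain ⟨y, rfl⟩ := κ.surjective z
  show κ (u (κ⁻¹ (κ y))) = v (κ y)
  rw [inv_apply_self]
  by_cases hy : y ∈ D (0 : E n) r
  · rw [hκ _ (hu.maps hy), hut, hvt, qrot_tw hij, hκ _ hy]
  · rw [hu _ hy, hv]
    intro h
    apply hy
    have h1 : qrot j i (κ y) ∈ D (0 : E n) r := by
      show nm (qrot j i (κ y) - 0) ≤ r
      rw [sub_zero, nm_qrot hij.symm]
      have : nm (κ y - 0) ≤ r := h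
      rwa [sub_zero] at this
    have h2 : κ (qrot j i (κ y)) = κ y := by
      rw [hκ _ h1, qrot_qrot hij]
    rwa [κ.injective h2] at h1

theorem Prof.diff {r : ℝ} {G : (Fin n → ℝ) → ℝ} (h : G ∈ Prof n r) :
    DifferentiableOn ℝ G {0}ᶜ := h.1.differentiableOn (by simp)

theorem Prof.perm {r : ℝ} {G : (Fin n → ℝ) → ℝ} (h : G ∈ Prof n r) (σ : Equiv.Perm (Fin n)) :
    Lp σ G ∈ Prof n r := by
  refine ⟨?_, fun a ha => h.2 _ ?_⟩
  · refine h.1.comp (g := G) (f := fun a : Fin n → ℝ => a ∘ σ) (t := {0}ᶜ) ?_ ?_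
    · refine ContDiff.contDiffOn ?_
      rw [contDiff_pi]
      exact fun j => contDiff_apply ℝ ℝ (σ j)
    · intro a ha h0
      apply ha
      funext j
      have := congrFun h0 (σ.symm j)
      simpa using this
  · rwa [show ∑ j, (a ∘ σ) j = ∑ j, a j from Equiv.sum_comp σ a]

/-- the profiles whose twists lie in `M` -/
def Ker (M : Subgroup (E n ≃ₜ E n)) : AddSubgroup ((Fin n → ℝ) → ℝ) where
  carrier := {G | DifferentiableOn ℝ G {0}ᶜ ∧ ∃ u ∈ M, ∀ z, u z = tw G z}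
  zero_mem' := ⟨differentiableOn_const 0, 1, M.one_mem, fun z => (tw_zero z).symm⟩
  add_mem' := by
    rintro G G' ⟨h, u, hu, hut⟩ ⟨h', u', hu', hut'⟩
    refine ⟨h.add h', u * u', M.mul_mem hu hu', fun z => ?_⟩
    show u (u' z) = _
    rw [hut, hut', tw_add h h']
  neg_mem' := by
    rintro G ⟨h, u, hu, hut⟩
    refine ⟨h.neg, u⁻¹, M.inv_mem hu, fun z => ?_⟩
    apply u.injective
    rw [apply_inv_self, hut, tw_add h h.neg, add_neg_cancel, tw_zero]

theorem mid_HamBar : Mid (HamBar n) :=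
  ⟨fun _ hu => Subgroup.subset_closure (ham_mem hu), le_rfl⟩

theorem swap_mem (hW : S_TW2) (hQ : S_QR) (hn : 0 < n) {r : ℝ} (hr : 0 < r) (hr2 : r < 1 / 2)
    {G : (Fin n → ℝ) → ℝ} (hG : G ∈ Prof n r) {i j : Fin n} (hij : i ≠ j) :
    G - Lp (Equiv.swap i j) G ∈ Ker (Mono (HamBar n)) := by
  have hG' := Prof.perm hG (Equiv.swap i j)
  obtain ⟨u, hu, hus, hut⟩ := hW n G hG.1 r hr (by linarith) hG.2
  obtain ⟨v, hv, hvs, hvt⟩ := hW n _ hG'.1 r hr (by linarith) hG'.2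
  obtain ⟨r', h1, h2⟩ := exists_between hr2
  obtain ⟨κ, hκ, hκs, hκx⟩ := hQ n i j hij r r' hr h1 (by linarith)
  have e := conj_tw hij hus hut hvs hvt hκx
  have hsub : D (0 : E n) r ⊆ D 0 r' := fun x hx => le_trans (show nm (x - 0) ≤ r from hx) h1.le
  have key : ⁅u, κ⁆ ∈ Mono (HamBar n) :=
    comm_ball hT hR hn mid_HamBar (z := 0) (hr.trans h1) h2 (by rw [nm_zero]; linarith) hu
      (mid_HamBar.ham κ hκ) (hus.mono hsub) hκs
  have e2 : ⁅u, κ⁆ = u * v⁻¹ := by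
    rw [commutatorElement_def, ← e]
    group
  have e3 : ∀ z, v⁻¹ z = tw (-Lp (Equiv.swap i j) G) z := fun z => by
    apply v.injective
    rw [apply_inv_self, hvt, tw_add (Prof.diff hG') (Prof.diff hG').neg, add_neg_cancel, tw_zero]
  refine ⟨(Prof.diff hG).sub (Prof.diff hG'), u * v⁻¹, e2 ▸ key, fun z => ?_⟩
  show u (v⁻¹ z) = _
  rw [e3, hut, tw_add (Prof.diff hG) (Prof.diff hG').neg, sub_eq_add_neg]

theorem perm_mem (hW : S_TW2) (hQ : S_QR) (hn : 0 < n) {r : ℝ} (hr : 0 < r) (hr2 : r < 1 / 2)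
    (σ : Equiv.Perm (Fin n)) : ∀ G ∈ Prof n r, G - Lp σ G ∈ Ker (Mono (HamBar n)) := by
  refine Equiv.Perm.swap_induction_on σ ?_ ?_
  · intro G _
    have : Lp (1 : Equiv.Perm (Fin n)) G = G := rfl
    rw [this, sub_self]
    exact (Ker _).zero_mem
  · intro f x y hxy hf G hG
    rw [Lp_mul]
    have h1 := (Ker (Mono (HamBar n))).add_mem (hf G hG)
      (swap_mem hW hQ hn hr hr2 (Prof.perm hG f) hxy)
    rwa [sub_add_sub_cancel] at h1

theorem Prof.smul {r : ℝ} {G : (Fin n → ℝ) → ℝ} (h : G ∈ Prof n r) (c : ℝ) :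
    c • G ∈ Prof n r := by
  refine ⟨h.1.const_smul c, fun a ha => ?_⟩
  show c • G a = 0
  rw [h.2 a ha, smul_zero]

theorem Prof.sum {r : ℝ} {ι : Type*} (s : Finset ι) {G : ι → (Fin n → ℝ) → ℝ}
    (h : ∀ i ∈ s, G i ∈ Prof n r) : ∑ i ∈ s, G i ∈ Prof n r := by
  refine ⟨?_, fun a ha => ?_⟩
  · have h1 := ContDiffOn.sum (fun i hi => (h i hi).1)
    refine h1.congr fun a _ => ?_
    rw [Finset.sum_apply]
  · rw [Finset.sum_apply]
    exact Finset.sum_eq_zero fun i hi => (h i hi).2 a ha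

theorem avg_eq (G : (Fin n → ℝ) → ℝ) :
    avg G = ∑ σ : Equiv.Perm (Fin n), Lp σ ((n.factorial : ℝ)⁻¹ • G) := by
  funext a
  rw [Finset.sum_apply, avg, Finset.mul_sum]
  rfl

theorem avg_mem {r : ℝ} {G : (Fin n → ℝ) → ℝ} (h : G ∈ Prof n r) : avg G ∈ Prof n r := by
  rw [avg_eq]
  exact Prof.sum _ fun σ _ => Prof.perm (Prof.smul h _) σ

theorem sub_avg (hW : S_TW2) (hQ : S_QR) (hn : 0 < n) {r : ℝ} (hr : 0 < r) (hr2 : r < 1 / 2)
    {G : (Fin n → ℝ) → ℝ} (h : G ∈ Prof n r) : G - avg G ∈ Ker (Mono (HamBar n)) := by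
  have h1 : G - avg G = ∑ σ : Equiv.Perm (Fin n),
      ((n.factorial : ℝ)⁻¹ • G - Lp σ ((n.factorial : ℝ)⁻¹ • G)) := by
    rw [Finset.sum_sub_distrib, avg_eq, Finset.sum_const, Finset.card_univ, Fintype.card_perm,
      Fintype.card_fin]
    congr 1
    funext a
    show G a = n.factorial • ((n.factorial : ℝ)⁻¹ * G a)
    rw [nsmul_eq_mul, ← mul_assoc, mul_inv_cancel₀ (by positivity), one_mul]
  rw [h1]
  exact (Ker _).sum_mem fun σ _ => perm_mem hW hQ hn hr hr2 σ _ (Prof.smul h _)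

theorem hW : S_TW2 := tw2 tw1

theorem hQ : S_QR := qr flow

/-- an explicit family of profiles with average zero -/
theorem ex_prof {r : ℝ} {i j : Fin n} {h : ℝ → ℝ}
    (hh : ContDiffOn ℝ ((⊤ : ℕ∞) : WithTop ℕ∞) h (Ioi 0)) (h0 : ∀ s, r ^ 4 / n ≤ s → h s = 0) :
    (fun a : Fin n → ℝ => h (∑ k, a k ^ 2) * (a i - a j)) ∈ Prof n r := by
  refine ⟨?_, fun a ha => ?_⟩
  · have h1 : ContDiff ℝ ((⊤ : ℕ∞) : WithTop ℕ∞) (fun a : Fin n → ℝ => ∑ k, a k ^ 2) :=
      ContDiff.sum fun k _ => (contDiff_apply ℝ ℝ k).pow 2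
    have h2 : ContDiff ℝ ((⊤ : ℕ∞) : WithTop ℕ∞) (fun a : Fin n → ℝ => a i - a j) :=
      (contDiff_apply ℝ ℝ i).sub (contDiff_apply ℝ ℝ j)
    refine ContDiffOn.mul (hh.comp h1.contDiffOn fun a ha => ?_) h2.contDiffOn
    show 0 < ∑ k, a k ^ 2
    obtain ⟨k, hk⟩ : ∃ k, a k ≠ 0 := by
      by_contra hc
      exact ha (funext fun k => by_contra fun hk => hc ⟨k, hk⟩)
    exact Finset.sum_pos' (fun k _ => sq_nonneg _) ⟨k, Finset.mem_univ _, by positivity⟩
  · have hn : 0 < n := Fin.pos i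
    have h1 := sq_sum_le_card_mul_sum_sq (s := (Finset.univ : Finset (Fin n))) (f := a)
    rw [Finset.card_univ, Fintype.card_fin] at h1
    have h2 : (r ^ 2) ^ 2 ≤ (∑ j, a j) ^ 2 := pow_le_pow_left₀ (sq_nonneg r) ha 2
    have h3 : r ^ 4 / n ≤ ∑ k, a k ^ 2 := by
      rw [div_le_iff₀ (by exact_mod_cast hn)]
      nlinarith
    show h _ * _ = 0
    rw [h0 _ h3, zero_mul]

theorem ex_avg {i j : Fin n} (h : ℝ → ℝ) :
    avg (fun a : Fin n → ℝ => h (∑ k, a k ^ 2) * (a i - a j)) = 0 := by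
  funext a
  have h1 : ∀ σ : Equiv.Perm (Fin n), ∑ k, a (σ k) ^ 2 = ∑ k, a k ^ 2 := fun σ =>
    Equiv.sum_comp σ fun k => a k ^ 2
  have h2 : ∑ σ : Equiv.Perm (Fin n), a (σ i) = ∑ σ : Equiv.Perm (Fin n), a (σ j) := by
    rw [← Equiv.sum_comp (Equiv.mulRight (Equiv.swap i j))]
    refine Finset.sum_congr rfl fun σ _ => ?_
    simp
  simp only [avg, Function.comp, h1]
  rw [← Finset.mul_sum, Finset.sum_sub_distrib, h2, sub_self, mul_zero, mul_zero]
  rfl

theorem conv {N : Subgroup (HamHomeo n)} (hN : N.Normal) (hne : N ≠ ⊥) :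
    NormIn (HamBar n) (N.map (HamHomeo n).subtype) ∧ N.map (HamHomeo n).subtype ≠ ⊥ := by
  refine ⟨⟨?_, ?_⟩, ?_⟩
  · rintro _ ⟨x, -, rfl⟩
    exact x.2
  · rintro g hg _ ⟨x, hx, rfl⟩
    exact ⟨⟨g, hg⟩ * x * ⟨g, hg⟩⁻¹, hN.conj_mem x hx ⟨g, hg⟩, rfl⟩
  · intro h
    apply hne
    rw [eq_bot_iff]
    intro x hx
    have h3 : x.1 ∈ N.map (HamHomeo n).subtype := ⟨x, hx, rfl⟩
    rw [h, Subgroup.mem_bot] at h3
    rw [Subgroup.mem_bot]
    exact Subtype.ext h3

theorem mono_sub {N : Subgroup (HamHomeo n)} (hN : N.Normal) (hne : N ≠ ⊥) {x : HamHomeo n}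
    (hx : (x.1 : E n ≃ₜ E n) ∈ Mono (HamBar n)) : x ∈ N := by
  obtain ⟨h3, h4⟩ := conv hN hne
  obtain ⟨y, hy, hyx⟩ := Mono_le h3 h4 hx
  have h5 : y = x := Subtype.ext hyx
  rwa [← h5]

theorem exists_twist {r : ℝ} (hr : 0 < r) (hr1 : r < 1) {G : (Fin n → ℝ) → ℝ}
    (hG : G ∈ Prof n r) : ∃ T : HamHomeo n, IsTwist G T := by
  obtain ⟨u, hu, -, hut⟩ := hW n G hG.1 r hr hr1 hG.2
  exact ⟨⟨u, hu⟩, hut⟩

theorem twist_main (hn : 0 < n) {r : ℝ} (hr : 0 < r) (hr2 : r < 1 / 2)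
    {G : (Fin n → ℝ) → ℝ} (hG : G ∈ Prof n r) :
    ∃ T T' : HamHomeo n, IsTwist G T ∧ IsTwist (avg G) T' ∧
      ∀ N : Subgroup (HamHomeo n), N.Normal → N ≠ ⊥ → T * T'⁻¹ ∈ N := by
  have hG' := avg_mem hG
  obtain ⟨T, hT'⟩ := exists_twist hr (by linarith) hG
  obtain ⟨T', hT''⟩ := exists_twist hr (by linarith) hG'
  refine ⟨T, T', hT', hT'', fun N hN hne => mono_sub hN hne ?_⟩
  obtain ⟨-, w, hw, hwt⟩ := sub_avg hW hQ hn hr hr2 hG
  have e : w * T'.1.homeo = T.1.homeo := by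
    apply Homeomorph.ext
    intro z
    show w (T'.1.map z) = T.1.map z
    rw [hwt, hT'' z, hT' z, tw_add ((Prof.diff hG).sub (Prof.diff hG')) (Prof.diff hG'),
      sub_add_cancel]
  have e' : w = T.1.homeo * T'.1.homeo⁻¹ := eq_mul_inv_of_mul_eq e
  rw [e'] at hw
  exact hw

theorem twist_zero (hn : 0 < n) {r : ℝ} (hr : 0 < r) (hr2 : r < 1 / 2)
    {G : (Fin n → ℝ) → ℝ} (hG : G ∈ Prof n r) (h0 : avg G = 0) :
    ∃ T : HamHomeo n, IsTwist G T ∧ ∀ N : Subgroup (HamHomeo n), N.Normal → N ≠ ⊥ → T ∈ N := by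
  obtain ⟨T, T', h1, h2, h3⟩ := twist_main hn hr hr2 hG
  have e : T' = 1 := by
    apply Subtype.ext
    apply Homeomorph.ext
    intro z
    show T'.1.map z = z
    rw [h2 z, h0, tw_zero]
  refine ⟨T, h1, fun N hN hne => ?_⟩
  have := h3 N hN hne
  rwa [e, inv_one, mul_one] at this

end Pool.Agent.R773.HN
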