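import Pool.Agent.R773.HN.Main

/-!
# Project HN, third part: exact fragmentation in `Ham_c(B)`. Definitions and statements.
-/

set_option autoImplicit false

open Set Filter Topology Function
open Pool.Agent.Y453.HB
open scoped commutatorElement

namespace Pool.Agent.R773.HN

/-- `u` maps `x` to the value at time `t` of the solution starting at `x` at time `s` -/
def IsFl {n : ℕ} (H : ℝ → E n → ℝ) (s t : ℝ) (u : E n ≃ₜ E n) : Prop :=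
  ∀ x, ∃ γ : ℝ → E n, γ s = x ∧ γ t = u x ∧ ∀ τ ∈ Icc s t, HasDerivAt γ (XH (H τ) (γ τ)) τ

/-- Hamiltonian diffeomorphisms supported in balls of radius at most `ε` inside `B` -/
def small (n : ℕ) (ε : ℝ) : Set (E n ≃ₜ E n) :=
  {v | IsHam v ∧ ∃ (q : E n) (ρ : ℝ), 0 < ρ ∧ ρ ≤ ε ∧ nm q + ρ < 1 ∧ Supp (D q ρ) v}

/-- smooth time dependent Hamiltonian, zero off the compact subset `K` of `B` -/
def HamOn {n : ℕ} (H : ℝ → E n → ℝ) (K : Set (E n)) : Prop :=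
  ContDiff ℝ ((⊤ : ℕ∞) : WithTop ℕ∞) (Function.uncurry H) ∧ IsCompact K ∧
    K ⊆ {p : E n | Q p < 1} ∧ ∀ t x, x ∉ K → H t x = 0

/-- HN3-TFLOW: flows of time dependent Hamiltonians -/
def S_TFLOW : Prop := ∀ (n : ℕ) (H : ℝ → E n → ℝ) (K : Set (E n)), HamOn H K →
  ∀ s t : ℝ, 0 ≤ s → s ≤ t → t ≤ 1 → ∃ u : E n ≃ₜ E n, IsHam u ∧ IsFl H s t u

/-- HN3-UNI: uniqueness -/
def S_UNI : Prop := ∀ (n : ℕ) (H : ℝ → E n → ℝ) (K : Set (E n)), HamOn H K →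
  ∀ s t : ℝ, 0 ≤ s → s ≤ t → t ≤ 1 → ∀ γ γ' : ℝ → E n, γ s = γ' s →
  (∀ τ ∈ Icc s t, HasDerivAt γ (XH (H τ) (γ τ)) τ) →
  (∀ τ ∈ Icc s t, HasDerivAt γ' (XH (H τ) (γ' τ)) τ) → ∀ τ ∈ Icc s t, γ τ = γ' τ

/-- HN3-FRAG1: fragmentation of short time maps -/
def S_FRAG1 : Prop := ∀ (n : ℕ) (H : ℝ → E n → ℝ) (K : Set (E n)), HamOn H K →
  ∀ ε : ℝ, 0 < ε → ε < 1 → ∃ δ > 0, ∀ s t : ℝ, 0 ≤ s → s ≤ t → t ≤ 1 → t - s ≤ δ →
  ∀ u : E n ≃ₜ E n, IsFl H s t u → u ∈ Subgroup.closure (small n ε)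

/-- HN3-FRAG: fragmentation -/
def S_FRAG : Prop := ∀ (n : ℕ) (u : E n ≃ₜ E n), IsHam u → ∀ ε : ℝ, 0 < ε → ε < 1 →
  u ∈ Subgroup.closure (small n ε)

/-- HN3-COMM: commutators of Hamiltonian diffeomorphisms are in the smallest normal subgroup -/
def S_COMM : Prop := ∀ (n : ℕ), 0 < n → ∀ Γ : Subgroup (E n ≃ₜ E n), Mid Γ →
  ∀ f g : E n ≃ₜ E n, IsHam f → IsHam g → ⁅f, g⁆ ∈ Mono Γ

end Pool.Agent.R773.HN
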