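import Pool.Agent.R773.HN.Asm2
import Pool.Agent.R773.HN.Stm3

/-!
# Project HN, third part: consequences of fragmentation
-/

set_option autoImplicit false

open Set Filter Topology Function
open Pool.Agent.Y453.HB
open scoped commutatorElement

namespace Pool.Agent.R773.HN

variable {n : ℕ}

/-! ### twists of radius less than one -/

theorem sub_avg_of {M : Subgroup (E n ≃ₜ E n)} (P : Set ((Fin n → ℝ) → ℝ))
    (hp : ∀ (σ : Equiv.Perm (Fin n)), ∀ G ∈ P, Lp σ G ∈ P) (hs : ∀ c : ℝ, ∀ G ∈ P, c • G ∈ P)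
    (h : ∀ G ∈ P, ∀ i j : Fin n, i ≠ j → G - Lp (Equiv.swap i j) G ∈ Ker M) :
    ∀ G ∈ P, G - avg G ∈ Ker M := by
  have h0 : ∀ (σ : Equiv.Perm (Fin n)), ∀ G ∈ P, G - Lp σ G ∈ Ker M := by
    intro σ
    refine Equiv.Perm.swap_induction_on σ ?_ ?_
    · intro G _
      have : Lp (1 : Equiv.Perm (Fin n)) G = G := rfl
      rw [this, sub_self]
      exact (Ker _).zero_mem
    · intro f x y hxy hf G hG
      rw [Lp_mul]
      have h1 := (Ker M).add_mem (hf G hG) (h _ (hp f G hG) x y hxy)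
      rwa [sub_add_sub_cancel] at h1
  intro G hG
  have h1 : G - avg G = ∑ σ : Equiv.Perm (Fin n),
      ((n.factorial : ℝ)⁻¹ • G - Lp σ ((n.factorial : ℝ)⁻¹ • G)) := by
    rw [Finset.sum_sub_distrib, avg_eq, Finset.sum_const, Finset.card_univ, Fintype.card_perm,
      Fintype.card_fin]
    congr 1
    funext a
    show G a = n.factorial • ((n.factorial : ℝ)⁻¹ * G a)
    rw [nsmul_eq_mul, ← mul_assoc, mul_inv_cancel₀ (by positivity), one_mul]
  rw [h1]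
  exact (Ker _).sum_mem fun σ _ => h0 σ _ (hs _ G hG)

/-- the smooth profiles -/
def PS (n : ℕ) (r : ℝ) : Set ((Fin n → ℝ) → ℝ) :=
  {G | ContDiff ℝ ((⊤ : ℕ∞) : WithTop ℕ∞) G ∧ ∀ a : Fin n → ℝ, r ^ 2 ≤ ∑ j, a j → G a = 0}

theorem PS.prof {r : ℝ} {G : (Fin n → ℝ) → ℝ} (h : G ∈ PS n r) : G ∈ Prof n r :=
  ⟨h.1.contDiffOn, h.2⟩

theorem PS.perm {r : ℝ} {G : (Fin n → ℝ) → ℝ} (h : G ∈ PS n r) (σ : Equiv.Perm (Fin n)) :
    Lp σ G ∈ PS n r := by
  refine ⟨?_, (Prof.perm (PS.prof h) σ).2⟩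
  refine h.1.comp ?_
  rw [contDiff_pi]
  exact fun j => contDiff_apply ℝ ℝ (σ j)

theorem PS.smul {r : ℝ} {G : (Fin n → ℝ) → ℝ} (h : G ∈ PS n r) (c : ℝ) : c • G ∈ PS n r :=
  ⟨h.1.const_smul c, (Prof.smul (PS.prof h) c).2⟩

theorem swap_mem' (hS : S_COMM) (hn : 0 < n) {r : ℝ} (hr : 0 < r) (hr1 : r < 1)
    {G : (Fin n → ℝ) → ℝ} (hG : G ∈ PS n r) {i j : Fin n} (hij : i ≠ j) :
    G - Lp (Equiv.swap i j) G ∈ Ker (Mono (HamBar n)) := by
  have hG' := PS.perm hG (Equiv.swap i j)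
  obtain ⟨u, hu, hus, hut⟩ := tw1 n G hG.1 r hr hr1 hG.2
  obtain ⟨v, hv, hvs, hvt⟩ := tw1 n _ hG'.1 r hr hr1 hG'.2
  obtain ⟨r', h1, h2⟩ := exists_between hr1
  obtain ⟨κ, hκ, hκs, hκx⟩ := hQ n i j hij r r' hr h1 h2
  have e := conj_tw hij hus hut hvs hvt hκx
  have key : ⁅u, κ⁆ ∈ Mono (HamBar n) := hS n hn _ mid_HamBar u κ hu hκ
  have e2 : ⁅u, κ⁆ = u * v⁻¹ := by
    rw [commutatorElement_def, ← e]
    group
  have d := Prof.diff (PS.prof hG)
  have d' := Prof.diff (PS.prof hG')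
  have e3 : ∀ z, v⁻¹ z = tw (-Lp (Equiv.swap i j) G) z := fun z => by
    apply v.injective
    rw [apply_inv_self, hvt, tw_add d' d'.neg, add_neg_cancel, tw_zero]
  refine ⟨d.sub d', u * v⁻¹, e2 ▸ key, fun z => ?_⟩
  show u (v⁻¹ z) = _
  rw [e3, hut, tw_add d d'.neg, sub_eq_add_neg]

theorem decomp (hn : 0 < n) {r : ℝ} {G : (Fin n → ℝ) → ℝ} (hG : G ∈ Prof n r) :
    ∃ G1 ∈ Prof n (1 / 4), ∃ G2 ∈ PS n r, G = G1 + G2 := by
  have hn' : (0 : ℝ) < n := by exact_mod_cast hn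
  have hpos : (0 : ℝ) < 1 / (32 * n) := by positivity
  let χ : ContDiffBump (0 : Fin n → ℝ) := ⟨1 / (32 * n), 1 / (16 * n), hpos, by
    rw [div_lt_div_iff₀ (by positivity) (by positivity)]
    nlinarith⟩
  have hχ : ContDiff ℝ ((⊤ : ℕ∞) : WithTop ℕ∞) (fun a => χ a) := χ.contDiff
  refine ⟨fun a => χ a * G a, ⟨hχ.contDiffOn.mul hG.1, fun a ha => ?_⟩,
    fun a => G a - χ a * G a, ⟨?_, fun a ha => ?_⟩, ?_⟩
  · have : χ a = 0 := by
      apply χ.zero_of_le_dist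
      show 1 / (16 * (n : ℝ)) ≤ dist a 0
      rw [dist_zero_right]
      by_contra hc
      push Not at hc
      have h1 : ∑ j, a j < ∑ _j : Fin n, 1 / (16 * (n : ℝ)) := by
        have : Nonempty (Fin n) := ⟨⟨0, hn⟩⟩
        refine Finset.sum_lt_sum_of_nonempty Finset.univ_nonempty fun j _ => ?_
        exact lt_of_le_of_lt ((le_abs_self _).trans (norm_le_pi_norm a j)) hc
      rw [Finset.sum_const, Finset.card_univ, Fintype.card_fin, nsmul_eq_mul] at h1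
      have h2 : (n : ℝ) * (1 / (16 * n)) = (1 / 4) ^ 2 := by
        field_simp
        norm_num
      rw [h2] at h1
      linarith
    show χ a * G a = 0
    rw [this, zero_mul]
  · rw [contDiff_iff_contDiffAt]
    intro a
    by_cases ha : a = 0
    · subst ha
      have h1 : (fun a => G a - χ a * G a) =ᶠ[𝓝 (0 : Fin n → ℝ)] fun _ => 0 := by
        filter_upwards [χ.eventuallyEq_one] with b hb
        rw [hb]
        simp
      exact contDiffAt_const.congr_of_eventuallyEq h1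
    · have h2 := hG.1.contDiffAt (isOpen_compl_singleton.mem_nhds ha)
      exact h2.sub (hχ.contDiffAt.mul h2)
  · show G a - χ a * G a = 0
    rw [hG.2 a ha, mul_zero, sub_zero]
  · funext a
    show G a = χ a * G a + (G a - χ a * G a)
    ring

theorem avg_add (G G' : (Fin n → ℝ) → ℝ) : avg (G + G') = avg G + avg G' := by
  funext a
  simp only [avg, Pi.add_apply, Finset.sum_add_distrib, mul_add]

theorem sub_avg' (hS : S_COMM) (hn : 0 < n) {r : ℝ} (hr : 0 < r) (hr1 : r < 1)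
    {G : (Fin n → ℝ) → ℝ} (h : G ∈ Prof n r) : G - avg G ∈ Ker (Mono (HamBar n)) := by
  obtain ⟨G1, h1, G2, h2, rfl⟩ := decomp hn h
  rw [avg_add, add_sub_add_comm]
  refine (Ker _).add_mem (sub_avg hW hQ hn (by norm_num) (by norm_num) h1) ?_
  exact sub_avg_of (PS n r) (fun σ G hG => PS.perm hG σ) (fun c G hG => PS.smul hG c)
    (fun G hG i j hij => swap_mem' hS hn hr hr1 hG hij) G2 h2

theorem twist_main' (hS : S_COMM) (hn : 0 < n) {r : ℝ} (hr : 0 < r) (hr1 : r < 1)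
    {G : (Fin n → ℝ) → ℝ} (hG : G ∈ Prof n r) :
    ∃ T T' : HamHomeo n, IsTwist G T ∧ IsTwist (avg G) T' ∧
      ∀ N : Subgroup (HamHomeo n), N.Normal → N ≠ ⊥ → T * T'⁻¹ ∈ N := by
  have hG' := avg_mem hG
  obtain ⟨T, hT'⟩ := exists_twist hr hr1 hG
  obtain ⟨T', hT''⟩ := exists_twist hr hr1 hG'
  refine ⟨T, T', hT', hT'', fun N hN hne => mono_sub hN hne ?_⟩
  obtain ⟨-, w, hw, hwt⟩ := sub_avg' hS hn hr hr1 hG
  have e : w * T'.1.homeo = T.1.homeo := by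
    apply Homeomorph.ext
    intro z
    show w (T'.1.map z) = T.1.map z
    rw [hwt, hT'' z, hT' z, tw_add ((Prof.diff hG).sub (Prof.diff hG')) (Prof.diff hG'),
      sub_add_cancel]
  have e' : w = T.1.homeo * T'.1.homeo⁻¹ := eq_mul_inv_of_mul_eq e
  rw [e'] at hw
  exact hw

theorem twist_zero' (hS : S_COMM) (hn : 0 < n) {r : ℝ} (hr : 0 < r) (hr1 : r < 1)
    {G : (Fin n → ℝ) → ℝ} (hG : G ∈ Prof n r) (h0 : avg G = 0) :
    ∃ T : HamHomeo n, IsTwist G T ∧ ∀ N : Subgroup (HamHomeo n), N.Normal → N ≠ ⊥ → T ∈ N := by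
  obtain ⟨T, T', h1, h2, h3⟩ := twist_main' hS hn hr hr1 hG
  have e : T' = 1 := by
    apply Subtype.ext
    apply Homeomorph.ext
    intro z
    show T'.1.map z = z
    rw [h2 z, h0, tw_zero]
  refine ⟨T, h1, fun N hN hne => ?_⟩
  have := h3 N hN hne
  rwa [e, inv_one, mul_one] at this

end Pool.Agent.R773.HN
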