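import Pool.Agent.R773.HN.Stm

/-! HN-BD: bounds for a Hamiltonian vector field (helper451) -/

set_option autoImplicit false

open Set Filter Topology Function
open Pool.Agent.Y453.HB

namespace Pool.Agent.R773.HN

namespace Bd

/-- the time dependent Hamiltonian vector field as a function of `(t, x)` -/
noncomputable def G {n : ℕ} (H : ℝ → E n → ℝ) (p : ℝ × E n) : E n := XH (H p.1) p.2

lemma fderiv_slice {n : ℕ} {H : ℝ → E n → ℝ}
    (hH : ContDiff ℝ ((⊤ : ℕ∞) : WithTop ℕ∞) (Function.uncurry H)) (t : ℝ) (x v : E n) :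
    fderiv ℝ (H t) x v = fderiv ℝ (Function.uncurry H) (t, x) (0, v) := by
  have h1 : HasFDerivAt (Function.uncurry H) (fderiv ℝ (Function.uncurry H) (t, x)) (t, x) :=
    (hH.differentiable (by simp) (t, x)).hasFDerivAt
  have h2 : HasFDerivAt (fun y : E n => (t, y)) (ContinuousLinearMap.inr ℝ ℝ (E n)) x :=
    hasFDerivAt_prodMk_right t x
  have h3 : HasFDerivAt (H t)
      ((fderiv ℝ (Function.uncurry H) (t, x)).comp (ContinuousLinearMap.inr ℝ ℝ (E n))) x :=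
    HasFDerivAt.comp x (f := fun y : E n => (t, y)) h1 h2
  rw [h3.fderiv]
  simp

lemma G_contDiff {n : ℕ} {H : ℝ → E n → ℝ}
    (hH : ContDiff ℝ ((⊤ : ℕ∞) : WithTop ℕ∞) (Function.uncurry H)) : ContDiff ℝ 1 (G H) := by
  have h1 : ContDiff ℝ 1 (fun p : ℝ × E n => fderiv ℝ (Function.uncurry H) p) :=
    (contDiff_infty.mp hH 2).fderiv_right (by norm_num)
  have h2 : ∀ v : E n, ContDiff ℝ 1 (fun p : ℝ × E n => fderiv ℝ (H p.1) p.2 v) := by
    intro v
    have h3 : (fun p : ℝ × E n => fderiv ℝ (H p.1) p.2 v)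
        = fun p : ℝ × E n => fderiv ℝ (Function.uncurry H) p ((0 : ℝ), v) := by
      funext p
      exact fderiv_slice hH p.1 p.2 v
    rw [h3]
    exact h1.clm_apply contDiff_const
  unfold G XH
  refine ContDiff.prodMk ?_ ?_
  · exact contDiff_pi.mpr fun i => h2 _
  · exact contDiff_pi.mpr fun i => (h2 _).neg

lemma G_zero {n : ℕ} {H : ℝ → E n → ℝ} {K : Set (E n)} (hK : IsCompact K)
    (h0 : ∀ t x, x ∉ K → H t x = 0) (p : ℝ × E n) (hp : p.2 ∉ K) : G H p = 0 := by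
  have h1 : H p.1 =ᶠ[𝓝 p.2] fun _ => (0 : ℝ) := by
    have h2 : Kᶜ ∈ 𝓝 p.2 := hK.isClosed.isOpen_compl.mem_nhds hp
    filter_upwards [h2] with y hy
    exact h0 _ _ hy
  have h3 : fderiv ℝ (H p.1) p.2 = 0 := by
    rw [h1.fderiv_eq]
    simp
  unfold G XH
  rw [h3]
  ext i <;> simp

lemma dG_zero {n : ℕ} {H : ℝ → E n → ℝ} {K : Set (E n)} (hK : IsCompact K)
    (h0 : ∀ t x, x ∉ K → H t x = 0) (p : ℝ × E n) (hp : p.2 ∉ K) : fderiv ℝ (G H) p = 0 := by
  have h1 : G H =ᶠ[𝓝 p] fun _ => (0 : E n) := by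
    have h2 : (Prod.snd : ℝ × E n → E n) ⁻¹' Kᶜ ∈ 𝓝 p :=
      (hK.isClosed.isOpen_compl.preimage continuous_snd).mem_nhds hp
    filter_upwards [h2] with y hy
    exact G_zero hK h0 y hy
  rw [h1.fderiv_eq]
  simp

end Bd

open Bd

theorem bd : S_BD := by
  intro n H hH K hK h0
  have hG := G_contDiff hH
  have hcG : Continuous (G H) := hG.continuous
  have hcD : Continuous (fderiv ℝ (G H)) := hG.continuous_fderiv (by norm_num)
  have hcomp : IsCompact (Icc (0 : ℝ) 1 ×ˢ K) := isCompact_Icc.prod hK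
  obtain ⟨C0, hC0⟩ := hcomp.exists_bound_of_continuousOn hcG.continuousOn
  obtain ⟨C1, hC1⟩ := hcomp.exists_bound_of_continuousOn hcD.continuousOn
  set C : ℝ := max 0 (max C0 C1) with hC
  have hC_nonneg : 0 ≤ C := le_max_left _ _
  have hC0le : C0 ≤ C := le_trans (le_max_left _ _) (le_max_right _ _)
  have hC1le : C1 ≤ C := le_trans (le_max_right _ _) (le_max_right _ _)
  have hb0 : ∀ t ∈ Icc (0 : ℝ) 1, ∀ x : E n, ‖G H (t, x)‖ ≤ C := by
    intro t ht x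
    by_cases hx : x ∈ K
    · exact le_trans (hC0 (t, x) ⟨ht, hx⟩) hC0le
    · rw [G_zero hK h0 (t, x) hx, norm_zero]
      exact hC_nonneg
  have hb1 : ∀ p ∈ Icc (0 : ℝ) 1 ×ˢ (univ : Set (E n)), ‖fderiv ℝ (G H) p‖ ≤ C := by
    rintro ⟨t, x⟩ ⟨ht, -⟩
    by_cases hx : x ∈ K
    · exact le_trans (hC1 (t, x) ⟨ht, hx⟩) hC1le
    · rw [dG_zero hK h0 (t, x) hx, norm_zero]
      exact hC_nonneg
  have hconv : Convex ℝ (Icc (0 : ℝ) 1 ×ˢ (univ : Set (E n))) := (convex_Icc 0 1).prod convex_univ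
  have hmv : ∀ p ∈ Icc (0 : ℝ) 1 ×ˢ (univ : Set (E n)), ∀ q ∈ Icc (0 : ℝ) 1 ×ˢ (univ : Set (E n)),
      ‖G H q - G H p‖ ≤ C * ‖q - p‖ := by
    intro p hp q hq
    exact hconv.norm_image_sub_le_of_norm_fderiv_le
      (fun z _ => hG.differentiable (by norm_num) z) hb1 hp hq
  refine ⟨C, hC_nonneg, fun t ht x => hb0 t ht x, fun t ht x y => ?_, fun s hs t ht x => ?_⟩
  · have h1 := hmv (t, y) ⟨ht, mem_univ _⟩ (t, x) ⟨ht, mem_univ _⟩
    have h2 : ‖((t, x) : ℝ × E n) - (t, y)‖ = ‖x - y‖ := by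
      rw [Prod.mk_sub_mk, sub_self, Prod.norm_mk, norm_zero]
      exact max_eq_right (norm_nonneg _)
    rw [h2] at h1
    exact h1
  · have h1 := hmv (t, x) ⟨ht, mem_univ _⟩ (s, x) ⟨hs, mem_univ _⟩
    have h2 : ‖((s, x) : ℝ × E n) - (t, x)‖ = |s - t| := by
      rw [Prod.mk_sub_mk, sub_self, Prod.norm_mk, norm_zero, Real.norm_eq_abs]
      exact max_eq_left (abs_nonneg _)
    rw [h2] at h1
    exact h1

end Pool.Agent.R773.HN
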