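import Pool.Agent.R773.HN.Stm

/-!
# HN-COVER: a smooth partition of unity subordinate to small balls
-/

set_option autoImplicit false

open Set Filter Topology Function
open Pool.Agent.Y453.HB
open scoped Manifold ContDiff

namespace Pool.Agent.R773.HN

theorem cov_Q_cont {n : ℕ} : Continuous (fun x : E n => Q x) := by
  unfold Q
  refine continuous_finsetSum _ fun i _ => ?_
  exact (((continuous_apply i).comp continuous_fst).pow 2).add
    (((continuous_apply i).comp continuous_snd).pow 2)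

theorem cov_Q_smul {n : ℕ} (a : ℝ) (x : E n) : Q (a • x) = a ^ 2 * Q x := by
  unfold Q
  rw [Finset.mul_sum]
  refine Finset.sum_congr rfl fun i _ => ?_
  simp only [Prod.smul_fst, Prod.smul_snd, Pi.smul_apply, smul_eq_mul]
  ring

theorem cov_nm_smul {n : ℕ} (a : ℝ) (ha : 0 ≤ a) (x : E n) : nm (a • x) = a * nm x := by
  unfold nm
  rw [cov_Q_smul, Real.sqrt_mul (sq_nonneg a), Real.sqrt_sq ha]

theorem cov_nm_cont {n : ℕ} : Continuous (fun x : E n => nm x) :=
  Real.continuous_sqrt.comp cov_Q_cont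

theorem cover : S_COVER := by
  intro n K hK hKQ ε hε hε1
  have hnm : ∀ k ∈ K, nm k < 1 := by
    intro k hk
    have h : Q k < 1 := hKQ hk
    unfold nm
    rw [Real.sqrt_lt' one_pos]
    simpa using h
  let U : E n → Set (E n) := fun k => {x | nm (x - (1 - ε) • k) < ε}
  have hUo : ∀ k, IsOpen (U k) := fun k =>
    isOpen_lt (cov_nm_cont.comp (continuous_id.sub continuous_const)) continuous_const
  have hmem : ∀ k ∈ K, k ∈ U k := by
    intro k hk
    have h1 : k - (1 - ε) • k = ε • k := by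
      rw [sub_smul, one_smul]
      abel
    show nm (k - (1 - ε) • k) < ε
    rw [h1, cov_nm_smul ε hε.le]
    nlinarith [hnm k hk]
  obtain ⟨t, htK, htc⟩ := hK.elim_nhds_subcover U (fun k hk => (hUo k).mem_nhds (hmem k hk))
  let e := t.equivFin
  let c : Fin t.card → E n := fun i => (e.symm i : E n)
  have hcK : ∀ i, c i ∈ K := fun i => htK _ (e.symm i).2
  have hcov : K ⊆ ⋃ i, U (c i) := by
    intro x hx
    obtain ⟨k, hk⟩ := mem_iUnion.1 (htc hx)
    obtain ⟨hkt, hxk⟩ := mem_iUnion.1 hk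
    refine mem_iUnion.2 ⟨e ⟨k, hkt⟩, ?_⟩
    have : c (e ⟨k, hkt⟩) = k := by
      show ((e.symm (e ⟨k, hkt⟩) : t) : E n) = k
      rw [Equiv.symm_apply_apply]
    rw [this]
    exact hxk
  obtain ⟨f, hf⟩ := SmoothPartitionOfUnity.exists_isSubordinate 𝓘(ℝ, E n) hK.isClosed
    (fun i => U (c i)) (fun i => hUo _) hcov
  refine ⟨t.card, fun i => (1 - ε) • c i, fun i => f i, ?_, ?_, ?_, ?_⟩
  · intro i
    show nm ((1 - ε) • c i) + ε < 1
    rw [cov_nm_smul (1 - ε) (by linarith)]
    nlinarith [hnm (c i) (hcK i)]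
  · intro i
    exact (f i).contMDiff.contDiff
  · intro i x hx
    refine image_eq_zero_of_notMem_tsupport fun hx' => hx ?_
    have h : nm (x - (1 - ε) • c i) < ε := hf i hx'
    exact h.le
  · intro x hx
    have h := f.sum_eq_one hx
    rwa [finsum_eq_sum_of_fintype] at h

end Pool.Agent.R773.HN
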