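import Pool.Agent.R773.HN.Stm
import Pool.Agent.GR.Flow

/-!
# HN-FLOW: the flow of an autonomous Hamiltonian with compact support
-/

set_option autoImplicit false

open Set Filter Topology Function
open Pool.Agent.Y453.HB

namespace Pool.Agent.R773.HN

namespace FlowAux

variable {n : ℕ} {h : E n → ℝ}

theorem contDiff_XH (hh : ContDiff ℝ ((⊤ : ℕ∞) : WithTop ℕ∞) h) :
    ContDiff ℝ 1 (XH h) := by
  have h2 : ContDiff ℝ ((2 : ℕ) : WithTop ℕ∞) h := contDiff_infty.1 hh 2
  have h1 : ContDiff ℝ 1 (fderiv ℝ h) := h2.fderiv_right (m := 1) (by norm_num)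
  unfold XH
  refine ContDiff.prodMk (contDiff_pi.2 fun i => ?_) (contDiff_pi.2 fun i => ?_)
  · exact h1.clm_apply contDiff_const
  · exact (h1.clm_apply contDiff_const).neg

theorem XH_off {K : Set (E n)} (hK : IsCompact K) (h0 : ∀ x, x ∉ K → h x = 0) {x : E n}
    (hx : x ∉ K) : XH h x = 0 := by
  have h1 : h =ᶠ[𝓝 x] fun _ => (0 : ℝ) := by
    filter_upwards [hK.isClosed.isOpen_compl.mem_nhds hx] with y hy
    exact h0 y hy
  have h2 : fderiv ℝ h x = 0 := by
    rw [h1.fderiv_eq, fderiv_fun_const]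
    rfl
  unfold XH
  rw [h2]
  apply Prod.ext
  · funext i
    rfl
  · funext i
    change -((0 : E n →L[ℝ] ℝ) _) = 0
    rw [_root_.zero_apply, neg_zero]

end FlowAux

open FlowAux Pool.Agent.GR.Flow

theorem flow : S_FLOW := by
  intro n h hh K hK hKQ h0
  have hY1 := contDiff_XH hh
  have hsupp : HasCompactSupport (XH h) := HasCompactSupport.intro hK fun x hx => XH_off hK h0 hx
  obtain ⟨C, hC⟩ := ContDiff.lipschitzWith_of_hasCompactSupport hsupp hY1 one_ne_zero
  obtain ⟨M, hM⟩ := hY1.continuous.bounded_above_of_compact_support hsupp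
  have hM' : ∀ x, ‖XH h x‖ ≤ (Real.toNNReal M : ℝ) := fun x =>
    (hM x).trans (Real.le_coe_toNNReal M)
  choose γ hγ0 hγ using fun x => exists_solution hC hM' x
  have hfl : IsFlowOf (XH h) (fun t x => γ x t) := ⟨hγ0, fun x t => hγ x t⟩
  have hcd : ContDiff ℝ ((1 : ℕ) : WithTop ℕ∞) (fun p : ℝ × E n => γ p.2 p.1) :=
    contDiff_flow (X := (⟨XH h, hY1.continuous⟩ : C(E n, E n))) one_ne_zero
      (by exact_mod_cast hY1) hC hfl
  have hcont : ∀ t : ℝ, Continuous fun x => γ x t := fun t =>
    hcd.continuous.comp (by fun_prop : Continuous fun x : E n => ((t, x) : ℝ × E n))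
  let u : E n ≃ₜ E n :=
    { toFun := fun x => γ x 1
      invFun := fun x => γ x (-1)
      left_inv := fun x => by
        have h1 := hfl.add hC (-1) 1 x
        rw [neg_add_cancel] at h1
        exact h1.symm.trans (hγ0 x)
      right_inv := fun x => by
        have h1 := hfl.add hC 1 (-1) x
        rw [add_neg_cancel] at h1
        exact h1.symm.trans (hγ0 x)
      continuous_toFun := hcont 1
      continuous_invFun := hcont (-1) }
  have hd : ∀ (t : ℝ) (x : E n), HasDerivAt (fun s => γ x s) (XH h (γ x t)) t := fun t x => hγ x t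
  refine ⟨u, fun t x => γ x t, ?_, ?_, hγ0, hd, fun x => rfl⟩
  · refine ⟨fun _ => h, ?_, ⟨K, hK, hKQ, fun _ => h0⟩, fun t x => γ x t, hγ0, hd, fun x => rfl⟩
    exact hh.comp contDiff_snd
  · intro x hx
    have h1 : (fun t => γ x t) = fun _ => x := by
      refine ODE_solution_unique_univ (v := fun _ => XH h) (s := fun _ => univ) (K := C) (t₀ := 0)
        (fun t => hC.lipschitzOnWith) (fun t => ⟨hγ x t, trivial⟩) (fun t => ⟨?_, trivial⟩)
        (hγ0 x)
      rw [XH_off hK h0 hx]
      exact hasDerivAt_const t x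
    exact congrFun h1 1

end Pool.Agent.R773.HN
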