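import Pool.Agent.R773.HN.Stm

/-!
# HN-STEP: an abstract Lie-Trotter formula
-/

set_option autoImplicit false

open Set Filter Topology Function

namespace Pool.Agent.R773.HN.StepPf

/-- one step along a field `s • Y` -/
theorem one_step {V : Type} [NormedAddCommGroup V] [NormedSpace ℝ V] (Y : V → V) (C s : ℝ)
    (hC : 0 ≤ C) (hs : 0 ≤ s) (hb : ∀ x, ‖Y x‖ ≤ C) (hl : ∀ x y, ‖Y x - Y y‖ ≤ C * ‖x - y‖)
    (γ : ℝ → V) (hγ : ∀ τ, HasDerivAt γ (s • Y (γ τ)) τ) :
    ‖γ 1 - γ 0‖ ≤ s * C ∧ ‖γ 1 - γ 0 - s • Y (γ 0)‖ ≤ (s * C) ^ 2 := by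
  have h0 : ∀ τ ∈ Icc (0 : ℝ) 1, ‖γ τ - γ 0‖ ≤ s * C := by
    intro τ hτ
    have h := Convex.norm_image_sub_le_of_norm_hasDerivWithin_le (f := γ)
      (f' := fun τ => s • Y (γ τ)) (C := s * C) (s := Icc (0 : ℝ) 1) (x := 0) (y := τ)
      (fun x _ => (hγ x).hasDerivWithinAt)
      (fun x _ => by
        rw [norm_smul, Real.norm_of_nonneg hs]
        exact mul_le_mul_of_nonneg_left (hb _) hs)
      (convex_Icc _ _) (by simp) hτ
    refine h.trans ?_
    have : ‖τ - 0‖ ≤ 1 := by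
      rw [sub_zero, Real.norm_of_nonneg hτ.1]; exact hτ.2
    calc s * C * ‖τ - 0‖ ≤ s * C * 1 := mul_le_mul_of_nonneg_left this (by positivity)
      _ = s * C := mul_one _
  refine ⟨h0 1 (by simp), ?_⟩
  have h := Convex.norm_image_sub_le_of_norm_hasDerivWithin_le
    (f := fun τ : ℝ => γ τ - τ • (s • Y (γ 0)))
    (f' := fun τ => s • Y (γ τ) - (1 : ℝ) • (s • Y (γ 0))) (C := (s * C) ^ 2)
    (s := Icc (0 : ℝ) 1) (x := 0) (y := 1)
    (fun x _ => ((hγ x).sub ((hasDerivAt_id x).smul_const (s • Y (γ 0)))).hasDerivWithinAt)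
    (fun x hx => by
      rw [one_smul, ← smul_sub, norm_smul, Real.norm_of_nonneg hs]
      calc s * ‖Y (γ x) - Y (γ 0)‖ ≤ s * (C * ‖γ x - γ 0‖) :=
            mul_le_mul_of_nonneg_left (hl _ _) hs
        _ ≤ s * (C * (s * C)) := by
            have := h0 x hx
            gcongr
        _ = (s * C) ^ 2 := by ring)
    (convex_Icc _ _) (by simp) (by simp)
  have e : γ 1 - γ 0 - s • Y (γ 0) =
      (γ 1 - (1 : ℝ) • (s • Y (γ 0))) - (γ 0 - (0 : ℝ) • (s • Y (γ 0))) := by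
    rw [one_smul, zero_smul]; abel
  rw [e]
  simpa using h

/-- composition of several steps -/
theorem comp_steps {V : Type} [NormedAddCommGroup V] [NormedSpace ℝ V] {ι : Type}
    (Y : ι → V → V) (C s : ℝ)
    (hC : 0 ≤ C) (hs : 0 ≤ s) (hb : ∀ i x, ‖Y i x‖ ≤ C)
    (hl : ∀ i x y, ‖Y i x - Y i y‖ ≤ C * ‖x - y‖)
    (u : ι → (V ≃ₜ V))
    (hu : ∀ i x, ∃ γ : ℝ → V, γ 0 = x ∧ γ 1 = u i x ∧ ∀ τ, HasDerivAt γ (s • Y i (γ τ)) τ)
    (l : List ι) : ∀ x, ‖(l.map u).prod x - x‖ ≤ l.length * (s * C) ∧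
      ‖(l.map u).prod x - x - s • (l.map fun i => Y i x).sum‖ ≤ (l.length * (s * C)) ^ 2 := by
  induction l with
  | nil =>
    intro x
    simp
  | cons i l ih =>
    intro x
    obtain ⟨ih1, ih2⟩ := ih x
    obtain ⟨γ, h0, h1, hγ⟩ := hu i ((l.map u).prod x)
    have hs1 := one_step (Y i) C s hC hs (hb i) (hl i) γ hγ
    rw [h0, h1] at hs1
    obtain ⟨a1, a2⟩ := hs1
    have hap : ((List.map u (i :: l)).prod) x = u i ((l.map u).prod x) := by
      rw [List.map_cons, List.prod_cons]; rfl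
    rw [hap]
    set y := (l.map u).prod x with hy
    have hn : (0 : ℝ) ≤ (l.length : ℝ) := Nat.cast_nonneg _
    have hsC : 0 ≤ s * C := by positivity
    constructor
    · calc ‖u i y - x‖ = ‖(u i y - y) + (y - x)‖ := by congr 1; abel
        _ ≤ ‖u i y - y‖ + ‖y - x‖ := norm_add_le _ _
        _ ≤ s * C + l.length * (s * C) := add_le_add a1 ih1
        _ = ((i :: l).length : ℝ) * (s * C) := by push_cast [List.length_cons]; ring
    · rw [List.map_cons, List.sum_cons]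
      have e : u i y - x - s • (Y i x + (l.map fun i => Y i x).sum) =
          (u i y - y - s • Y i y) + (y - x - s • (l.map fun i => Y i x).sum) +
            s • (Y i y - Y i x) := by
        rw [smul_add, smul_sub]; abel
      rw [e]
      have h3 : ‖s • (Y i y - Y i x)‖ ≤ s * C * (l.length * (s * C)) := by
        rw [norm_smul, Real.norm_of_nonneg hs, mul_assoc]
        refine mul_le_mul_of_nonneg_left ((hl i y x).trans ?_) hs
        exact mul_le_mul_of_nonneg_left ih1 hC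
      calc ‖(u i y - y - s • Y i y) + (y - x - s • (l.map fun i => Y i x).sum) +
            s • (Y i y - Y i x)‖
          ≤ ‖(u i y - y - s • Y i y) + (y - x - s • (l.map fun i => Y i x).sum)‖ +
            ‖s • (Y i y - Y i x)‖ := norm_add_le _ _
        _ ≤ ‖u i y - y - s • Y i y‖ + ‖y - x - s • (l.map fun i => Y i x).sum‖ +
            ‖s • (Y i y - Y i x)‖ := by gcongr; exact norm_add_le _ _
        _ ≤ (s * C) ^ 2 + (l.length * (s * C)) ^ 2 + s * C * (l.length * (s * C)) :=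
            add_le_add (add_le_add a2 ih2) h3
        _ ≤ (((i :: l).length : ℝ) * (s * C)) ^ 2 := by
            push_cast [List.length_cons]
            nlinarith [mul_nonneg hn (mul_nonneg hsC hsC)]

/-- one step of the exact flow -/
theorem flow_step {V : Type} [NormedAddCommGroup V] [NormedSpace ℝ V] (F : ℝ → V → V) (K : ℝ)
    (hK : 0 ≤ K) (hb : ∀ t ∈ Icc (0 : ℝ) 1, ∀ x, ‖F t x‖ ≤ K)
    (hl : ∀ t ∈ Icc (0 : ℝ) 1, ∀ x y, ‖F t x - F t y‖ ≤ K * ‖x - y‖)
    (ht : ∀ s ∈ Icc (0 : ℝ) 1, ∀ t ∈ Icc (0 : ℝ) 1, ∀ x, ‖F s x - F t x‖ ≤ K * |s - t|)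
    (g : ℝ → V) (hg : ∀ t ∈ Icc (0 : ℝ) 1, HasDerivAt g (F t (g t)) t)
    (t s : ℝ) (h0 : 0 ≤ t) (hs : 0 ≤ s) (h1 : t + s ≤ 1) :
    ‖g (t + s) - g t - s • F t (g t)‖ ≤ (K ^ 2 + K) * s ^ 2 := by
  have hsub : ∀ τ ∈ Icc t (t + s), τ ∈ Icc (0 : ℝ) 1 := fun τ hτ =>
    ⟨h0.trans hτ.1, hτ.2.trans h1⟩
  have htI : t ∈ Icc (0 : ℝ) 1 := ⟨h0, by linarith⟩
  have hts : t ∈ Icc t (t + s) := ⟨le_rfl, by linarith⟩
  have hts' : t + s ∈ Icc t (t + s) := ⟨by linarith, le_rfl⟩
  have ha : ∀ τ ∈ Icc t (t + s), ‖g τ - g t‖ ≤ K * s := by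
    intro τ hτ
    have h := Convex.norm_image_sub_le_of_norm_hasDerivWithin_le (f := g)
      (f' := fun τ => F τ (g τ)) (C := K) (s := Icc t (t + s)) (x := t) (y := τ)
      (fun x hx => (hg x (hsub x hx)).hasDerivWithinAt)
      (fun x hx => hb x (hsub x hx) _)
      (convex_Icc _ _) hts hτ
    refine h.trans (mul_le_mul_of_nonneg_left ?_ hK)
    rw [Real.norm_of_nonneg (by linarith [hτ.1])]
    linarith [hτ.2]
  have h := Convex.norm_image_sub_le_of_norm_hasDerivWithin_le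
    (f := fun τ : ℝ => g τ - τ • (F t (g t)))
    (f' := fun τ => F τ (g τ) - (1 : ℝ) • (F t (g t))) (C := (K ^ 2 + K) * s)
    (s := Icc t (t + s)) (x := t) (y := t + s)
    (fun x hx => ((hg x (hsub x hx)).sub
      ((hasDerivAt_id x).smul_const (F t (g t)))).hasDerivWithinAt)
    (fun x hx => by
      rw [one_smul]
      have e : F x (g x) - F t (g t) = (F x (g x) - F x (g t)) + (F x (g t) - F t (g t)) := by
        abel
      rw [e]
      have b1 := hl x (hsub x hx) (g x) (g t)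
      have b2 := ht x (hsub x hx) t htI (g t)
      have b3 := ha x hx
      have b4 : |x - t| ≤ s := by
        rw [abs_of_nonneg (by linarith [hx.1])]; linarith [hx.2]
      calc ‖(F x (g x) - F x (g t)) + (F x (g t) - F t (g t))‖
          ≤ ‖F x (g x) - F x (g t)‖ + ‖F x (g t) - F t (g t)‖ := norm_add_le _ _
        _ ≤ K * (K * s) + K * s := by
            refine add_le_add (b1.trans (mul_le_mul_of_nonneg_left b3 hK))
              (b2.trans (mul_le_mul_of_nonneg_left b4 hK))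
        _ = (K ^ 2 + K) * s := by ring)
    (convex_Icc _ _) hts hts'
  have e : g (t + s) - g t - s • F t (g t) =
      (g (t + s) - (t + s) • (F t (g t))) - (g t - t • (F t (g t))) := by
    rw [add_smul]; abel
  rw [e]
  refine h.trans (le_of_eq ?_)
  rw [add_sub_cancel_left, Real.norm_of_nonneg hs]
  ring

/-- the list of the factors -/
def lst (N : ℕ) (s : ℝ) : ℕ → List (Fin N × ℝ × ℝ)
  | 0 => []
  | j + 1 => ((List.finRange N).map fun i => (i, s, (j : ℝ) * s)) ++ lst N s j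

theorem lst_mem (N : ℕ) (s : ℝ) (hs : 0 ≤ s) (hs1 : s ≤ 1) : ∀ j : ℕ, (j : ℝ) * s ≤ 1 →
    ∀ a ∈ lst N s j, a.2.1 ∈ Icc (0 : ℝ) 1 ∧ a.2.2 ∈ Icc (0 : ℝ) 1 := by
  intro j
  induction j with
  | zero =>
    intro _ a ha
    simp [lst] at ha
  | succ j ih =>
    intro hj a ha
    rw [lst, List.mem_append] at ha
    push_cast at hj
    rcases ha with ha | ha
    · rw [List.mem_map] at ha
      obtain ⟨i, _, rfl⟩ := ha
      exact ⟨⟨hs, hs1⟩, ⟨by positivity, by nlinarith⟩⟩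
    · exact ih (by nlinarith) a ha

end Pool.Agent.R773.HN.StepPf

namespace Pool.Agent.R773.HN

open StepPf

theorem step : S_STEP := by
  intro V _ _ N Y C hC hb hl ht ψ hψ0 hψ u hu η hη
  set K : ℝ := N * C with hKdef
  have hK : 0 ≤ K := by positivity
  set F : ℝ → V → V := fun t x => ∑ i, Y i t x with hF
  have Fb : ∀ t ∈ Icc (0 : ℝ) 1, ∀ x, ‖F t x‖ ≤ K := by
    intro t h x
    calc ‖F t x‖ ≤ ∑ i : Fin N, ‖Y i t x‖ := norm_sum_le _ _
      _ ≤ ∑ _i : Fin N, C := Finset.sum_le_sum fun i _ => hb i t h x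
      _ = K := by simp [hKdef]
  have Fl : ∀ t ∈ Icc (0 : ℝ) 1, ∀ x y, ‖F t x - F t y‖ ≤ K * ‖x - y‖ := by
    intro t h x y
    calc ‖F t x - F t y‖ = ‖∑ i : Fin N, (Y i t x - Y i t y)‖ := by
          rw [hF, Finset.sum_sub_distrib]
      _ ≤ ∑ i : Fin N, ‖Y i t x - Y i t y‖ := norm_sum_le _ _
      _ ≤ ∑ _i : Fin N, C * ‖x - y‖ := Finset.sum_le_sum fun i _ => hl i t h x y
      _ = K * ‖x - y‖ := by simp [hKdef]; ring
  have Ft : ∀ s ∈ Icc (0 : ℝ) 1, ∀ t ∈ Icc (0 : ℝ) 1, ∀ x, ‖F s x - F t x‖ ≤ K * |s - t| := by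
    intro s hs t h x
    calc ‖F s x - F t x‖ = ‖∑ i : Fin N, (Y i s x - Y i t x)‖ := by
          rw [hF, Finset.sum_sub_distrib]
      _ ≤ ∑ i : Fin N, ‖Y i s x - Y i t x‖ := norm_sum_le _ _
      _ ≤ ∑ _i : Fin N, C * |s - t| := Finset.sum_le_sum fun i _ => ht i s hs t h x
      _ = K * |s - t| := by simp [hKdef]; ring
  -- the number of steps
  set A : ℝ := K ^ 2 + (K ^ 2 + K) with hA
  have hA0 : 0 ≤ A := by positivity
  obtain ⟨m, hm⟩ := exists_nat_gt (A * Real.exp K / η)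
  have hm0 : (0 : ℝ) < m := lt_of_le_of_lt (by positivity) hm
  have hm1 : (1 : ℝ) ≤ m := by
    have : 0 < m := by exact_mod_cast hm0
    exact_mod_cast this
  set s : ℝ := 1 / m with hs
  have hs0 : 0 ≤ s := by positivity
  have hs1 : s ≤ 1 := by
    rw [hs, div_le_one hm0]; exact hm1
  have hms : (m : ℝ) * s = 1 := by rw [hs]; field_simp
  have key : ∀ j : ℕ, (j : ℝ) * s ≤ 1 → ∀ x,
      ‖((lst N s j).map fun a => u a.1 a.2.1 a.2.2).prod x - ψ ((j : ℝ) * s) x‖ ≤
        j * (A * s ^ 2) * (1 + K * s) ^ j := by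
    intro j
    induction j with
    | zero =>
      intro _ x
      simp [lst, hψ0]
    | succ j ih =>
      intro hj x
      push_cast at hj
      have hj' : (j : ℝ) * s ≤ 1 := by nlinarith
      have hj0 : 0 ≤ (j : ℝ) * s := by positivity
      have hjI : (j : ℝ) * s ∈ Icc (0 : ℝ) 1 := ⟨hj0, hj'⟩
      have ihx := ih hj' x
      set y := ((lst N s j).map fun a => u a.1 a.2.1 a.2.2).prod x with hy
      have hP := comp_steps (fun i : Fin N => Y i ((j : ℝ) * s)) C s hC hs0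
        (fun i => hb i _ hjI) (fun i => hl i _ hjI) (fun i => u i s ((j : ℝ) * s))
        (fun i x => hu i s ⟨hs0, hs1⟩ _ hjI x) (List.finRange N) y
      have hap : ((lst N s (j + 1)).map fun a => u a.1 a.2.1 a.2.2).prod x =
          ((List.finRange N).map fun i => u i s ((j : ℝ) * s)).prod y := by
        rw [lst, List.map_append, List.prod_append, List.map_map]
        rfl
      rw [hap]
      set z := ((List.finRange N).map fun i => u i s ((j : ℝ) * s)).prod y with hz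
      have h2 := hP.2
      rw [List.length_finRange, ← Fin.sum_univ_def] at h2
      have h2' : ‖z - y - s • F ((j : ℝ) * s) y‖ ≤ K ^ 2 * s ^ 2 := by
        refine h2.trans (le_of_eq ?_)
        rw [hKdef]; ring
      have h3 := flow_step F K hK Fb Fl Ft (fun t => ψ t x) (fun t h => hψ t h x)
        ((j : ℝ) * s) s hj0 hs0 (by nlinarith)
      have e1 : (j : ℝ) * s + s = ((j + 1 : ℕ) : ℝ) * s := by push_cast; ring
      simp only [e1] at h3
      have h4 := Fl _ hjI y (ψ ((j : ℝ) * s) x)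
      have e : z - ψ (((j + 1 : ℕ) : ℝ) * s) x =
          (z - y - s • F ((j : ℝ) * s) y) + (y - ψ ((j : ℝ) * s) x) +
          s • (F ((j : ℝ) * s) y - F ((j : ℝ) * s) (ψ ((j : ℝ) * s) x)) -
          (ψ (((j + 1 : ℕ) : ℝ) * s) x - ψ ((j : ℝ) * s) x -
            s • F ((j : ℝ) * s) (ψ ((j : ℝ) * s) x)) := by
        rw [smul_sub]; abel
      rw [e]
      have h5 : ‖s • (F ((j : ℝ) * s) y - F ((j : ℝ) * s) (ψ ((j : ℝ) * s) x))‖ ≤
          s * (K * ‖y - ψ ((j : ℝ) * s) x‖) := by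
        rw [norm_smul, Real.norm_of_nonneg hs0]
        exact mul_le_mul_of_nonneg_left h4 hs0
      set B := (j : ℝ) * (A * s ^ 2) * (1 + K * s) ^ j with hB
      have hB0 : 0 ≤ B := by positivity
      have hKs : 0 ≤ K * s := by positivity
      have hpow : 1 ≤ (1 + K * s) ^ (j + 1) := one_le_pow₀ (by linarith)
      calc ‖(z - y - s • F ((j : ℝ) * s) y) + (y - ψ ((j : ℝ) * s) x) +
          s • (F ((j : ℝ) * s) y - F ((j : ℝ) * s) (ψ ((j : ℝ) * s) x)) -
          (ψ (((j + 1 : ℕ) : ℝ) * s) x - ψ ((j : ℝ) * s) x -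
            s • F ((j : ℝ) * s) (ψ ((j : ℝ) * s) x))‖
          ≤ ‖z - y - s • F ((j : ℝ) * s) y‖ + ‖y - ψ ((j : ℝ) * s) x‖ +
            ‖s • (F ((j : ℝ) * s) y - F ((j : ℝ) * s) (ψ ((j : ℝ) * s) x))‖ +
            ‖ψ (((j + 1 : ℕ) : ℝ) * s) x - ψ ((j : ℝ) * s) x -
              s • F ((j : ℝ) * s) (ψ ((j : ℝ) * s) x)‖ := by
            refine (norm_sub_le _ _).trans (add_le_add ((norm_add_le _ _).trans
              (add_le_add (norm_add_le _ _) le_rfl)) le_rfl)
        _ ≤ K ^ 2 * s ^ 2 + B + s * (K * B) + (K ^ 2 + K) * s ^ 2 := by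
            refine add_le_add (add_le_add (add_le_add h2' ihx) (h5.trans ?_)) h3
            exact mul_le_mul_of_nonneg_left (mul_le_mul_of_nonneg_left ihx hK) hs0
        _ = (1 + K * s) * B + A * s ^ 2 := by rw [hA]; ring
        _ ≤ (1 + K * s) * B + (A * s ^ 2) * (1 + K * s) ^ (j + 1) := by
            have : A * s ^ 2 * 1 ≤ (A * s ^ 2) * (1 + K * s) ^ (j + 1) :=
              mul_le_mul_of_nonneg_left hpow (by positivity)
            linarith
        _ = ((j + 1 : ℕ) : ℝ) * (A * s ^ 2) * (1 + K * s) ^ (j + 1) := by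
            rw [hB]; push_cast; ring
  refine ⟨lst N s m, lst_mem N s hs0 hs1 m hms.le, fun x => ?_⟩
  have h := key m hms.le x
  rw [hms] at h
  refine lt_of_le_of_lt h ?_
  have hexp : (1 + K * s) ^ m ≤ Real.exp K := by
    calc (1 + K * s) ^ m ≤ (Real.exp (K * s)) ^ m := by
          gcongr
          linarith [Real.add_one_le_exp (K * s)]
      _ = Real.exp K := by
          rw [← Real.exp_nat_mul]
          congr 1
          calc (m : ℝ) * (K * s) = K * (m * s) := by ring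
            _ = K := by rw [hms, mul_one]
  calc (m : ℝ) * (A * s ^ 2) * (1 + K * s) ^ m ≤ (m : ℝ) * (A * s ^ 2) * Real.exp K := by
        gcongr
    _ = A * Real.exp K * s * (m * s) := by ring
    _ = A * Real.exp K / m := by rw [hms, hs]; ring
    _ < η := by
        rw [div_lt_iff₀ hm0]
        rw [div_lt_iff₀ hη] at hm
        linarith

end Pool.Agent.R773.HN
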