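import Pool.Agent.R773.HN.Stm
import Pool.Agent.Y453.HB.Tri

/-!
# HN-TROT: assembly of FLOW, COVER, BD, STEP
-/

set_option autoImplicit false

open Set Filter Topology Function
open Pool.Agent.Y453.HB

namespace Pool.Agent.R773.HN

namespace Trot

theorem XH_smul {n : ℕ} (c : ℝ) {h : E n → ℝ} {p : E n} (hh : DifferentiableAt ℝ h p) :
    XH (fun x => c * h x) p = c • XH h p := by
  have e : fderiv ℝ (fun x => c * h x) p = c • fderiv ℝ h p := fderiv_const_mul hh c
  unfold XH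
  rw [e]
  refine Prod.ext ?_ ?_
  · funext i
    simp
  · funext i
    simp

theorem XH_sum {n N : ℕ} {h : Fin N → E n → ℝ} {p : E n}
    (hh : ∀ i, DifferentiableAt ℝ (h i) p) :
    XH (fun x => ∑ i, h i x) p = ∑ i, XH (h i) p := by
  have e : fderiv ℝ (fun x => ∑ i, h i x) p = ∑ i, fderiv ℝ (h i) p :=
    fderiv_fun_sum fun i _ => hh i
  unfold XH
  rw [e]
  refine Prod.ext ?_ ?_
  · funext j
    simp [Prod.fst_sum, Finset.sum_apply]
  · funext j
    simp [Prod.snd_sum, Finset.sum_apply]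

theorem D_closed {n : ℕ} (q : E n) (r : ℝ) : IsClosed (D q r) := by
  unfold D nm
  exact isClosed_le ((Q_cont.comp (continuous_id.sub continuous_const)).sqrt) continuous_const

end Trot

open Trot

theorem trot (hF : S_FLOW) (hC : S_COVER) (hB : S_BD) (hS : S_STEP) : S_TROT := by
  intro n φ hφ ε η hε hε1 hη
  obtain ⟨H, hH, ⟨K, hK, hK1, hKH⟩, ψ, hψ0, hψ, hφψ⟩ := hφ
  obtain ⟨N, q, χ, hq, hχ, hχD, hχK⟩ := hC n K hK hK1 ε hε hε1
  have hHt : ∀ t, ContDiff ℝ ((⊤ : ℕ∞) : WithTop ℕ∞) (H t) := fun t =>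
    hH.comp (contDiff_const.prodMk contDiff_id)
  have hsm : ∀ i, ContDiff ℝ ((⊤ : ℕ∞) : WithTop ℕ∞)
      (Function.uncurry fun (t : ℝ) (x : E n) => χ i x * H t x) := fun i =>
    ((hχ i).comp contDiff_snd).mul hH
  choose C hC0 hC1 hC2 hC3 using fun i => hB n (fun (t : ℝ) (x : E n) => χ i x * H t x) (hsm i)
    K hK (fun t x hx => by rw [hKH t x hx, mul_zero])
  have hCle : ∀ i, C i ≤ ∑ j, C j := fun i =>
    Finset.single_le_sum (fun j _ => hC0 j) (Finset.mem_univ i)
  have hsmt : ∀ i t, ContDiff ℝ ((⊤ : ℕ∞) : WithTop ℕ∞) (fun x => χ i x * H t x) := fun i t =>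
    (hχ i).mul (hHt t)
  have hdiff : ∀ i t x, DifferentiableAt ℝ (fun x => χ i x * H t x) x := fun i t x =>
    (hsmt i t).differentiable (by norm_num) x
  have hsum : ∀ t x, ∑ i, XH (fun x => χ i x * H t x) x = XH (H t) x := by
    intro t x
    rw [← XH_sum fun i => hdiff i t x]
    congr 1
    funext y
    by_cases hy : y ∈ K
    · rw [← Finset.sum_mul, hχK y hy, one_mul]
    · simp [hKH t y hy]
  choose u ψ' hu1 hu2 hu3 hu4 hu5 using fun (i : Fin N) (s t : ℝ) =>
    hF n (fun x => s * (χ i x * H t x)) (contDiff_const.mul (hsmt i t)) (K ∩ D (q i) ε)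
      (hK.inter_right (D_closed _ _)) (inter_subset_left.trans hK1) (fun x hx => by
        by_cases hxK : x ∈ K
        · have : x ∉ D (q i) ε := fun h => hx ⟨hxK, h⟩
          rw [hχD i x this, zero_mul, mul_zero]
        · rw [hKH t x hxK, mul_zero, mul_zero])
  obtain ⟨l, -, hl⟩ := hS (E n) N (fun i t => XH (fun x => χ i x * H t x)) (∑ j, C j)
    (Finset.sum_nonneg fun j _ => hC0 j)
    (fun i t ht x => (hC1 i t ht x).trans (hCle i))
    (fun i t ht x y => (hC2 i t ht x y).trans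
      (mul_le_mul_of_nonneg_right (hCle i) (norm_nonneg _)))
    (fun i s hs t ht x => (hC3 i s hs t ht x).trans
      (mul_le_mul_of_nonneg_right (hCle i) (abs_nonneg _)))
    ψ hψ0 (fun t _ x => by
      have h1 := hψ t x
      rw [← hsum] at h1
      exact h1) u (fun i s _ t _ x => ⟨fun τ => ψ' i s t τ x, hu3 i s t x, (hu5 i s t x).symm,
      fun τ => by
        have h1 := hu4 i s t τ x
        rw [XH_smul s (hdiff i t _)] at h1
        exact h1⟩) η hη
  refine ⟨l.map fun a => u a.1 a.2.1 a.2.2, ?_, fun x => ?_⟩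
  · intro v hv
    rw [List.mem_map] at hv
    obtain ⟨a, _, rfl⟩ := hv
    exact ⟨hu1 _ _ _, q a.1, hq a.1, fun x hx => hu2 _ _ _ x fun h => hx h.2⟩
  · rw [hφψ]
    exact hl x

end Pool.Agent.R773.HN
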