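import Pool.Agent.R773.HN.Main
import Pool.Agent.R773.HN.Bd
import Pool.Agent.R773.HN.Cover
import Pool.Agent.R773.HN.Flow
import Pool.Agent.R773.HN.Step
import Pool.Agent.R773.HN.Trans
import Pool.Agent.R773.HN.Trot

/-!
# Project HN: the final form
-/

set_option autoImplicit false

open Set Filter Topology Function
open Pool.Agent.Y453.HB
open scoped commutatorElement

namespace Pool.Agent.R773.HN

variable {n : ℕ}

/-- commutators supported in balls of radius less than `1 / 2` -/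
theorem comm_ball (hT : S_TRANS) (hR : S_TROT) (hn : 0 < n) {Γ : Subgroup (E n ≃ₜ E n)}
    (hΓ : Mid Γ) {z : E n} {r : ℝ} (hr : 0 < r) (hr2 : r < 1 / 2) (hz : nm z + r < 1)
    {f g : E n ≃ₜ E n} (hf : f ∈ Γ) (hg : g ∈ Γ) (hfs : Supp (D z r) f) (hgs : Supp (D z r) g) :
    ⁅f, g⁆ ∈ Mono Γ := by
  obtain ⟨d, hd1, hd2⟩ := exists_between (show r < 1 - r by linarith)
  obtain ⟨e, he⟩ := exists_vec hn (hr.trans hd1)
  have he2 : e + -(2 : ℝ) • e = -e := by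
    rw [neg_smul, two_smul]
    abel
  obtain ⟨R, hR1, hR2⟩ := exists_between (max_lt hz (show d + r < 1 by linarith))
  have hR3 := (le_max_left _ _).trans_lt hR1
  have hR4 := (le_max_right _ _).trans_lt hR1
  obtain ⟨κ, hκ, -, hκx⟩ := hT n 0 e (-(2 : ℝ) • e) r R hr
    (by rw [nm_zero]; linarith) (by rw [sub_zero, he]; linarith)
    (by rw [sub_zero, he2, nm_neg, he]; linarith)
  have hd : Disjoint (κ '' D e r) (D e r) := by
    rw [Set.disjoint_left]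
    intro y hy hy'
    have h1 := image_D hκx hy
    rw [he2] at h1
    have h2 : nm (y - -e) ≤ r := h1
    have h3 : nm (y - e) ≤ r := hy'
    have h4 : nm ((y - -e) - (y - e)) ≤ nm (y - -e) + nm (y - e) := by
      have := nm_add (y - -e) (-(y - e))
      rwa [nm_neg, ← sub_eq_add_neg] at this
    have h5 : (y - -e) - (y - e) = (2 : ℝ) • e := by
      rw [two_smul]
      abel
    rw [h5, nm_smul, he, abs_of_pos (show (0 : ℝ) < 2 by norm_num)] at h4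
    linarith
  obtain ⟨τ, hτ, -, hτx⟩ := hT n 0 z (e - z) r R hr (by rw [nm_zero]; linarith)
    (by rw [sub_zero]; linarith) (by rw [sub_zero, add_sub_cancel, he]; linarith)
  have him : τ '' D z r ⊆ D e r := by
    have := image_D hτx
    rwa [add_sub_cancel] at this
  have hτΓ := hΓ.ham τ hτ
  have h1 : ⁅τ * f * τ⁻¹, τ * g * τ⁻¹⁆ ∈ Mono Γ :=
    comm_mono hT hR hΓ (D_compact e r) (hΓ.ham κ hκ) hd
      (Γ.mul_mem (Γ.mul_mem hτΓ hf) (Γ.inv_mem hτΓ))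
      (Γ.mul_mem (Γ.mul_mem hτΓ hg) (Γ.inv_mem hτΓ)) ((hfs.conj τ).mono him)
      ((hgs.conj τ).mono him)
  refine (Mono_norm Γ).of_conj hτΓ ?_
  have e1 : τ * ⁅f, g⁆ * τ⁻¹ = ⁅τ * f * τ⁻¹, τ * g * τ⁻¹⁆ := by
    simp only [commutatorElement_def]
    group
  rwa [e1]

theorem main_of (hT : S_TRANS) (hR : S_TROT) (hn : 0 < n) (Γ : Subgroup (E n ≃ₜ E n))
    (h1 : ∀ u : E n ≃ₜ E n, IsHam u → u ∈ Γ) (h2 : Γ ≤ HamBar n) :
    ∃ S : Subgroup Γ, S.Normal ∧ IsSimpleGroup S ∧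
      (∀ N : Subgroup Γ, N.Normal → N ≠ ⊥ → S ≤ N) ∧
      (∀ φ ∈ HamBar n, ∀ ε : ℝ, 0 < ε → ∃ s ∈ S, ∀ x, dist ((s : E n ≃ₜ E n) x) (φ x) < ε) ∧
      (∀ (A : Set (E n)) (f g κ : Γ), IsCompact A → Disjoint ((κ : E n ≃ₜ E n) '' A) A →
        Supp A f → Supp A g → ⁅f, g⁆ ∈ S) ∧
      ∀ (z : E n) (r : ℝ), 0 < r → r < 1 / 2 → nm z + r < 1 →
        S = Subgroup.normalClosure {y : Γ | ∃ f g : Γ, Supp (D z r) f ∧ Supp (D z r) g ∧
          y = ⁅f, g⁆} := by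
  have hΓ : Mid Γ := ⟨h1, h2⟩
  have hS := Mono_norm Γ
  have hSne := Mono_ne hT hR hn hΓ
  -- from normal subgroups of `Γ`
  have conv : ∀ N : Subgroup Γ, N.Normal → N ≠ ⊥ →
      NormIn Γ (N.map Γ.subtype) ∧ N.map Γ.subtype ≠ ⊥ := by
    intro N hN hne
    refine ⟨⟨?_, ?_⟩, ?_⟩
    · rintro _ ⟨x, -, rfl⟩
      exact x.2
    · rintro g hg _ ⟨x, hx, rfl⟩
      exact ⟨⟨g, hg⟩ * x * ⟨g, hg⟩⁻¹, hN.conj_mem x hx ⟨g, hg⟩, rfl⟩
    · intro h
      apply hne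
      rw [eq_bot_iff]
      intro x hx
      have h3 : (x : E n ≃ₜ E n) ∈ N.map Γ.subtype := ⟨x, hx, rfl⟩
      rw [h, Subgroup.mem_bot] at h3
      rw [Subgroup.mem_bot]
      exact Subtype.ext h3
  have hmin : ∀ N : Subgroup Γ, N.Normal → N ≠ ⊥ → (Mono Γ).subgroupOf Γ ≤ N := by
    intro N hN hne x hx
    obtain ⟨h3, h4⟩ := conv N hN hne
    obtain ⟨y, hy, hyx⟩ := Mono_le h3 h4 (Subgroup.mem_subgroupOf.1 hx)
    have h5 : y = x := Subtype.ext hyx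
    rwa [← h5]
  have hnorm : ((Mono Γ).subgroupOf Γ).Normal := ⟨fun x hx g => by
    rw [Subgroup.mem_subgroupOf] at hx ⊢
    exact hS.2 g g.2 x hx⟩
  refine ⟨(Mono Γ).subgroupOf Γ, hnorm, ?_, hmin, ?_, ?_, ?_⟩
  · have hnt : Nontrivial ((Mono Γ).subgroupOf Γ) := by
      obtain ⟨⟨m, hm⟩, hm'⟩ := (Subgroup.ne_bot_iff_exists_ne_one).1 hSne
      refine ⟨⟨⟨⟨m, hS.1 hm⟩, Subgroup.mem_subgroupOf.2 hm⟩, 1, fun h => hm' ?_⟩⟩
      have h3 := congrArg (fun y : (Mono Γ).subgroupOf Γ => ((y : Γ) : E n ≃ₜ E n)) h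
      exact Subtype.ext h3
    refine ⟨fun H hH => ?_⟩
    by_cases hbot : H = ⊥
    · exact Or.inl hbot
    · right
      set M : Subgroup (E n ≃ₜ E n) :=
        (H.map ((Mono Γ).subgroupOf Γ).subtype).map Γ.subtype with hMdef
      have hM : NormIn (Mono Γ) M := by
        refine ⟨?_, ?_⟩
        · rintro _ ⟨_, ⟨x, -, rfl⟩, rfl⟩
          exact Subgroup.mem_subgroupOf.1 x.2
        · rintro g hg _ ⟨_, ⟨x, hx, rfl⟩, rfl⟩
          have h3 := hH.conj_mem x hx ⟨⟨g, hS.1 hg⟩, Subgroup.mem_subgroupOf.2 hg⟩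
          exact ⟨_, ⟨_, h3, rfl⟩, rfl⟩
      have hMne : M ≠ ⊥ := by
        intro h
        apply hbot
        rw [eq_bot_iff]
        intro x hx
        have h3 : ((x : Γ) : E n ≃ₜ E n) ∈ M := ⟨_, ⟨x, hx, rfl⟩, rfl⟩
        rw [h, Subgroup.mem_bot] at h3
        rw [Subgroup.mem_bot]
        exact Subtype.ext (Subtype.ext h3)
      have h3 := Mono_simple hT hR hn hΓ hM hMne
      rw [eq_top_iff]
      intro x _
      obtain ⟨_, ⟨y, hy, rfl⟩, hyx⟩ := h3 (Subgroup.mem_subgroupOf.1 x.2)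
      have h5 : y = x := Subtype.ext (Subtype.ext hyx)
      rwa [← h5]
  · intro φ hφ ε hε
    obtain ⟨s, hs, hsx⟩ := dens hT hR hΓ hS hSne hφ hε
    refine ⟨⟨s, hS.1 hs⟩, Subgroup.mem_subgroupOf.2 hs, fun x => ?_⟩
    rw [dist_eq_norm]
    exact hsx x
  · intro A f g κ hA hd hfA hgA
    exact Subgroup.mem_subgroupOf.2 (comm_mono hT hR hΓ hA κ.2 hd f.2 g.2 hfA hgA)
  · intro z r hr hr2 hz
    refine le_antisymm ?_ ?_
    · refine hmin _ Subgroup.normalClosure_normal fun hbot => ?_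
      obtain ⟨a, b, ha, hb, has, hbs, hab⟩ := L3 hT hn hr hz
      have h3 : (⁅(⟨a, h1 a ha⟩ : Γ), (⟨b, h1 b hb⟩ : Γ)⁆ : Γ) ∈
          Subgroup.normalClosure {y : Γ | ∃ f g : Γ, Supp (D z r) f ∧ Supp (D z r) g ∧
            y = ⁅f, g⁆} := Subgroup.subset_normalClosure ⟨_, _, has, hbs, rfl⟩
      rw [hbot, Subgroup.mem_bot] at h3
      exact hab (congrArg Subtype.val h3)
    · refine Subgroup.normalClosure_le_normal ?_
      rintro _ ⟨f, g, hf, hg, rfl⟩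
      exact Subgroup.mem_subgroupOf.2 (comm_ball hT hR hn hΓ hr hr2 hz f.2 g.2 hf hg)

theorem hT : S_TRANS := trans flow

theorem hR : S_TROT := trot flow cover bd step

end Pool.Agent.R773.HN
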