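import Pool.Agent.R773.HN.Stm3
import Pool.Agent.R773.HN.Fin
import Pool.Agent.Y453.HB.Tri
import Pool.Agent.Y945.HB.Rot

/-!
# Project HN, part 3: commutators in the smallest normal subgroup
-/

set_option autoImplicit false

open Set Filter Topology Function
open Pool.Agent.Y453.HB
open scoped commutatorElement

namespace Pool.Agent.R773.HN

theorem comm_left {G : Type*} [Group G] {Γ N : Subgroup G} (hN : NormIn Γ N) {S : Set G}
    (hS : ∀ x ∈ S, x ∈ Γ) {g : G} (h : ∀ f ∈ S, ⁅f, g⁆ ∈ N) :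
    ∀ f ∈ Subgroup.closure S, ⁅f, g⁆ ∈ N := by
  intro f hf
  have hle : Subgroup.closure S ≤ Γ := (Subgroup.closure_le _).2 hS
  induction hf using Subgroup.closure_induction with
  | mem x hx => exact h x hx
  | one =>
    rw [commutatorElement_one_left]
    exact N.one_mem
  | mul x y hx hy h1 h2 =>
    have e : ⁅x * y, g⁆ = (x * ⁅y, g⁆ * x⁻¹) * ⁅x, g⁆ := by
      simp only [commutatorElement_def]
      group
    rw [e]
    exact N.mul_mem (hN.2 x (hle hx) _ h2) h1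
  | inv x hx h1 =>
    have e : ⁅x⁻¹, g⁆ = x⁻¹ * ⁅x, g⁆⁻¹ * x⁻¹⁻¹ := by
      simp only [commutatorElement_def]
      group
    rw [e]
    exact hN.2 _ (Γ.inv_mem (hle hx)) _ (N.inv_mem h1)

theorem comm_closure {G : Type*} [Group G] {Γ N : Subgroup G} (hN : NormIn Γ N) {S : Set G}
    (hS : ∀ x ∈ S, x ∈ Γ) (h : ∀ f ∈ S, ∀ g ∈ S, ⁅f, g⁆ ∈ N) :
    ∀ f ∈ Subgroup.closure S, ∀ g ∈ Subgroup.closure S, ⁅f, g⁆ ∈ N := by
  intro f hf g hg
  have h1 : ∀ g ∈ S, ⁅g, f⁆ ∈ N := fun g hg => by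
    have := comm_left hN hS (g := g) (fun f hf => h f hf g hg) f hf
    rw [← commutatorElement_inv]
    exact N.inv_mem this
  have h2 := comm_left hN hS h1 g hg
  rw [← commutatorElement_inv]
  exact N.inv_mem h2

variable {n : ℕ}

theorem Q_le_of_nm {x : E n} {r : ℝ} (h : nm x ≤ r) : Q x ≤ r ^ 2 := by
  have hQ0 : 0 ≤ Q x := (tri n).2.2.2.2.2.1 x
  have h1 : Q x = nm x ^ 2 := by
    unfold nm
    rw [Real.sq_sqrt hQ0]
  rw [h1]
  exact pow_le_pow_left₀ (nm_nonneg x) h 2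

theorem comm_small (hn : 0 < n) {Γ : Subgroup (E n ≃ₜ E n)} (hΓ : Mid Γ) :
    ∀ f ∈ small n (1 / 100), ∀ g ∈ small n (1 / 100), ⁅f, g⁆ ∈ Mono Γ := by
  rintro f ⟨hf, q, ρ, hρ, hρε, hq, hfs⟩ g ⟨hg, q', ρ', hρ', hρ'ε, hq', hgs⟩
  by_cases hd : Disjoint (D q ρ) (D q' ρ')
  · rw [commutatorElement_eq_one_iff_mul_comm.2 (hfs.commute hd hgs)]
    exact (Mono Γ).one_mem
  rw [Set.not_disjoint_iff] at hd
  obtain ⟨x₀, hx1, hx2⟩ := hd
  have h1 : nm (x₀ - q) ≤ ρ := hx1
  have h2 : nm (x₀ - q') ≤ ρ' := hx2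
  have hqq : nm (q' - q) ≤ 2 / 100 := by
    have h3 := nm_tri q' x₀ q
    rw [nm_sub_comm q' x₀] at h3
    linarith
  have hf1 : D q ρ ⊆ D q (3 / 100) := fun x hx => by
    have h3 : nm (x - q) ≤ ρ := hx
    show nm (x - q) ≤ 3 / 100
    linarith
  have hg1 : D q' ρ' ⊆ D q (3 / 100) := fun x hx => by
    have h3 : nm (x - q') ≤ ρ' := hx
    have h4 := nm_tri x q' q
    show nm (x - q) ≤ 3 / 100
    linarith
  rcases lt_or_ge (nm q) (1 / 4) with hq4 | hq4
  · exact comm_ball hT hR hn hΓ (z := q) (r := 3 / 100) (by norm_num) (by norm_num) (by linarith)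
      (hΓ.ham f hf) (hΓ.ham g hg) (hfs.mono hf1) (hgs.mono hg1)
  · set r' : ℝ := max (nm q + ρ) (nm q' + ρ') with hr'
    have hr'1 : r' < 1 := max_lt hq hq'
    have hr'0 : 0 < r' := by
      have := le_max_left (nm q + ρ) (nm q' + ρ')
      linarith
    set d : ℝ := min (1 / 100) ((1 - r') / 2) with hdd
    have hd0 : 0 < d := lt_min (by norm_num) (by linarith)
    have hd1 : d ≤ 1 / 100 := min_le_left _ _
    have hd2 : d ≤ (1 - r') / 2 := min_le_right _ _
    obtain ⟨R, a, hRh, hQa, hRx⟩ := Pool.Agent.Y945.HB.rot tri n hn r' d hr'0 hd0 (by linarith)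
    have ha : nm a = d := by
      unfold nm
      rw [hQa, Real.sqrt_sq hd0.le]
    set A : Set (E n) := D q (3 / 100) ∩ {x | nm x ≤ r'} with hA
    have hAc : IsCompact A :=
      (D_compact q _).inter_right (isClosed_le nm_cont continuous_const)
    have hfA : D q ρ ⊆ A := fun x hx => by
      refine ⟨hf1 hx, ?_⟩
      have h3 : nm (x - q) ≤ ρ := hx
      have h4 := nm_add (x - q) q
      rw [sub_add_cancel] at h4
      have h5 := le_max_left (nm q + ρ) (nm q' + ρ')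
      show nm x ≤ r'
      linarith
    have hgA : D q' ρ' ⊆ A := fun x hx => by
      refine ⟨hg1 hx, ?_⟩
      have h3 : nm (x - q') ≤ ρ' := hx
      have h4 := nm_add (x - q') q'
      rw [sub_add_cancel] at h4
      have h5 := le_max_right (nm q + ρ) (nm q' + ρ')
      show nm x ≤ r'
      linarith
    have hdis : Disjoint (R '' A) A := by
      rw [Set.disjoint_left]
      rintro _ ⟨x, hx, rfl⟩ hy
      rw [hRx x (Q_le_of_nm hx.2)] at hy
      have h3 : nm (x - q) ≤ 3 / 100 := hx.1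
      have h4 : nm (a - x - q) ≤ 3 / 100 := hy.1
      have h5 := nm_add (a - x - q) (x - q)
      have e1 : a - x - q + (x - q) = -((2 : ℝ) • q - a) := by
        rw [two_smul]
        abel
      rw [e1, nm_neg] at h5
      have h6 := nm_add ((2 : ℝ) • q - a) a
      rw [sub_add_cancel, nm_smul, ha, abs_of_pos (show (0 : ℝ) < 2 by norm_num)] at h6
      linarith
    exact comm_mono hT hR hΓ hAc (hΓ.ham R hRh) hdis (hΓ.ham f hf) (hΓ.ham g hg)
      (hfs.mono hfA) (hgs.mono hgA)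

theorem comm3 (h : S_FRAG) : S_COMM := by
  intro n hn Γ hΓ f g hf hg
  refine comm_closure (Mono_norm Γ) (S := small n (1 / 100)) (fun x hx => hΓ.ham x hx.1)
    (comm_small hn hΓ) f ?_ g ?_
  · exact h n f hf (1 / 100) (by norm_num) (by norm_num)
  · exact h n g hg (1 / 100) (by norm_num) (by norm_num)

end Pool.Agent.R773.HN

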