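import Pool.Agent.Y453.HB.Stm

/-!
# Groups between `Ham_c(B)` and the group of Hamiltonian homeomorphisms: definitions
-/

set_option autoImplicit false

open Set
open Pool.Agent.Y453.HB (E Q IsHam HamBar)
open scoped commutatorElement

namespace Pool.Agent.R773.HN

/-- the group of the homeomorphisms of `ℝ^{2n}` -/
def Homeos (n : ℕ) : Type := E n ≃ₜ E n

noncomputable instance (n : ℕ) : Group (Homeos n) := inferInstanceAs (Group (E n ≃ₜ E n))

/-- the underlying homeomorphism -/
def Homeos.homeo {n : ℕ} (f : Homeos n) : E n ≃ₜ E n := f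

/-- the homeomorphism as a map -/
def Homeos.map {n : ℕ} (f : Homeos n) (x : E n) : E n := f.homeo x

/-- the elements of `Ham_c(B)` -/
def IsHamDiffeo {n : ℕ} (u : Homeos n) : Prop := IsHam u.homeo

/-- the group of compactly supported Hamiltonian homeomorphisms of the open unit ball `B` -/
def HamHomeo (n : ℕ) : Subgroup (Homeos n) := HamBar n

/-- `Γ` contains `Ham_c(B)` and is contained in `HamHomeo n` -/
def IsIntermediate {n : ℕ} (Γ : Subgroup (Homeos n)) : Prop :=
  (∀ u : Homeos n, IsHamDiffeo u → u ∈ Γ) ∧ Γ ≤ HamHomeo n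

/-- `f` is supported in `A` -/
def SupportedIn {n : ℕ} {Γ : Subgroup (Homeos n)} (A : Set (E n)) (f : Γ) : Prop :=
  ∀ x, x ∉ A → f.1.map x = x

/-- `κ` displaces `A` from itself -/
def Displaces {n : ℕ} {Γ : Subgroup (Homeos n)} (κ : Γ) (A : Set (E n)) : Prop :=
  Disjoint (κ.1.map '' A) A

/-- the subset of `Γ` is dense in `HamHomeo n` with respect to uniform convergence -/
def DenseInHam {n : ℕ} {Γ : Subgroup (Homeos n)} (S : Set Γ) : Prop :=
  ∀ φ ∈ HamHomeo n, ∀ ε : ℝ, 0 < ε → ∃ s ∈ S, ∀ x, dist (s.1.map x) (φ.map x) < ε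

/-- the closed ball with centre `z` and radius `r` -/
def CBall {n : ℕ} (z : E n) (r : ℝ) : Set (E n) := {x | √(Q (x - z)) ≤ r}

/-- the commutators of elements of `Γ` supported in `A` -/
def Comms {n : ℕ} (Γ : Subgroup (Homeos n)) (A : Set (E n)) : Set Γ :=
  {y | ∃ f g : Γ, SupportedIn A f ∧ SupportedIn A g ∧ y = ⁅f, g⁆}

end Pool.Agent.R773.HN
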