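import Pool.Agent.R773.HN.Fin
import Pool.Agent.R773.HN.Comm3
import Pool.Agent.R773.HN.Stm3
import Pool.Agent.R773.HN.Defs

/-!
# Project HN, third part: the smallest normal subgroup and small supports
-/

set_option autoImplicit false

open Set Filter Topology Function
open Pool.Agent.Y453.HB
open scoped commutatorElement

namespace Pool.Agent.R773.HN

variable {n : ℕ}

/-- commutators of elements with small supports -/
def S_SMALL : Prop := ∀ (n : ℕ), 0 < n → ∀ Γ : Subgroup (E n ≃ₜ E n), Mid Γ →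
  ∀ (q q' : E n) (ρ ρ' : ℝ), 0 < ρ → 0 < ρ' → ρ ≤ 1 / 50 → ρ' ≤ 1 / 50 → nm q + ρ < 1 →
  nm q' + ρ' < 1 → ∀ f g : E n ≃ₜ E n, f ∈ Γ → g ∈ Γ → Supp (D q ρ) f → Supp (D q' ρ') g →
  ⁅f, g⁆ ∈ Mono Γ

/-- the elements of `Γ` commuting with `y` modulo `N` -/
def CN {G : Type*} [Group G] (Γ N : Subgroup G) (h : NormIn Γ N) (y : G) : Subgroup G where
  carrier := {x | x ∈ Γ ∧ ⁅x, y⁆ ∈ N}
  one_mem' := ⟨Γ.one_mem, by rw [commutatorElement_one_left]; exact N.one_mem⟩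
  mul_mem' := by
    rintro a b ⟨ha, ha'⟩ ⟨hb, hb'⟩
    refine ⟨Γ.mul_mem ha hb, ?_⟩
    have e : ⁅a * b, y⁆ = a * ⁅b, y⁆ * a⁻¹ * ⁅a, y⁆ := by
      simp only [commutatorElement_def]
      group
    rw [e]
    exact N.mul_mem (h.2 a ha _ hb') ha'
  inv_mem' := by
    rintro a ⟨ha, ha'⟩
    refine ⟨Γ.inv_mem ha, ?_⟩
    have e : ⁅a⁻¹, y⁆ = a⁻¹ * ⁅a, y⁆⁻¹ * a⁻¹⁻¹ := by
      simp only [commutatorElement_def]
      group
    rw [e]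
    exact h.2 _ (Γ.inv_mem ha) _ (N.inv_mem ha')

theorem comm_conj (hsm : S_SMALL) (hn : 0 < n) {Γ : Subgroup (E n ≃ₜ E n)} (hΓ : Mid Γ)
    {ε : ℝ} (hε : ε ≤ 1 / 100) {α f g : E n ≃ₜ E n} (hα : α ∈ Γ) (hf : f ∈ Γ) (hg : g ∈ Γ)
    {q q' : E n} {ρ ρ' : ℝ} (h0 : 0 < ρ) (h1 : ρ ≤ ε) (h2 : nm q + ρ < 1) (h3 : Supp (D q ρ) f)
    (h0' : 0 < ρ') (h1' : ρ' ≤ ε) (h2' : nm q' + ρ' < 1) (h3' : Supp (D q' ρ') g) :
    ⁅α * f * α⁻¹, g⁆ ∈ Mono Γ := by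
  obtain ⟨η, hη, hη'⟩ := exists_between
    (show (0 : ℝ) < min (1 / 100) (1 - nm q - ρ) from lt_min (by norm_num) (by linarith))
  have hη1 := hη'.trans_le (min_le_left _ _)
  have hη2 := hη'.trans_le (min_le_right _ _)
  obtain ⟨δ, hδ, hδ'⟩ := D_nhds (0 : E n) hη
  obtain ⟨s, hs, hsx⟩ := dens hT hR hΓ (Mono_norm Γ) (Mono_ne hT hR hn hΓ)
    (hΓ.le (Γ.inv_mem hα)) hδ
  have hsΓ : s ∈ Γ := (Mono_norm Γ).1 hs
  set w := s * α * f * (s * α)⁻¹ with hw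
  have hwΓ : w ∈ Γ := Γ.mul_mem (Γ.mul_mem (Γ.mul_mem hsΓ hα) hf) (Γ.inv_mem (Γ.mul_mem hsΓ hα))
  have hws : Supp (D q (ρ + η)) w := by
    refine (h3.conj (s * α)).mono ?_
    rintro _ ⟨x, hx, rfl⟩
    have h4 : ‖s (α x) - x‖ < δ := by
      have := hsx (α x)
      rwa [inv_apply_self] at this
    have h5 : nm (s (α x) - x) ≤ η := by
      have := hδ' (show s (α x) - x ∈ Metric.closedBall (0 : E n) δ by
        rw [mem_closedBall_zero_iff]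
        exact h4.le)
      have h6 : nm (s (α x) - x - 0) ≤ η := this
      rwa [sub_zero] at h6
    have h6 := nm_tri (s (α x)) x q
    have h7 : nm (x - q) ≤ ρ := hx
    show nm (s (α x) - q) ≤ ρ + η
    linarith
  have key : ⁅w, g⁆ ∈ Mono Γ := hsm n hn Γ hΓ q q' (ρ + η) ρ' (by linarith) h0' (by linarith)
    (by linarith) (by linarith) h2' w g hwΓ hg hws h3'
  have hw' : w ∈ CN Γ (Mono Γ) (Mono_norm Γ) g := ⟨hwΓ, key⟩
  have hs' : s ∈ CN Γ (Mono Γ) (Mono_norm Γ) g := by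
    refine ⟨hsΓ, ?_⟩
    have e : ⁅s, g⁆ = s * (g * s⁻¹ * g⁻¹) := by
      simp only [commutatorElement_def]
      group
    rw [e]
    exact (Mono Γ).mul_mem hs ((Mono_norm Γ).2 g hg _ ((Mono Γ).inv_mem hs))
  have e : α * f * α⁻¹ = s⁻¹ * w * s := by
    rw [hw]
    group
  rw [e]
  exact ((CN Γ (Mono Γ) (Mono_norm Γ) g).mul_mem ((CN Γ (Mono Γ) (Mono_norm Γ) g).mul_mem
    ((CN Γ (Mono Γ) (Mono_norm Γ) g).inv_mem hs') hw') hs').2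

/-! ### in the group `Γ` -/

theorem MS_normal (Γ : Subgroup (E n ≃ₜ E n)) : ((Mono Γ).subgroupOf Γ).Normal :=
  ⟨fun x hx g => by
    rw [Subgroup.mem_subgroupOf] at hx ⊢
    exact (Mono_norm Γ).2 g g.2 x hx⟩

theorem MS_le {Γ : Subgroup (E n ≃ₜ E n)} {N : Subgroup Γ} (hN : N.Normal) (hne : N ≠ ⊥) :
    (Mono Γ).subgroupOf Γ ≤ N := by
  have h3 : NormIn Γ (N.map Γ.subtype) := by
    refine ⟨?_, ?_⟩
    · rintro _ ⟨x, -, rfl⟩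
      exact x.2
    · rintro g hg _ ⟨x, hx, rfl⟩
      exact ⟨⟨g, hg⟩ * x * ⟨g, hg⟩⁻¹, hN.conj_mem x hx ⟨g, hg⟩, rfl⟩
  have h4 : N.map Γ.subtype ≠ ⊥ := by
    intro h
    apply hne
    rw [eq_bot_iff]
    intro x hx
    have h3 : (x : E n ≃ₜ E n) ∈ N.map Γ.subtype := ⟨x, hx, rfl⟩
    rw [h, Subgroup.mem_bot] at h3
    rw [Subgroup.mem_bot]
    exact Subtype.ext h3
  intro x hx
  obtain ⟨y, hy, hyx⟩ := Mono_le h3 h4 (Subgroup.mem_subgroupOf.1 hx)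
  have h5 : y = x := Subtype.ext hyx
  rwa [← h5]

theorem MS_ne (hn : 0 < n) {Γ : Subgroup (E n ≃ₜ E n)} (hΓ : Mid Γ) :
    (Mono Γ).subgroupOf Γ ≠ ⊥ := by
  obtain ⟨⟨m, hm⟩, hm'⟩ := (Subgroup.ne_bot_iff_exists_ne_one).1 (Mono_ne hT hR hn hΓ)
  intro h
  apply hm'
  have h1 : (⟨m, (Mono_norm Γ).1 hm⟩ : Γ) ∈ (Mono Γ).subgroupOf Γ := Subgroup.mem_subgroupOf.2 hm
  rw [h, Subgroup.mem_bot] at h1
  exact Subtype.ext (congrArg (fun y : Γ => (y : E n ≃ₜ E n)) h1)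

/-- the elements of `Γ` supported in balls of radius at most `ε` -/
def SmS (Γ : Subgroup (E n ≃ₜ E n)) (ε : ℝ) : Set Γ :=
  {f | ∃ (z : E n) (ρ : ℝ), 0 < ρ ∧ ρ ≤ ε ∧ nm z + ρ < 1 ∧ Supp (D z ρ) (f : E n ≃ₜ E n)}

theorem MS_eq (hsm : S_SMALL) (hn : 0 < n) {Γ : Subgroup (E n ≃ₜ E n)} (hΓ : Mid Γ)
    {ε : ℝ} (hε0 : 0 < ε) (hε : ε ≤ 1 / 100) : (Mono Γ).subgroupOf Γ =
      ⁅Subgroup.normalClosure (SmS Γ ε), Subgroup.normalClosure (SmS Γ ε)⁆ := by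
  have hnorm := MS_normal Γ
  refine le_antisymm (MS_le inferInstance ?_) ?_
  · intro h
    obtain ⟨a, b, ha, hb, has, hbs, hab⟩ := L3 hT hn (q := (0 : E n)) (r := ε) hε0
      (by rw [nm_zero]; linarith)
    have h1 : ∀ c : E n ≃ₜ E n, (hc : IsHam c) → Supp (D 0 ε) c →
        (⟨c, hΓ.ham c hc⟩ : Γ) ∈ Subgroup.normalClosure (SmS Γ ε) := fun c hc hcs =>
      Subgroup.subset_normalClosure ⟨0, ε, hε0, le_rfl, by rw [nm_zero]; linarith, hcs⟩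
    have h2 := Subgroup.commutator_mem_commutator (h1 a ha has) (h1 b hb hbs)
    rw [h, Subgroup.mem_bot] at h2
    exact hab (congrArg Subtype.val h2)
  · rw [Subgroup.commutator_le]
    have hN : NormIn (⊤ : Subgroup Γ) ((Mono Γ).subgroupOf Γ) :=
      ⟨le_top, fun g _ x hx => hnorm.conj_mem x hx g⟩
    refine comm_closure hN (fun _ _ => Subgroup.mem_top _) ?_
    intro x hx y hy
    obtain ⟨f, ⟨q, ρ, h0, h1, h2, h3⟩, hfx⟩ := Group.mem_conjugatesOfSet_iff.1 hx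
    obtain ⟨g, ⟨q', ρ', h0', h1', h2', h3'⟩, hgy⟩ := Group.mem_conjugatesOfSet_iff.1 hy
    obtain ⟨c, rfl⟩ := isConj_iff.1 hfx
    obtain ⟨d, rfl⟩ := isConj_iff.1 hgy
    have h4 : ⁅(d⁻¹ * c) * f * (d⁻¹ * c)⁻¹, g⁆ ∈ (Mono Γ).subgroupOf Γ := by
      rw [Subgroup.mem_subgroupOf]
      exact comm_conj hsm hn hΓ hε (d⁻¹ * c : Γ).2 f.2 g.2 h0 h1 h2 h3 h0' h1' h2' h3'
    have h5 := hnorm.conj_mem _ h4 d
    have e : d * ⁅(d⁻¹ * c) * f * (d⁻¹ * c)⁻¹, g⁆ * d⁻¹ = ⁅c * f * c⁻¹, d * g * d⁻¹⁆ := by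
      simp only [commutatorElement_def]
      group
    rwa [e] at h5

theorem main_of' (hsm : S_SMALL) (hC : S_COMM) (hn : 0 < n) (Γ : Subgroup (E n ≃ₜ E n))
    (h1 : ∀ u : E n ≃ₜ E n, IsHam u → u ∈ Γ) (h2 : Γ ≤ HamBar n) :
    ∃ S : Subgroup Γ, S.Normal ∧ IsSimpleGroup S ∧
      (∀ N : Subgroup Γ, N.Normal → N ≠ ⊥ → S ≤ N) ∧
      (∀ φ ∈ HamBar n, ∀ ε : ℝ, 0 < ε → ∃ s ∈ S, ∀ x, dist ((s : E n ≃ₜ E n) x) (φ x) < ε) ∧
      (∀ (A : Set (E n)) (f g κ : Γ), IsCompact A → Disjoint ((κ : E n ≃ₜ E n) '' A) A →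
        Supp A f → Supp A g → ⁅f, g⁆ ∈ S) ∧
      (∀ f g : Γ, IsHam (f : E n ≃ₜ E n) → IsHam (g : E n ≃ₜ E n) → ⁅f, g⁆ ∈ S) ∧
      (∀ (z : E n) (r : ℝ), 0 < r → r < 1 / 2 → nm z + r < 1 →
        S = Subgroup.normalClosure {y : Γ | ∃ f g : Γ, Supp (D z r) f ∧ Supp (D z r) g ∧
          y = ⁅f, g⁆}) ∧
      ∀ ε : ℝ, 0 < ε → ε ≤ 1 / 100 →
        S = ⁅Subgroup.normalClosure (SmS Γ ε), Subgroup.normalClosure (SmS Γ ε)⁆ ∧
        (IsSimpleGroup Γ ↔ Subgroup.normalClosure (SmS Γ ε) = ⊤ ∧ commutator Γ = ⊤) := by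
  have hΓ : Mid Γ := ⟨h1, h2⟩
  obtain ⟨S, s1, s2, s3, s4, s5, s6⟩ := main_of hT hR hn Γ h1 h2
  have hSne : S ≠ ⊥ := by
    rintro rfl
    have := s2.toNontrivial
    exact not_subsingleton _ (inferInstance : Subsingleton (⊥ : Subgroup Γ))
  have hSe : S = (Mono Γ).subgroupOf Γ :=
    le_antisymm (s3 _ (MS_normal Γ) (MS_ne hn hΓ)) (MS_le s1 hSne)
  have hfr : ∀ ε : ℝ, 0 < ε → ε ≤ 1 / 100 →
      S = ⁅Subgroup.normalClosure (SmS Γ ε), Subgroup.normalClosure (SmS Γ ε)⁆ := by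
    intro ε hε0 hε
    rw [hSe]
    exact MS_eq hsm hn hΓ hε0 hε
  refine ⟨S, s1, s2, s3, s4, s5, fun f g hf hg => ?_, s6, fun ε hε0 hε => ⟨hfr ε hε0 hε, ?_, ?_⟩⟩
  · rw [hSe]
    exact Subgroup.mem_subgroupOf.2 (hC n hn Γ hΓ f g hf hg)
  · intro hs
    have hSt : S = ⊤ := by
      rcases hs.eq_bot_or_eq_top_of_normal S s1 with h | h
      · exact absurd h hSne
      · exact h
    have h3 := hfr ε hε0 hε
    rw [hSt] at h3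
    refine ⟨?_, ?_⟩
    · rw [eq_top_iff, h3]
      exact Subgroup.commutator_le_left _ _
    · rw [eq_top_iff, h3]
      exact Subgroup.commutator_mono le_top le_top
  · rintro ⟨h3, h4⟩
    have h5 := hfr ε hε0 hε
    rw [h3] at h5
    have hSt : S = ⊤ := h5.trans h4
    have hnt : Nontrivial Γ := by
      obtain ⟨x, hx⟩ := (Subgroup.ne_bot_iff_exists_ne_one).1 hSne
      exact ⟨⟨x, 1, fun h => hx (Subtype.ext h)⟩⟩
    refine ⟨fun N hN => ?_⟩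
    by_cases hb : N = ⊥
    · exact Or.inl hb
    · right
      rw [eq_top_iff, ← hSt]
      exact s3 N hN hb

end Pool.Agent.R773.HN
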