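import Pool.Agent.R773.HN.Defs

/-!
# Elements with small supports: definitions
-/

set_option autoImplicit false

open Set
open Pool.Agent.Y453.HB (E Q)

namespace Pool.Agent.R773.HN

/-- the elements of `Γ` supported in some closed ball of radius at most `ε` inside the open unit
ball -/
def SmallSupp {n : ℕ} (Γ : Subgroup (Homeos n)) (ε : ℝ) : Set Γ :=
  {f | ∃ (z : E n) (ρ : ℝ), 0 < ρ ∧ ρ ≤ ε ∧ √(Q z) + ρ < 1 ∧ SupportedIn (CBall z ρ) f}

/-- the normal subgroup of `Γ` generated by the elements supported in balls of radius at most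
`ε` -/
noncomputable def FragGroup {n : ℕ} (Γ : Subgroup (Homeos n)) (ε : ℝ) : Subgroup Γ :=
  Subgroup.normalClosure (SmallSupp Γ ε)

end Pool.Agent.R773.HN
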