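import Pool.Agent.R773.HN.Stm3

/-!
# Project HN, third part: fragmentation from the fragmentation of short time maps (helper415)
-/

set_option autoImplicit false

open Set Filter Topology Function
open Pool.Agent.Y453.HB

namespace Pool.Agent.R773.HN

theorem frag (hF : S_TFLOW) (hU : S_UNI) (h1 : S_FRAG1) : S_FRAG := by
  intro n u hu ε hε hε1
  obtain ⟨H, hH, ⟨K, hKc, hK1, hK0⟩, ψ, hψ0, hψ, hu1⟩ := hu
  have hHK : HamOn H K := ⟨hH, hKc, hK1, fun t x hx => hK0 t x hx⟩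
  obtain ⟨δ, hδ, hfr⟩ := h1 n H K hHK ε hε hε1
  obtain ⟨m, hm⟩ := exists_nat_gt (1 / δ)
  have hm0 : (0 : ℝ) < m := lt_trans (by positivity) hm
  have hmδ : 1 / (m : ℝ) ≤ δ := by
    rw [div_le_iff₀ hm0]
    rw [div_lt_iff₀ hδ] at hm
    linarith
  have key : ∀ k : ℕ, k ≤ m → ∃ w ∈ Subgroup.closure (small n ε),
      ∀ x, w x = ψ ((k : ℝ) / m) x := by
    intro k
    induction k with
    | zero =>
      intro _
      refine ⟨1, Subgroup.one_mem _, fun x => ?_⟩
      rw [Nat.cast_zero, zero_div, hψ0]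
      rfl
    | succ k ih =>
      intro hk
      obtain ⟨w, hw, hwx⟩ := ih (by omega)
      have hs0 : (0 : ℝ) ≤ (k : ℝ) / m := by positivity
      have hst : (k : ℝ) / m ≤ ((k + 1 : ℕ) : ℝ) / m := by
        apply div_le_div_of_nonneg_right _ hm0.le
        push_cast; linarith
      have ht1 : ((k + 1 : ℕ) : ℝ) / m ≤ 1 := by
        rw [div_le_one hm0]
        exact_mod_cast hk
      have hd : ((k + 1 : ℕ) : ℝ) / m - (k : ℝ) / m ≤ δ := by
        have : ((k + 1 : ℕ) : ℝ) / m - (k : ℝ) / m = 1 / m := by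
          push_cast; ring
        rw [this]; exact hmδ
      obtain ⟨v, -, hv⟩ := hF n H K hHK _ _ hs0 hst ht1
      refine ⟨v * w, Subgroup.mul_mem _ (hfr _ _ hs0 hst ht1 hd v hv) hw, fun x => ?_⟩
      obtain ⟨γ, hγ0, hγ1, hγ⟩ := hv (w x)
      have h := hU n H K hHK _ _ hs0 hst ht1 γ (fun s => ψ s x)
        (by rw [hγ0, hwx]) hγ (fun τ _ => hψ τ x) _ (right_mem_Icc.2 hst)
      have e : (v * w) x = v (w x) := rfl
      rw [e, ← hγ1, h]
  obtain ⟨w, hw, hwx⟩ := key m le_rfl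
  have e : w = u := by
    apply Homeomorph.ext
    intro x
    rw [hwx, div_self hm0.ne', hu1]
  rw [← e]
  exact hw

end Pool.Agent.R773.HN
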