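import Pool.Agent.R773.HN.Stm3

/-!
# HN3-FRAG1: fragmentation of the time `s` to `t` maps of a Hamiltonian flow, `t - s` small
-/

set_option autoImplicit false

open Set Filter Topology Function
open Pool.Agent.Y453.HB

namespace Pool.Agent.R773.HN

namespace F1

variable {n : ℕ}

theorem XH_congr {h h' : E n → ℝ} {p : E n} (e : h =ᶠ[𝓝 p] h') : XH h p = XH h' p := by
  unfold XH
  rw [e.fderiv_eq]

theorem nm_le (x : E n) : nm x ≤ (2 * (n : ℝ) + 1) * ‖x‖ := by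
  unfold nm
  refine Real.sqrt_le_iff.2 ⟨by positivity, ?_⟩
  have h1 : ∀ i : Fin n, (x.1 i) ^ 2 + (x.2 i) ^ 2 ≤ 2 * ‖x‖ ^ 2 := by
    intro i
    have h2 : |x.1 i| ≤ ‖x‖ := (norm_le_pi_norm x.1 i).trans (norm_fst_le x)
    have h3 : |x.2 i| ≤ ‖x‖ := (norm_le_pi_norm x.2 i).trans (norm_snd_le x)
    have h4 : (x.1 i) ^ 2 ≤ ‖x‖ ^ 2 := sq_le_sq' (abs_le.1 h2).1 (abs_le.1 h2).2
    have h5 : (x.2 i) ^ 2 ≤ ‖x‖ ^ 2 := sq_le_sq' (abs_le.1 h3).1 (abs_le.1 h3).2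
    linarith
  have h6 : Q x ≤ (n : ℝ) * (2 * ‖x‖ ^ 2) := by
    unfold Q
    refine (Finset.sum_le_sum fun i _ => h1 i).trans ?_
    simp
  have h7 : (0 : ℝ) ≤ n := Nat.cast_nonneg n
  have h8 : 0 ≤ ‖x‖ ^ 2 := sq_nonneg _
  have h9 : ((2 * (n : ℝ) + 1) * ‖x‖) ^ 2 = (2 * (n : ℝ) + 1) ^ 2 * ‖x‖ ^ 2 := by ring
  rw [h9]
  nlinarith [mul_nonneg h7 h8, mul_nonneg (mul_nonneg h7 h7) h8]

/-- a map is determined by the equation -/
theorem isFl_unique (hU : S_UNI) {H : ℝ → E n → ℝ} {K : Set (E n)} (hH : HamOn H K) {s t : ℝ}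
    (hs : 0 ≤ s) (hst : s ≤ t) (ht : t ≤ 1) {u v : E n ≃ₜ E n} (hu : IsFl H s t u)
    (hv : IsFl H s t v) : u = v := by
  ext x : 1
  obtain ⟨γ, h1, h2, h3⟩ := hu x
  obtain ⟨γ', h1', h2', h3'⟩ := hv x
  rw [← h2, ← h2']
  exact hU n H K hH s t hs hst ht γ γ' (h1.trans h1'.symm) h3 h3' t ⟨hst, le_rfl⟩

/-- two Hamiltonians that agree off a ball -/
theorem agree (hU : S_UNI) {H H' : ℝ → E n → ℝ} {K : Set (E n)} (hH' : HamOn H' K) {C : ℝ}
    (hC : ∀ t ∈ Icc (0 : ℝ) 1, ∀ x, ‖XH (H t) x‖ ≤ C) {q : E n} {r η : ℝ}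
    (he : ∀ t x, x ∉ D q r → H t x = H' t x) {s t : ℝ} (hs : 0 ≤ s) (hst : s ≤ t) (ht : t ≤ 1)
    (hd : (2 * (n : ℝ) + 1) * (C * (t - s)) ≤ η) {u u' : E n ≃ₜ E n} (hu : IsFl H s t u)
    (hu' : IsFl H' s t u') {x : E n} (hx : x ∉ D q (r + η)) : u' x = u x := by
  obtain ⟨γ, h1, h2, h3⟩ := hu x
  obtain ⟨γ', h1', h2', h3'⟩ := hu' x
  have hn : (0 : ℝ) ≤ 2 * (n : ℝ) + 1 := by positivity
  have hC0 : 0 ≤ C := (norm_nonneg _).trans (hC 0 ⟨le_rfl, zero_le_one⟩ x)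
  have h4 : ∀ τ ∈ Icc s t, ‖γ τ - γ s‖ ≤ C * (τ - s) := by
    refine norm_image_sub_le_of_norm_deriv_le_segment'
      (f' := fun τ => XH (H τ) (γ τ)) (fun τ hτ => (h3 τ hτ).hasDerivWithinAt) ?_
    intro τ hτ
    exact hC τ ⟨hs.trans hτ.1, hτ.2.le.trans ht⟩ _
  have h5 : ∀ τ ∈ Icc s t, γ τ ∉ D q r := by
    intro τ hτ hm
    apply hx
    show nm (x - q) ≤ r + η
    have h6 : nm (γ τ - q) ≤ r := hm
    have h7 := nm_tri x (γ τ) q
    have h8 : nm (x - γ τ) ≤ η := by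
      rw [nm_sub_comm]
      refine (nm_le _).trans (le_trans ?_ hd)
      refine mul_le_mul_of_nonneg_left ?_ hn
      have h9 := h4 τ hτ
      rw [h1] at h9
      exact h9.trans (mul_le_mul_of_nonneg_left (by linarith [hτ.2]) hC0)
    linarith
  have h10 : ∀ τ ∈ Icc s t, HasDerivAt γ (XH (H' τ) (γ τ)) τ := by
    intro τ hτ
    have h11 : H τ =ᶠ[𝓝 (γ τ)] H' τ := by
      filter_upwards [(D_closed q r).isOpen_compl.mem_nhds (h5 τ hτ)] with y hy
      exact he τ y hy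
    rw [← XH_congr h11]
    exact h3 τ hτ
  rw [← h2, ← h2']
  exact hU n H' K hH' s t hs hst ht γ' γ (h1'.trans h1.symm) h3' h10 t ⟨hst, le_rfl⟩

end F1

open F1 in
theorem frag1 (hC : S_COVER) (hB : S_BD) (hF : S_TFLOW) (hU : S_UNI) : S_FRAG1 := by
  intro n H K hH ε hε hε1
  obtain ⟨hHs, hK, hKQ, hH0⟩ := hH
  obtain ⟨N, q, χ, hq, hχs, hχ0, hχ1⟩ := hC n K hK hKQ (ε / 2) (half_pos hε) (by linarith)
  -- the partial sums
  let Hk : ℕ → ℝ → E n → ℝ := fun k t x =>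
    (∑ i ∈ Finset.univ.filter (fun i : Fin N => (i : ℕ) < k), χ i x) * H t x
  have hk : ∀ k, HamOn (Hk k) K := by
    intro k
    refine ⟨?_, hK, hKQ, fun t x hx => ?_⟩
    · show ContDiff ℝ ((⊤ : ℕ∞) : WithTop ℕ∞) (fun p : ℝ × E n =>
        (∑ i ∈ Finset.univ.filter (fun i : Fin N => (i : ℕ) < k), χ i p.2) * uncurry H p)
      exact (ContDiff.sum fun i _ => (hχs i).comp contDiff_snd).mul hHs
    · show _ * H t x = 0
      rw [hH0 t x hx, mul_zero]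
  have hkN : Hk N = H := by
    funext t x
    show (∑ i ∈ Finset.univ.filter (fun i : Fin N => (i : ℕ) < N), χ i x) * H t x = H t x
    by_cases hx : x ∈ K
    · rw [Finset.filter_true_of_mem fun i _ => i.2, hχ1 x hx, one_mul]
    · rw [hH0 t x hx, mul_zero]
  have hk0 : Hk 0 = fun _ _ => 0 := by
    funext t x
    show (∑ i ∈ Finset.univ.filter (fun i : Fin N => (i : ℕ) < 0), χ i x) * H t x = 0
    simp
  -- the bound
  choose C hC0 hCb _ using fun k => hB n (Hk k) (hk k).1 K hK (hk k).2.2.2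
  let M : ℝ := ∑ k ∈ Finset.range (N + 1), C k
  have hM : ∀ k ≤ N, C k ≤ M := fun k hkN =>
    Finset.single_le_sum (f := C) (fun i _ => hC0 i) (Finset.mem_range.2 (by omega))
  have hM0 : 0 ≤ M := Finset.sum_nonneg fun i _ => hC0 i
  obtain ⟨η, hη, hηε, hηq⟩ : ∃ η : ℝ, 0 < η ∧ η ≤ ε / 2 ∧ ∀ i, nm (q i) + ε / 2 + η < 1 := by
    have h1 : ∀ᶠ η in 𝓝[>] (0 : ℝ), 0 < η ∧ η ≤ ε / 2 ∧ ∀ i, nm (q i) + ε / 2 + η < 1 := by
      have h2 : ∀ᶠ η in 𝓝[>] (0 : ℝ), ∀ i, η ∈ Ioo (0 : ℝ) (1 - nm (q i) - ε / 2) :=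
        eventually_all.2 fun i => Ioo_mem_nhdsGT (by linarith [hq i])
      filter_upwards [Ioc_mem_nhdsGT (half_pos hε), h2] with η h3 h4
      exact ⟨h3.1, h3.2, fun i => by linarith [(h4 i).2]⟩
    exact h1.exists
  have hn : (0 : ℝ) < 2 * (n : ℝ) + 1 := by positivity
  refine ⟨η / ((2 * (n : ℝ) + 1) * (M + 1)), by positivity, ?_⟩
  intro s t hs hst ht hδ u hu
  have hd : ∀ k ≤ N, (2 * (n : ℝ) + 1) * (C k * (t - s)) ≤ η := by
    intro k hkN
    have h1 : C k * (t - s) ≤ (M + 1) * (η / ((2 * (n : ℝ) + 1) * (M + 1))) :=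
      mul_le_mul (by linarith [hM k hkN]) hδ (by linarith) (by linarith)
    refine (mul_le_mul_of_nonneg_left h1 hn.le).trans (le_of_eq ?_)
    have h2 : M + 1 ≠ 0 := by positivity
    field_simp
  choose U hUh hUf using fun k => hF n (Hk k) K (hk k) s t hs hst ht
  have hU0 : U 0 = 1 := by
    refine isFl_unique hU (hk 0) hs hst ht (hUf 0) fun x => ⟨fun _ => x, rfl, rfl, fun τ _ => ?_⟩
    rw [hk0, Pool.Agent.Y510.HB.XH_zero]
    exact hasDerivAt_const τ x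
  have hUN : U N = u := by
    refine isFl_unique hU (hk N) hs hst ht (hUf N) ?_
    rw [hkN]
    exact hu
  have key : ∀ k ≤ N, U k ∈ Subgroup.closure (small n ε) := by
    intro k
    induction k with
    | zero =>
      intro _
      rw [hU0]
      exact Subgroup.one_mem _
    | succ k ih =>
      intro hkN'
      have h1 : U (k + 1) = U k * ((U k)⁻¹ * U (k + 1)) := by group
      rw [h1]
      refine Subgroup.mul_mem _ (ih (by omega)) (Subgroup.subset_closure ?_)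
      have hkl : k < N := by omega
      refine ⟨Pool.Agent.Y907.HB.mul n _ _ ((Pool.Agent.Y510.HB.inv n).2 _ (hUh k)) (hUh (k + 1)),
        q ⟨k, hkl⟩, ε / 2 + η, by positivity, by linarith, by linarith [hηq ⟨k, hkl⟩], ?_⟩
      intro x hx
      have h2 : U (k + 1) x = U k x := by
        refine agree hU (hk (k + 1)) (hCb k) (q := q ⟨k, hkl⟩) (r := ε / 2) (η := η) ?_ hs hst ht
          (hd k (by omega)) (hUf k) (hUf (k + 1)) hx
        intro τ y hy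
        show (∑ i ∈ Finset.univ.filter (fun i : Fin N => (i : ℕ) < k), χ i y) * H τ y =
          (∑ i ∈ Finset.univ.filter (fun i : Fin N => (i : ℕ) < k + 1), χ i y) * H τ y
        congr 1
        rw [Finset.sum_filter, Finset.sum_filter]
        refine Finset.sum_congr rfl fun i _ => ?_
        by_cases h3 : (i : ℕ) < k
        · rw [if_pos h3, if_pos (by omega)]
        · rw [if_neg h3]
          by_cases h4 : (i : ℕ) < k + 1
          · rw [if_pos h4]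
            have h5 : i = ⟨k, hkl⟩ := Fin.ext (by show (i : ℕ) = k; omega)
            rw [h5]
            exact (hχ0 _ y hy).symm
          · rw [if_neg h4]
      show (U k)⁻¹ (U (k + 1) x) = x
      rw [h2]
      exact inv_apply_self _ _
  rw [← hUN]
  exact key N le_rfl

end Pool.Agent.R773.HN
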