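import Pool.Agent.R773.HN.Stm3
import Pool.Agent.R773.HN.Bd
import Pool.Agent.GR.Flow

/-!
# HN3-TFLOW: flows of time dependent Hamiltonians
-/

set_option autoImplicit false

open Set Filter Topology Function
open Pool.Agent.Y453.HB

namespace Pool.Agent.R773.HN

namespace TflowAux

open Pool.Agent.GR.Flow

variable {n : ℕ}

/-- cut off in time: `1` on `[0,1]`, `0` off `[-1,2]` -/
noncomputable def cut (τ : ℝ) : ℝ := Real.smoothTransition (τ + 1) * Real.smoothTransition (2 - τ)

theorem cut_one {τ : ℝ} (h : τ ∈ Icc (0 : ℝ) 1) : cut τ = 1 := by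
  unfold cut
  rw [Real.smoothTransition.one_of_one_le (by linarith [h.1]),
    Real.smoothTransition.one_of_one_le (by linarith [h.2]), mul_one]

theorem cut_zero {τ : ℝ} (h : τ ∉ Icc (-1 : ℝ) 2) : cut τ = 0 := by
  unfold cut
  rcases lt_or_ge τ (-1) with h1 | h1
  · rw [Real.smoothTransition.zero_of_nonpos (by linarith), zero_mul]
  · have h2 : 2 < τ := by
      by_contra hcon
      exact h ⟨h1, by linarith⟩
    rw [Real.smoothTransition.zero_of_nonpos (x := 2 - τ) (by linarith), mul_zero]

theorem cut_contDiff : ContDiff ℝ 1 cut := by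
  unfold cut
  exact (Real.smoothTransition.contDiff.comp (contDiff_id.add contDiff_const)).mul
    (Real.smoothTransition.contDiff.comp (contDiff_const.sub contDiff_id))

/-- the autonomous field in `ℝ × ℝ^{2n}` -/
noncomputable def Z (H : ℝ → E n → ℝ) (p : ℝ × E n) : ℝ × E n := (1, cut p.1 • Bd.G H p)

theorem exists_flow {H : ℝ → E n → ℝ} {K : Set (E n)} (hH : HamOn H K) :
    ∃ g : ℝ → ℝ × E n → ℝ × E n, (∀ p, g 0 p = p) ∧
      (∀ p t, HasDerivAt (fun t => g t p) (Z H (g t p)) t) ∧
      (∀ t s p, g (t + s) p = g t (g s p)) ∧ (∀ t, Continuous (g t)) ∧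
      ∀ t p, (g t p).1 = p.1 + t := by
  obtain ⟨hs, hK, -, h0⟩ := hH
  have hW1 : ContDiff ℝ 1 (fun p : ℝ × E n => cut p.1 • Bd.G H p) :=
    (cut_contDiff.comp contDiff_fst).smul (Bd.G_contDiff hs)
  have hsupp : HasCompactSupport (fun p : ℝ × E n => cut p.1 • Bd.G H p) := by
    refine HasCompactSupport.intro ((isCompact_Icc (a := (-1 : ℝ)) (b := 2)).prod hK) fun p hp => ?_
    by_cases h : p.1 ∈ Icc (-1 : ℝ) 2
    · have h2 : p.2 ∉ K := fun h2 => hp ⟨h, h2⟩
      rw [Bd.G_zero hK h0 p h2, smul_zero]
    · rw [cut_zero h, zero_smul]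
  obtain ⟨C, hC⟩ := ContDiff.lipschitzWith_of_hasCompactSupport hsupp hW1 one_ne_zero
  obtain ⟨M, hM⟩ := hW1.continuous.bounded_above_of_compact_support hsupp
  have hZ1 : ContDiff ℝ 1 (Z H) := contDiff_const.prodMk hW1
  have hZC : LipschitzWith (max 0 C) (Z H) := (LipschitzWith.const (1 : ℝ)).prodMk hC
  have hZM : ∀ p, ‖Z H p‖ ≤ ((max 1 (Real.toNNReal M) : NNReal) : ℝ) := by
    intro p
    have h1 : ‖Z H p‖ = max ‖(1 : ℝ)‖ ‖cut p.1 • Bd.G H p‖ := rfl
    rw [h1, NNReal.coe_max]
    refine max_le_max ?_ ((hM p).trans (Real.le_coe_toNNReal M))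
    simp
  choose γ hγ0 hγ using fun p => exists_solution hZC hZM p
  have hfl : IsFlowOf (Z H) (fun t p => γ p t) := ⟨hγ0, fun p t => hγ p t⟩
  have hcd : ContDiff ℝ ((1 : ℕ) : WithTop ℕ∞) (fun q : ℝ × (ℝ × E n) => γ q.2 q.1) :=
    contDiff_flow (X := (⟨Z H, hZ1.continuous⟩ : C(ℝ × E n, ℝ × E n))) one_ne_zero
      (by exact_mod_cast hZ1) hZC hfl
  refine ⟨fun t p => γ p t, hγ0, fun p t => hγ p t, fun t s p => hfl.add hZC t s p, fun t => ?_,
    fun t p => ?_⟩
  · exact hcd.continuous.comp
      (by fun_prop : Continuous fun p : ℝ × E n => ((t, p) : ℝ × (ℝ × E n)))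
  · have hd : ∀ t, HasDerivAt (fun t => (γ p t).1 - t) 0 t := by
      intro t
      have h1 : HasDerivAt (fun t => (γ p t).1) (Z H (γ p t)).1 t := (hγ p t).fst
      have h2 := h1.sub (hasDerivAt_id t)
      have h3 : (Z H (γ p t)).1 - 1 = 0 := sub_self (1 : ℝ)
      rw [h3] at h2
      exact h2
    have h4 := is_const_of_deriv_eq_zero (fun t => (hd t).differentiableAt)
      (fun t => (hd t).deriv) t 0
    rw [hγ0] at h4
    linarith

end TflowAux

open TflowAux Pool.Agent.GR.Flow

theorem tflow : S_TFLOW := by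
  intro n H K hH s t hs0 hst ht1
  obtain ⟨g, g0, gd, gadd, gc, g1⟩ := exists_flow hH
  obtain ⟨hsm, hK, hKQ, hoff⟩ := hH
  -- the second component
  have gd2 : ∀ (p : ℝ × E n) (c : ℝ), HasDerivAt (fun c => (g c p).2)
      (cut (p.1 + c) • XH (H (p.1 + c)) (g c p).2) c := by
    intro p c
    have h1 : HasDerivAt (fun c => (g c p).2) (Z H (g c p)).2 c := (gd p c).snd
    have h2 : (Z H (g c p)).2 = cut (p.1 + c) • XH (H (p.1 + c)) (g c p).2 := by
      show cut (g c p).1 • XH (H (g c p).1) (g c p).2 = _
      rw [g1]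
    rw [h2] at h1
    exact h1
  let u : E n ≃ₜ E n :=
    { toFun := fun x => (g (t - s) (s, x)).2
      invFun := fun y => (g (s - t) (t, y)).2
      left_inv := fun x => by
        show (g (s - t) (t, (g (t - s) (s, x)).2)).2 = x
        have h1 : ((t, (g (t - s) (s, x)).2) : ℝ × E n) = g (t - s) (s, x) := by
          apply Prod.ext
          · rw [g1]; ring
          · rfl
        rw [h1, ← gadd, show s - t + (t - s) = 0 by ring, g0]
      right_inv := fun y => by
        show (g (t - s) (s, (g (s - t) (t, y)).2)).2 = y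
        have h1 : ((s, (g (s - t) (t, y)).2) : ℝ × E n) = g (s - t) (t, y) := by
          apply Prod.ext
          · rw [g1]; ring
          · rfl
        rw [h1, ← gadd, show t - s + (s - t) = 0 by ring, g0]
      continuous_toFun := by
        exact continuous_snd.comp ((gc (t - s)).comp (by fun_prop))
      continuous_invFun := by
        exact continuous_snd.comp ((gc (s - t)).comp (by fun_prop)) }
  have hu : ∀ x, u x = (g (t - s) (s, x)).2 := fun x => rfl
  have hβ : ContDiff ℝ ((⊤ : ℕ∞) : WithTop ℕ∞) Real.smoothTransition :=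
    Real.smoothTransition.contDiff
  have hβ' : ContDiff ℝ ((⊤ : ℕ∞) : WithTop ℕ∞) (deriv Real.smoothTransition) :=
    (contDiff_infty_iff_deriv.1 hβ).2
  refine ⟨u, ⟨fun c x => ((t - s) * deriv Real.smoothTransition c) *
      H (s + (t - s) * Real.smoothTransition c) x, ?_, ⟨K, hK, hKQ, fun c x hx => ?_⟩,
      fun c x => (g ((t - s) * Real.smoothTransition c) (s, x)).2, fun x => ?_, fun c x => ?_,
      fun x => ?_⟩, ?_⟩
  · -- smoothness
    have h1 : ContDiff ℝ ((⊤ : ℕ∞) : WithTop ℕ∞) (fun p : ℝ × E n =>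
        ((s + (t - s) * Real.smoothTransition p.1, p.2) : ℝ × E n)) :=
      (contDiff_const.add (contDiff_const.mul (hβ.comp contDiff_fst))).prodMk contDiff_snd
    exact (contDiff_const.mul (hβ'.comp contDiff_fst)).mul (hsm.comp h1)
  · show _ * H (s + (t - s) * Real.smoothTransition c) x = 0
    rw [hoff _ _ hx, mul_zero]
  · show (g ((t - s) * Real.smoothTransition 0) (s, x)).2 = x
    rw [Real.smoothTransition.zero, mul_zero, g0]
  · have hc1 : HasDerivAt (fun c : ℝ => (t - s) * Real.smoothTransition c)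
        ((t - s) * deriv Real.smoothTransition c) c :=
      ((hβ.differentiable (by simp) c).hasDerivAt).const_mul _
    have h2 := (gd2 (s, x) ((t - s) * Real.smoothTransition c)).scomp c hc1
    have hmem : s + (t - s) * Real.smoothTransition c ∈ Icc (0 : ℝ) 1 := by
      have hb0 := Real.smoothTransition.nonneg c
      have hb1 := Real.smoothTransition.le_one c
      constructor
      · have : 0 ≤ (t - s) * Real.smoothTransition c := mul_nonneg (by linarith) hb0
        linarith
      · have : (t - s) * Real.smoothTransition c ≤ (t - s) * 1 :=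
          mul_le_mul_of_nonneg_left hb1 (by linarith)
        linarith
    have hdiff : Differentiable ℝ (H (s + (t - s) * Real.smoothTransition c)) :=
      (hsm.differentiable (by simp)).comp (f := fun y : E n =>
        ((s + (t - s) * Real.smoothTransition c, y) : ℝ × E n)) (by fun_prop)
    have hX : ∀ (a : ℝ) (y : E n),
        XH (fun x => a * H (s + (t - s) * Real.smoothTransition c) x) y =
          a • XH (H (s + (t - s) * Real.smoothTransition c)) y := by
      intro a y
      unfold XH
      rw [fderiv_const_mul (hdiff y)]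
      apply Prod.ext
      · funext i
        simp
      · funext i
        simp
    have h3 : XH (fun x => ((t - s) * deriv Real.smoothTransition c) *
        H (s + (t - s) * Real.smoothTransition c) x)
        (g ((t - s) * Real.smoothTransition c) (s, x)).2 =
        ((t - s) * deriv Real.smoothTransition c) •
          (cut (s + (t - s) * Real.smoothTransition c) •
            XH (H (s + (t - s) * Real.smoothTransition c))
              (g ((t - s) * Real.smoothTransition c) (s, x)).2) := by
      rw [hX, cut_one hmem, one_smul]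
    rw [h3]
    exact h2
  · show u x = (g ((t - s) * Real.smoothTransition 1) (s, x)).2
    rw [Real.smoothTransition.one, mul_one]
    rfl
  · -- `u` is the map from time `s` to time `t`
    intro x
    refine ⟨fun τ => (g (τ - s) (s, x)).2, ?_, rfl, fun τ hτ => ?_⟩
    · show (g (s - s) (s, x)).2 = x
      rw [sub_self, g0]
    · have h1 := (gd2 (s, x) (τ - s)).scomp τ ((hasDerivAt_id τ).sub_const s)
      have h2 : s + (τ - s) = τ := by ring
      have h3 : cut τ = 1 := cut_one ⟨hs0.trans hτ.1, hτ.2.trans ht1⟩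
      simp only [h2, h3, one_smul] at h1
      exact h1

end Pool.Agent.R773.HN
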