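import Pool.Agent.R773.HN.Stm3

/-!
# Project HN, part 3: uniqueness
-/

set_option autoImplicit false

open Set Filter Topology Function
open Pool.Agent.Y453.HB

namespace Pool.Agent.R773.HN

theorem uni2 (hB : S_BD) : S_UNI := by
  intro n H K hH s t hs hst ht γ γ' h0 hγ hγ'
  obtain ⟨C, hC, -, hL, -⟩ := hB n H hH.1 K hH.2.1 hH.2.2.2
  have hLip : ∀ τ ∈ Ico s t, LipschitzOnWith (Real.toNNReal C) (XH (H τ)) univ := by
    intro τ hτ
    refine LipschitzOnWith.of_dist_le_mul fun x _ y _ => ?_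
    rw [dist_eq_norm, dist_eq_norm, Real.coe_toNNReal C hC]
    exact hL τ ⟨hs.trans hτ.1, hτ.2.le.trans ht⟩ x y
  exact ODE_solution_unique_of_mem_Icc_right (v := fun τ => XH (H τ)) (s := fun _ => univ) hLip
    (fun τ hτ => (hγ τ hτ).continuousAt.continuousWithinAt)
    (fun τ hτ => (hγ τ ⟨hτ.1, hτ.2.le⟩).hasDerivWithinAt) (fun _ _ => mem_univ _)
    (fun τ hτ => (hγ' τ hτ).continuousAt.continuousWithinAt)
    (fun τ hτ => (hγ' τ ⟨hτ.1, hτ.2.le⟩).hasDerivWithinAt) (fun _ _ => mem_univ _) h0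

end Pool.Agent.R773.HN
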