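import Pool.Agent.R773.HN.Asm3
import Pool.Agent.R773.HN.Asm4
import Pool.Agent.R773.HN.Comm3
import Pool.Agent.R773.HN.Sm
import Pool.Agent.R773.HN.Frag
import Pool.Agent.R773.HN.Frag1
import Pool.Agent.R773.HN.Tflow
import Pool.Agent.R773.HN.Uni2

/-!
# Project HN, third part: the pieces together
-/

set_option autoImplicit false

open Pool.Agent.Y453.HB

namespace Pool.Agent.R773.HN

theorem hFr : S_FRAG := frag tflow (uni2 bd) (frag1 cover bd tflow (uni2 bd))

theorem hCo : S_COMM := comm3 hFr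

theorem hSm : S_SMALL := fun _ hn _ hΓ _ _ _ _ h0 h0' h1 h1' h2 h2' _ _ hf hg hfs hgs =>
  small_comm hn hΓ h0 h0' h1 h1' h2 h2' hf hg hfs hgs

end Pool.Agent.R773.HN
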