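import Pool.Agent.R773.HN.Grp

/-!
# Project HN: the smallest normal subgroup
-/

set_option autoImplicit false

open Set Filter Topology Function
open Pool.Agent.Y453.HB
open scoped commutatorElement

namespace Pool.Agent.R773.HN

variable {n : ℕ}

/-- the intersection of the nontrivial normal subgroups of `Γ` -/
def Mono (Γ : Subgroup (E n ≃ₜ E n)) : Subgroup (E n ≃ₜ E n) :=
  sInf {N | NormIn Γ N ∧ N ≠ ⊥} ⊓ Γ

theorem Mono_le {Γ N : Subgroup (E n ≃ₜ E n)} (hN : NormIn Γ N) (hne : N ≠ ⊥) :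
    Mono Γ ≤ N := inf_le_left.trans (sInf_le ⟨hN, hne⟩)

theorem Mono_norm (Γ : Subgroup (E n ≃ₜ E n)) : NormIn Γ (Mono Γ) := by
  refine ⟨inf_le_right, fun g hg x hx => ?_⟩
  obtain ⟨h1, h2⟩ := Subgroup.mem_inf.1 hx
  refine Subgroup.mem_inf.2 ⟨?_, Γ.mul_mem (Γ.mul_mem hg h2) (Γ.inv_mem hg)⟩
  rw [Subgroup.mem_sInf] at h1 ⊢
  exact fun N hN => hN.1.2 g hg x (h1 N hN)

/-- commutators with displaceable supports -/
theorem comm_mono (hT : S_TRANS) (hR : S_TROT) {Γ : Subgroup (E n ≃ₜ E n)} (hΓ : Mid Γ)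
    {A : Set (E n)} (hA : IsCompact A) {κ : E n ≃ₜ E n} (hκ : κ ∈ Γ)
    (hd : Disjoint (κ '' A) A) {f g : E n ≃ₜ E n} (hf : f ∈ Γ) (hg : g ∈ Γ) (hfA : Supp A f)
    (hgA : Supp A g) : ⁅f, g⁆ ∈ Mono Γ := by
  have h1 : ⁅f, g⁆ ∈ Γ := Γ.mul_mem (Γ.mul_mem (Γ.mul_mem hf hg) (Γ.inv_mem hf)) (Γ.inv_mem hg)
  refine Subgroup.mem_inf.2 ⟨?_, h1⟩
  rw [Subgroup.mem_sInf]
  rintro N ⟨hN, hne⟩
  obtain ⟨δ, hδ, h2⟩ : ∃ δ > 0, ∀ x ∈ A, ∀ y ∈ A, δ ≤ dist (κ x) y := by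
    rcases A.eq_empty_or_nonempty with h | h
    · exact ⟨1, one_pos, fun x hx => by rw [h] at hx; exact absurd hx (notMem_empty x)⟩
    · have h3 : IsCompact (A ×ˢ A) := hA.prod hA
      obtain ⟨⟨a, b⟩, hab, hmin⟩ := h3.exists_isMinOn (h.prod h)
        (f := fun p : E n × E n => dist (κ p.1) p.2)
        ((κ.continuous.comp continuous_fst).dist continuous_snd).continuousOn
      refine ⟨dist (κ a) b, dist_pos.2 ?_, fun x hx y hy => hmin (mk_mem_prod hx hy)⟩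
      intro he
      exact Set.disjoint_left.1 hd ⟨a, hab.1, rfl⟩ (he ▸ hab.2)
  obtain ⟨s, hs, hsx⟩ := dens hT hR hΓ hN hne (hΓ.le hκ) hδ
  refine comm_mem hN hs hf hg hfA hgA ?_
  rw [Set.disjoint_left]
  rintro _ ⟨x, hx, rfl⟩ hy
  have h3 := h2 x hx _ hy
  have h4 := hsx x
  rw [← dist_eq_norm, dist_comm] at h4
  linarith

/-! ### nontrivial elements -/

/-- the vector `(d, 0, …, 0)` -/
theorem exists_vec (hn : 0 < n) {d : ℝ} (hd : 0 < d) : ∃ v : E n, nm v = d := by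
  refine ⟨(Pi.single ⟨0, hn⟩ d, 0), ?_⟩
  have : Q ((Pi.single ⟨0, hn⟩ d, 0) : E n) = d ^ 2 := by
    unfold Q
    rw [Finset.sum_eq_single ⟨0, hn⟩]
    · simp
    · intro j _ hj
      simp [hj]
    · intro h
      exact absurd (Finset.mem_univ _) h
  unfold nm
  rw [this, Real.sqrt_sq hd.le]

theorem L1 (hT : S_TRANS) (hn : 0 < n) {q : E n} {r : ℝ} (hr : 0 < r) (hq : nm q + r < 1) :
    ∃ c : E n ≃ₜ E n, IsHam c ∧ Supp (D q r) c ∧ c (c q) ≠ q ∧ c q ≠ q := by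
  obtain ⟨v, hv⟩ := exists_vec hn (show 0 < r / 4 by linarith)
  obtain ⟨c, hc, hcs, hcx⟩ := hT n q q v (r / 4) r (by linarith) hq
    (by rw [sub_self, nm_zero]; linarith) (by rw [add_sub_cancel_left, hv]; linarith)
  have hv0 : v ≠ 0 := by
    rintro rfl
    rw [nm_zero] at hv
    linarith
  have h1 : c q = q + v := hcx q (mem_D_self q (by linarith))
  have h2 : c (q + v) = q + v + v := hcx _ (by
    show nm (q + v - q) ≤ r / 4
    rw [add_sub_cancel_left, hv])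
  refine ⟨c, hc, hcs, ?_, ?_⟩
  · rw [h1, h2, add_assoc]
    intro h
    have h3 : v + v = 0 := by simpa using h
    have h4 : (2 : ℝ) • v = 0 := by rw [two_smul]; exact h3
    rcases smul_eq_zero.1 h4 with h5 | h5
    · norm_num at h5
    · exact hv0 h5
  · rw [h1]
    intro h
    exact hv0 (by simpa using h)

theorem inv_not_mem {V : Set (E n)} {a : E n ≃ₜ E n} (hd : Disjoint (a '' V) V) {y : E n}
    (hy : y ∈ V) : a⁻¹ y ∉ V := fun h =>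
  Set.disjoint_left.1 hd ⟨_, h, apply_inv_self a y⟩ hy

theorem L3 (hT : S_TRANS) (hn : 0 < n) {q : E n} {r : ℝ} (hr : 0 < r) (hq : nm q + r < 1) :
    ∃ a b : E n ≃ₜ E n, IsHam a ∧ IsHam b ∧ Supp (D q r) a ∧ Supp (D q r) b ∧ ⁅a, b⁆ ≠ 1 := by
  obtain ⟨a, ha, has, -, haq⟩ := L1 hT hn hr hq
  obtain ⟨ρ, hρ, hρD⟩ := D_nhds q hr
  obtain ⟨r', hr', hqr', hsub, hd⟩ := displaced haq
    (Filter.mem_of_superset (Metric.closedBall_mem_nhds q hρ) hρD)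
    (by linarith)
  obtain ⟨b, hb, hbs, -, hbq⟩ := L1 hT hn hr' hqr'
  refine ⟨a, b, ha, hb, has, hbs.mono hsub, fun h => ?_⟩
  have hqV : q ∈ D q r' := mem_D_self q hr'.le
  have h1 : (⁅a, b⁆ : E n ≃ₜ E n) (b q) = q := by
    show a (b (a⁻¹ (b⁻¹ (b q)))) = q
    rw [inv_apply_self, hbs _ (inv_not_mem hd hqV), apply_inv_self]
  rw [h] at h1
  exact hbq h1

theorem L4 (hT : S_TRANS) (hn : 0 < n) {q : E n} {r : ℝ} (hr : 0 < r) (hq : nm q + r < 1) :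
    ∃ a b c d : E n ≃ₜ E n, IsHam a ∧ IsHam b ∧ IsHam c ∧ IsHam d ∧ Supp (D q r) a ∧
      Supp (D q r) b ∧ Supp (D q r) c ∧ Supp (D q r) d ∧ ⁅⁅a, b⁆, ⁅c, d⁆⁆ ≠ 1 := by
  have hM := Pool.Agent.Y907.HB.mul
  have hI := Pool.Agent.Y510.HB.inv
  obtain ⟨a, b, ha, hb, has, hbs, hab⟩ := L3 hT hn hr hq
  set x := ⁅a, b⁆ with hx
  have hxh : IsHam x :=
    hM n _ _ (hM n _ _ (hM n _ _ ha hb) ((hI n).2 _ ha)) ((hI n).2 _ hb)
  have hxs : Supp (D q r) x := has.comm hbs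
  obtain ⟨z, hz⟩ := exists_moved hab
  have hmov : {y | x y ≠ y} ⊆ D q r := fun y hy => by
    by_contra hc
    exact hy (hxs y hc)
  have hopen : IsOpen {y | x y ≠ y} := isOpen_ne_fun x.continuous continuous_id
  have hz1 : nm z < 1 := by
    have h1 : nm (z - q) ≤ r := hmov hz
    have h2 := nm_add (z - q) q
    rw [sub_add_cancel] at h2
    linarith
  obtain ⟨r', hr', hzr', hsub, hd⟩ := displaced hz (hopen.mem_nhds hz) hz1
  obtain ⟨c, hc, hcs, hcz, -⟩ := L1 hT hn hr' hzr'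
  have hcs' := hcs.mono (hsub.trans hmov)
  refine ⟨c, x, a, b, hc, hxh, ha, hb, hcs', hxs, has, hbs, fun h => ?_⟩
  rw [← hx] at h
  have h1 : ⁅c, x⁆ * x = x * ⁅c, x⁆ := commutatorElement_eq_one_iff_mul_comm.1 h
  have hzV : z ∈ D z r' := mem_D_self z hr'.le
  -- the two sides at `x z`
  have e1 : (⁅c, x⁆ * x : E n ≃ₜ E n) z = x (c⁻¹ z) := by
    show c (x (c⁻¹ (x⁻¹ (x z)))) = _
    rw [inv_apply_self, hcs]
    exact fun h' => Set.disjoint_left.1 hd ⟨_, hcs.inv.maps hzV, rfl⟩ h'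
  have e2 : (x * ⁅c, x⁆ : E n ≃ₜ E n) z = x (c z) := by
    show x (c (x (c⁻¹ (x⁻¹ z)))) = _
    rw [hcs.inv _ (inv_not_mem hd hzV), apply_inv_self]
  rw [h1, e2] at e1
  have e3 : c z = c⁻¹ z := x.injective e1
  apply hcz
  rw [e3, apply_inv_self]

theorem Mono_ne (hT : S_TRANS) (hR : S_TROT) (hn : 0 < n) {Γ : Subgroup (E n ≃ₜ E n)}
    (hΓ : Mid Γ) : Mono Γ ≠ ⊥ := by
  obtain ⟨e, he⟩ := exists_vec hn (show (0 : ℝ) < 1 / 2 by norm_num)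
  obtain ⟨a, b, ha, hb, has, hbs, hab⟩ := L3 hT hn (q := e) (r := 1 / 8) (by norm_num)
    (by rw [he]; norm_num)
  have he2 : e + -(2 : ℝ) • e = -e := by
    rw [neg_smul, two_smul]
    abel
  obtain ⟨κ, hκ, -, hκx⟩ := hT n 0 e (-(2 : ℝ) • e) (1 / 8) (3 / 4) (by norm_num)
    (by rw [nm_zero]; norm_num) (by rw [sub_zero, he]; norm_num)
    (by rw [sub_zero, he2, nm_neg, he]; norm_num)
  have hd : Disjoint (κ '' D e (1 / 8)) (D e (1 / 8)) := by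
    rw [Set.disjoint_left]
    intro y hy hy'
    have h1 := image_D hκx hy
    rw [he2] at h1
    have h2 : nm (y - -e) ≤ 1 / 8 := h1
    have h3 : nm (y - e) ≤ 1 / 8 := hy'
    have h4 : nm ((y - -e) - (y - e)) ≤ nm (y - -e) + nm (y - e) := by
      have := nm_add (y - -e) (-(y - e))
      rwa [nm_neg, ← sub_eq_add_neg] at this
    have h5 : (y - -e) - (y - e) = (2 : ℝ) • e := by
      rw [two_smul]
      abel
    rw [h5, nm_smul, he, show |(2 : ℝ)| * (1 / 2) = 1 by norm_num] at h4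
    linarith
  intro hbot
  have h1 := comm_mono hT hR hΓ (D_compact e (1 / 8)) (hΓ.ham κ hκ) hd (hΓ.ham a ha)
    (hΓ.ham b hb) has hbs
  rw [hbot, Subgroup.mem_bot] at h1
  exact hab h1

/-- every nontrivial normal subgroup of `Mono Γ` is everything -/
theorem Mono_simple (hT : S_TRANS) (hR : S_TROT) (hn : 0 < n) {Γ M : Subgroup (E n ≃ₜ E n)}
    (hΓ : Mid Γ) (hM : NormIn (Mono Γ) M) (hne : M ≠ ⊥) : Mono Γ ≤ M := by
  have hSΓ : Mono Γ ≤ Γ := (Mono_norm Γ).1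
  obtain ⟨⟨m, hm⟩, hm'⟩ := (Subgroup.ne_bot_iff_exists_ne_one).1 hne
  have hm1 : m ≠ 1 := fun h' => hm' (Subtype.ext h')
  obtain ⟨z, hz⟩ := exists_moved hm1
  have hmΓ : m ∈ Γ := hSΓ (hM.1 hm)
  obtain ⟨K, -, hK1, hK2⟩ := cpt_supp (hΓ.le hmΓ)
  have hz1 : nm z < 1 := by
    apply nm_lt_one
    by_contra hc
    exact hz (hK2 z fun h => hc (hK1 h))
  obtain ⟨r, hr, hzr, -, hd⟩ := displaced hz Filter.univ_mem hz1
  obtain ⟨ρ, hρ, hρD⟩ := D_nhds z hr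
  -- elements of `Γ` supported in the ball
  have hC : ∀ a ∈ Γ, ∀ b ∈ Γ, ∀ c ∈ Γ, ∀ d ∈ Γ, Supp (D z r) a → Supp (D z r) b →
      Supp (D z r) c → Supp (D z r) d → ⁅⁅a, b⁆, ⁅c, d⁆⁆ ∈ M := by
    intro a ha b hb c hc d hd' has hbs hcs hds
    exact comm_mem hM hm (comm_mono hT hR hΓ (D_compact z r) hmΓ hd ha hb has hbs)
      (comm_mono hT hR hΓ (D_compact z r) hmΓ hd hc hd' hcs hds) (has.comm hbs) (hcs.comm hds) hd
  set T : Set (E n ≃ₜ E n) := {y | ∃ A : Set (E n), ∃ κ ∈ Γ,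
    κ '' A ⊆ Metric.closedBall z (ρ / 2) ∧ ∃ a ∈ Γ, ∃ b ∈ Γ, ∃ c ∈ Γ, ∃ d ∈ Γ, Supp A a ∧
      Supp A b ∧ Supp A c ∧ Supp A d ∧ y = ⁅⁅a, b⁆, ⁅c, d⁆⁆} with hTdef
  have hTM : ∀ y ∈ T, y ∈ M := by
    rintro y ⟨A, κ, hκ, hκA, a, ha, b, hb, c, hc, d, hd', has, hbs, hcs, hds, rfl⟩
    obtain ⟨s, hs, hsx⟩ := dens hT hR hΓ (Mono_norm Γ) (Mono_ne hT hR hn hΓ) (hΓ.le hκ)
      (half_pos hρ)
    have hsA : s '' A ⊆ D z r := by
      rintro _ ⟨x, hx, rfl⟩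
      apply hρD
      have h1 := Metric.mem_closedBall.1 (hκA ⟨x, hx, rfl⟩)
      have h2 := hsx x
      rw [← dist_eq_norm] at h2
      rw [Metric.mem_closedBall]
      have := dist_triangle (s x) (κ x) z
      linarith
    have hsΓ := hSΓ hs
    have cj : ∀ f ∈ Γ, s * f * s⁻¹ ∈ Γ := fun f hf =>
      Γ.mul_mem (Γ.mul_mem hsΓ hf) (Γ.inv_mem hsΓ)
    have h1 := hC _ (cj a ha) _ (cj b hb) _ (cj c hc) _ (cj d hd') ((has.conj s).mono hsA)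
      ((hbs.conj s).mono hsA) ((hcs.conj s).mono hsA) ((hds.conj s).mono hsA)
    refine hM.of_conj hs ?_
    have e : s * ⁅⁅a, b⁆, ⁅c, d⁆⁆ * s⁻¹ =
        ⁅⁅s * a * s⁻¹, s * b * s⁻¹⁆, ⁅s * c * s⁻¹, s * d * s⁻¹⁆⁆ := by
      simp only [commutatorElement_def]
      group
    rwa [e]
  have hTΓ : ∀ y ∈ T, y ∈ Γ := fun y hy => hSΓ (hM.1 (hTM y hy))
  have hconj : ∀ g ∈ Γ, ∀ y ∈ T, g * y * g⁻¹ ∈ T := by
    rintro g hg y ⟨A, κ, hκ, hκA, a, ha, b, hb, c, hc, d, hd', has, hbs, hcs, hds, rfl⟩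
    have cj : ∀ f ∈ Γ, g * f * g⁻¹ ∈ Γ := fun f hf =>
      Γ.mul_mem (Γ.mul_mem hg hf) (Γ.inv_mem hg)
    refine ⟨g '' A, κ * g⁻¹, Γ.mul_mem hκ (Γ.inv_mem hg), ?_, _, cj a ha, _, cj b hb, _,
      cj c hc, _, cj d hd', has.conj g, hbs.conj g, hcs.conj g, hds.conj g, ?_⟩
    · rintro _ ⟨_, ⟨x, hx, rfl⟩, rfl⟩
      rw [mul_apply, inv_apply_self]
      exact hκA ⟨x, hx, rfl⟩
    · simp only [commutatorElement_def]
      group
  have hcl : NormIn Γ (Subgroup.closure T) := by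
    refine ⟨(Subgroup.closure_le _).2 hTΓ, fun g hg x hx => ?_⟩
    induction hx using Subgroup.closure_induction with
    | mem x hx => exact Subgroup.subset_closure (hconj g hg x hx)
    | one => simp
    | mul x y _ _ h1 h2 =>
      have e : g * (x * y) * g⁻¹ = (g * x * g⁻¹) * (g * y * g⁻¹) := by group
      rw [e]
      exact Subgroup.mul_mem _ h1 h2
    | inv x _ h1 =>
      have e : g * x⁻¹ * g⁻¹ = (g * x * g⁻¹)⁻¹ := by group
      rw [e]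
      exact Subgroup.inv_mem _ h1
  have hTne : Subgroup.closure T ≠ ⊥ := by
    obtain ⟨r', hr', hr'1, hr'2⟩ : ∃ r' > 0, nm z + r' < 1 ∧
        D z r' ⊆ Metric.closedBall z (ρ / 2) := by
      refine ⟨min (ρ / 2) ((1 - nm z) / 2), lt_min (half_pos hρ) (by linarith), ?_, ?_⟩
      · have := min_le_right (ρ / 2) ((1 - nm z) / 2)
        linarith
      · exact (D_sub_ball _ _).trans (Metric.closedBall_subset_closedBall (min_le_left _ _))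
    obtain ⟨a, b, c, d, ha, hb, hc, hd', has, hbs, hcs, hds, h1⟩ := L4 hT hn hr' hr'1
    intro hbot
    have h2 : ⁅⁅a, b⁆, ⁅c, d⁆⁆ ∈ Subgroup.closure T := Subgroup.subset_closure
      ⟨D z r', 1, Γ.one_mem, by rintro _ ⟨x, hx, rfl⟩; exact hr'2 hx, a, hΓ.ham a ha, b,
        hΓ.ham b hb, c, hΓ.ham c hc, d, hΓ.ham d hd', has, hbs, hcs, hds, rfl⟩
    rw [hbot, Subgroup.mem_bot] at h2
    exact h1 h2
  exact (Mono_le hcl hTne).trans ((Subgroup.closure_le _).2 hTM)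

end Pool.Agent.R773.HN
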