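import Pool.Agent.Y453.HB.Stm

/-!
# Project HN: normal subgroups of the group of Hamiltonian homeomorphisms of the ball

Definitions and exact statements of the parts. Definitions `E n`, `Q`, `XH`, `IsHam`, `HamBar`:
`Pool/Agent/Y453/HB/Stm.lean`. Proofs: `NOTES.md` in this folder.
-/

set_option autoImplicit false

open Set Filter Topology Function
open Pool.Agent.Y453.HB

namespace Pool.Agent.R773.HN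

/-- the Euclidean norm -/
noncomputable def nm {n : ℕ} (x : E n) : ℝ := √(Q x)

/-- the closed ball with centre `q` and radius `r` -/
def D {n : ℕ} (q : E n) (r : ℝ) : Set (E n) := {x | nm (x - q) ≤ r}

/-- `f` is the identity off `A` -/
def Supp {n : ℕ} (A : Set (E n)) (f : E n ≃ₜ E n) : Prop := ∀ x, x ∉ A → f x = x

/-- HN-FLOW: the flow of an autonomous Hamiltonian with compact support -/
def S_FLOW : Prop := ∀ (n : ℕ) (h : E n → ℝ), ContDiff ℝ ((⊤ : ℕ∞) : WithTop ℕ∞) h →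
  ∀ K : Set (E n), IsCompact K → K ⊆ {p : E n | Q p < 1} → (∀ x, x ∉ K → h x = 0) →
  ∃ (u : E n ≃ₜ E n) (ψ : ℝ → E n → E n), IsHam u ∧ Supp K u ∧ (∀ x, ψ 0 x = x) ∧
    (∀ t x, HasDerivAt (fun s => ψ s x) (XH h (ψ t x)) t) ∧ ∀ x, u x = ψ 1 x

/-- HN-TRANS: a translation cut off in a ball -/
def S_TRANS : Prop := ∀ (n : ℕ) (c q v : E n) (ε R : ℝ), 0 < ε → nm c + R < 1 →
  nm (q - c) + ε < R → nm (q + v - c) + ε < R →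
  ∃ κ : E n ≃ₜ E n, IsHam κ ∧ Supp (D c R) κ ∧ ∀ x ∈ D q ε, κ x = x + v

/-- HN-COVER: partition of unity subordinate to small balls inside the unit ball -/
def S_COVER : Prop := ∀ (n : ℕ) (K : Set (E n)), IsCompact K → K ⊆ {p : E n | Q p < 1} →
  ∀ ε : ℝ, 0 < ε → ε < 1 → ∃ (N : ℕ) (q : Fin N → E n) (χ : Fin N → E n → ℝ),
    (∀ i, nm (q i) + ε < 1) ∧ (∀ i, ContDiff ℝ ((⊤ : ℕ∞) : WithTop ℕ∞) (χ i)) ∧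
    (∀ i x, x ∉ D (q i) ε → χ i x = 0) ∧ ∀ x ∈ K, ∑ i, χ i x = 1

/-- HN-BD: bounds for a Hamiltonian vector field -/
def S_BD : Prop := ∀ (n : ℕ) (H : ℝ → E n → ℝ),
  ContDiff ℝ ((⊤ : ℕ∞) : WithTop ℕ∞) (Function.uncurry H) → ∀ K : Set (E n), IsCompact K →
  (∀ t x, x ∉ K → H t x = 0) → ∃ C : ℝ, 0 ≤ C ∧
    (∀ t ∈ Icc (0 : ℝ) 1, ∀ x, ‖XH (H t) x‖ ≤ C) ∧
    (∀ t ∈ Icc (0 : ℝ) 1, ∀ x y, ‖XH (H t) x - XH (H t) y‖ ≤ C * ‖x - y‖) ∧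
    ∀ s ∈ Icc (0 : ℝ) 1, ∀ t ∈ Icc (0 : ℝ) 1, ∀ x, ‖XH (H s) x - XH (H t) x‖ ≤ C * |s - t|

/-- HN-STEP: abstract Lie-Trotter formula. `u i s t` is the time one map of the field
`s • Y i t`. -/
def S_STEP : Prop := ∀ (V : Type) [NormedAddCommGroup V] [NormedSpace ℝ V] (N : ℕ)
  (Y : Fin N → ℝ → V → V) (C : ℝ), 0 ≤ C → (∀ i, ∀ t ∈ Icc (0 : ℝ) 1, ∀ x, ‖Y i t x‖ ≤ C) →
  (∀ i, ∀ t ∈ Icc (0 : ℝ) 1, ∀ x y, ‖Y i t x - Y i t y‖ ≤ C * ‖x - y‖) →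
  (∀ i, ∀ s ∈ Icc (0 : ℝ) 1, ∀ t ∈ Icc (0 : ℝ) 1, ∀ x, ‖Y i s x - Y i t x‖ ≤ C * |s - t|) →
  ∀ ψ : ℝ → V → V, (∀ x, ψ 0 x = x) →
  (∀ t ∈ Icc (0 : ℝ) 1, ∀ x, HasDerivAt (fun s => ψ s x) (∑ i, Y i t (ψ t x)) t) →
  ∀ u : Fin N → ℝ → ℝ → (V ≃ₜ V),
  (∀ i, ∀ s ∈ Icc (0 : ℝ) 1, ∀ t ∈ Icc (0 : ℝ) 1, ∀ x, ∃ γ : ℝ → V, γ 0 = x ∧
    γ 1 = u i s t x ∧ ∀ τ, HasDerivAt γ (s • Y i t (γ τ)) τ) →
  ∀ η : ℝ, 0 < η → ∃ l : List (Fin N × ℝ × ℝ),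
    (∀ a ∈ l, a.2.1 ∈ Icc (0 : ℝ) 1 ∧ a.2.2 ∈ Icc (0 : ℝ) 1) ∧
    ∀ x, ‖(l.map fun a => u a.1 a.2.1 a.2.2).prod x - ψ 1 x‖ < η

/-- HN-TROT: approximation of a Hamiltonian diffeomorphism by a product of Hamiltonian
diffeomorphisms with small supports -/
def S_TROT : Prop := ∀ (n : ℕ) (φ : E n ≃ₜ E n), IsHam φ → ∀ ε η : ℝ, 0 < ε → ε < 1 → 0 < η →
  ∃ l : List (E n ≃ₜ E n),
    (∀ u ∈ l, IsHam u ∧ ∃ q : E n, nm q + ε < 1 ∧ Supp (D q ε) u) ∧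
    ∀ x, ‖l.prod x - φ x‖ < η

end Pool.Agent.R773.HN
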