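import Pool.Agent.R773.HN.Stm3

/-!
# Project HN, third part: uniqueness of the solutions (HN3-UNI)
-/

set_option autoImplicit false

open Set Filter Topology Function
open Pool.Agent.Y453.HB

namespace Pool.Agent.R773.HN

/-- HN3-UNI: uniqueness of the solutions of the equation of a time dependent Hamiltonian -/
theorem uni (hB : S_BD) : S_UNI := by
  intro n H K hH s t hs hst ht γ γ' h0 h1 h2 τ hτ
  obtain ⟨hc, hK, -, hoff⟩ := hH
  obtain ⟨C, hC, -, hlip, -⟩ := hB n H hc K hK hoff
  have hLip : ∀ r ∈ Ico s t, LipschitzOnWith (⟨C, hC⟩ : NNReal) (XH (H r)) univ := by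
    intro r hr
    refine LipschitzOnWith.of_dist_le_mul fun x _ y _ => ?_
    rw [dist_eq_norm, dist_eq_norm]
    exact hlip r ⟨hs.trans hr.1, hr.2.le.trans ht⟩ x y
  have hγ : ContinuousOn γ (Icc s t) := fun r hr => (h1 r hr).continuousAt.continuousWithinAt
  have hγ' : ContinuousOn γ' (Icc s t) := fun r hr => (h2 r hr).continuousAt.continuousWithinAt
  exact ODE_solution_unique_of_mem_Icc_right (v := fun r => XH (H r)) (s := fun _ => univ)
    hLip hγ (fun r hr => (h1 r ⟨hr.1, hr.2.le⟩).hasDerivWithinAt) (fun _ _ => trivial)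
    hγ' (fun r hr => (h2 r ⟨hr.1, hr.2.le⟩).hasDerivWithinAt) (fun _ _ => trivial) h0 hτ

end Pool.Agent.R773.HN
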